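import Pool.Agent.Tri3.ImP

set_option autoImplicit false

/-! Package W10: components of preimages. -/

namespace Pool.Agent.Tri3

open MvPolynomial Module Pool.Agent.CITLines

variable {ι S : Type} [Fintype ι] [Fintype S] {c : S → ℂ} {φ : S → ι → ℤ}

/-- PROOF. Choose numerators `num f` by `exists_mem_Im`; `J := p ⊔ Ideal.span (num '' y)`; the finite
set is `{D ∈ J.minimalPrimes | TP D}` (`Ideal.finite_minimalPrimes_of_isNoetherianRing`); a minimal
prime below `q` (`Ideal.exists_minimalPrimes_le`) is `TP` by `TP.mono`. -/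
theorem exists_comps (p : Ideal (MvPolynomial ι ℂ)) (y : Ideal (MvPolynomial S ℂ)) :
    ∃ E : Finset (Ideal (MvPolynomial ι ℂ)),
      (∀ D ∈ E, TP D ∧ p ≤ D ∧ y ≤ Im c φ D ∧
        ∀ D' : Ideal (MvPolynomial ι ℂ), TP D' → p ≤ D' → y ≤ Im c φ D' → D' ≤ D → D' = D) ∧
      ∀ q : Ideal (MvPolynomial ι ℂ), TP q → p ≤ q → y ≤ Im c φ q → ∃ D ∈ E, D ≤ q := by
  classical
  choose num hnum using exists_mem_Im c φ
  have hspan : ∀ q : Ideal (MvPolynomial ι ℂ), TP q →
      (Ideal.span (num '' (y : Set (MvPolynomial S ℂ))) ≤ q ↔ y ≤ Im c φ q) := by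
    intro q hq
    rw [Ideal.span_le]
    constructor
    · intro h f hf
      exact (hnum f q hq).1 (h ⟨f, hf, rfl⟩)
    · rintro h _ ⟨f, hf, rfl⟩
      exact (hnum f q hq).2 (h hf)
  set J : Ideal (MvPolynomial ι ℂ) := p ⊔ Ideal.span (num '' (y : Set (MvPolynomial S ℂ))) with hJ
  have hfin : (J.minimalPrimes).Finite := Ideal.finite_minimalPrimes_of_isNoetherianRing _ J
  refine ⟨hfin.toFinset.filter TP, ?_, ?_⟩
  · intro D hD
    rw [Finset.mem_filter, Set.Finite.mem_toFinset] at hD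
    obtain ⟨hDJ, hDT⟩ := hD
    refine ⟨hDT, le_sup_left.trans hDJ.le, (hspan D hDT).1 (le_sup_right.trans hDJ.le), ?_⟩
    intro D' hD' hp hy hle
    exact le_antisymm hle (hDJ.2 ⟨hD'.prime, sup_le hp ((hspan D' hD').2 hy)⟩ hle)
  · intro q hq hp hy
    have := hq.prime
    obtain ⟨D, hD, hDq⟩ := Ideal.exists_minimalPrimes_le (sup_le hp ((hspan q hq).2 hy) : J ≤ q)
    refine ⟨D, ?_, hDq⟩
    rw [Finset.mem_filter, Set.Finite.mem_toFinset]
    exact ⟨hD, hq.mono hD.isPrime hDq⟩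

/-- PROOF: `D ∈ (p ⊔ Ideal.span {num f}).minimalPrimes`, `dm_le_dm_add_card` with the finset
`{num f}`. -/
theorem krull_one {p D : Ideal (MvPolynomial ι ℂ)} (hp : TP p) (hD : TP D) (hpD : p ≤ D)
    {f : MvPolynomial S ℂ} (hf : f ∈ Im c φ D)
    (hmin : ∀ D' : Ideal (MvPolynomial ι ℂ), TP D' → p ≤ D' → f ∈ Im c φ D' → D' ≤ D → D' = D) :
    dm p ≤ dm D + 1 := by
  classical
  obtain ⟨n, hn⟩ := exists_mem_Im c φ f
  have := hp.prime
  have hmem : D ∈ (p ⊔ Ideal.span ((({n} : Finset (MvPolynomial ι ℂ))) :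
      Set (MvPolynomial ι ℂ))).minimalPrimes := by
    refine ⟨⟨hD.prime, sup_le hpD ?_⟩, ?_⟩
    · rw [Finset.coe_singleton, Ideal.span_singleton_le_iff_mem]
      exact (hn D hD).2 hf
    · rintro D' ⟨hD', hJ⟩ hle
      have hT : TP D' := hD.mono hD' hle
      have h1 : n ∈ D' := by
        have h2 := le_sup_right.trans hJ
        rwa [Finset.coe_singleton, Ideal.span_singleton_le_iff_mem] at h2
      exact (hmin D' hT (le_sup_left.trans hJ) ((hn D' hT).1 h1) hle).ge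
  have h := dm_le_dm_add_card p {n} D hmem
  rwa [Finset.card_singleton] at h

/-- PROOF: `D ∈ (Ideal.span {num f, num g}).minimalPrimes`, `card_le_dm_add_card` with the finset
`{num f, num g}` (`Finset.card_le_two`). -/
theorem krull_two {D : Ideal (MvPolynomial ι ℂ)} (hD : TP D)
    {f g : MvPolynomial S ℂ} (hf : f ∈ Im c φ D) (hg : g ∈ Im c φ D)
    (hmin : ∀ D' : Ideal (MvPolynomial ι ℂ), TP D' → f ∈ Im c φ D' → g ∈ Im c φ D' → D' ≤ D →
      D' = D) : Fintype.card ι ≤ dm D + 2 := by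
  classical
  obtain ⟨n, hn⟩ := exists_mem_Im c φ f
  obtain ⟨n', hn'⟩ := exists_mem_Im c φ g
  have hspan : ∀ q : Ideal (MvPolynomial ι ℂ), Ideal.span ((({n, n'} :
      Finset (MvPolynomial ι ℂ))) : Set (MvPolynomial ι ℂ)) ≤ q ↔ n ∈ q ∧ n' ∈ q := by
    intro q
    rw [Ideal.span_le, Finset.coe_insert, Finset.coe_singleton, Set.insert_subset_iff,
      Set.singleton_subset_iff]
    rfl
  have hmem : D ∈ (Ideal.span ((({n, n'} : Finset (MvPolynomial ι ℂ))) :
      Set (MvPolynomial ι ℂ))).minimalPrimes := by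
    refine ⟨⟨hD.prime, (hspan D).2 ⟨(hn D hD).2 hf, (hn' D hD).2 hg⟩⟩, ?_⟩
    rintro D' ⟨hD', hJ⟩ hle
    have hT : TP D' := hD.mono hD' hle
    have h1 := (hspan D').1 hJ
    exact (hmin D' hT ((hn D' hT).1 h1.1) ((hn' D' hT).1 h1.2) hle).ge
  have h := card_le_dm_add_card {n, n'} hmem
  have h2 : ({n, n'} : Finset (MvPolynomial ι ℂ)).card ≤ 2 := Finset.card_le_two
  omega

end Pool.Agent.Tri3
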