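import Pool.Agent.Tri3.Defs

set_option autoImplicit false

/-! Package W16: one relation between two elements and their complements. -/

namespace Pool.Agent.Tri3

open MvPolynomial Module Pool.Agent.CITLines

private theorem pairRel_alg {R K : Type} [CommRing R] [IsDomain R] [Field K] [Algebra R K] {y : K}
    {A B : R} (hA : A ≠ 0) (hB : B ≠ 0) {a b c d : ℕ} (h1 : a = 0 ∨ c = 0) (h2 : b = 0 ∨ d = 0)
    (h3 : ¬(a = 0 ∧ b = 0 ∧ c = 0 ∧ d = 0))
    (h : algebraMap R K A * (y ^ a * (1 - y) ^ b) = algebraMap R K B * (y ^ c * (1 - y) ^ d)) :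
    IsAlgebraic R y := by
  refine ⟨Polynomial.C A * (Polynomial.X ^ a * (1 - Polynomial.X) ^ b) -
    Polynomial.C B * (Polynomial.X ^ c * (1 - Polynomial.X) ^ d), ?_, ?_⟩
  · intro h0
    have e0 := congrArg (Polynomial.eval 0) h0
    have e1 := congrArg (Polynomial.eval 1) h0
    simp only [Polynomial.eval_sub, Polynomial.eval_mul, Polynomial.eval_pow, Polynomial.eval_C,
      Polynomial.eval_X, Polynomial.eval_one, Polynomial.eval_zero, sub_zero, one_pow, mul_one,
      sub_self, one_mul] at e0 e1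
    rcases Nat.eq_zero_or_pos a with ha | ha
    · rcases Nat.eq_zero_or_pos c with hc | hc
      · rcases Nat.eq_zero_or_pos b with hb | hb
        · have hd : d ≠ 0 := fun hd => h3 ⟨ha, hb, hc, hd⟩
          rw [hb, pow_zero, mul_one, zero_pow hd, mul_zero, sub_zero] at e1
          exact hA e1
        · have hd : d = 0 := h2.resolve_left hb.ne'
          rw [hd, pow_zero, mul_one, zero_pow hb.ne', mul_zero, zero_sub, neg_eq_zero] at e1
          exact hB e1
      · rw [ha, pow_zero, mul_one, zero_pow hc.ne', mul_zero, sub_zero] at e0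
        exact hA e0
    · have hc : c = 0 := h1.resolve_left ha.ne'
      rw [hc, pow_zero, mul_one, zero_pow ha.ne', mul_zero, zero_sub, neg_eq_zero] at e0
      exact hB e0
  · simp only [map_sub, map_mul, map_pow, Polynomial.aeval_C, Polynomial.aeval_X, map_one]
    exact sub_eq_zero.2 h

private theorem pairRel_zpow {K : Type} [Field K] {x : K} (hx : x ≠ 0) (p : ℤ) :
    x ^ p * x ^ (-p).toNat = x ^ p.toNat := by
  rw [← zpow_natCast x (-p).toNat, ← zpow_natCast x p.toNat, ← zpow_add₀ hx]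
  congr 1
  omega

/-- Two elements satisfying a nontrivial relation of the form
`x^p (1-x)^q = κ` with `κ ∈ ℂ`: the element is a constant. -/
theorem const_of_mono {K : Type} [Field K] [Algebra ℂ K] {x : K} (hx : x ≠ 0) (hx1 : 1 - x ≠ 0)
    {p q : ℤ} (hpq : p ≠ 0 ∨ q ≠ 0) {κ : ℂ} (h : x ^ p * (1 - x) ^ q = algebraMap ℂ K κ) :
    ∃ z : ℂ, x = algebraMap ℂ K z := by
  have hκ : κ ≠ 0 := by
    rintro rfl
    rw [map_zero] at h
    exact mul_ne_zero (zpow_ne_zero _ hx) (zpow_ne_zero _ hx1) h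
  have halg : IsAlgebraic ℂ x := by
    refine pairRel_alg (A := 1) (B := κ) one_ne_zero hκ (a := p.toNat) (b := q.toNat)
      (c := (-p).toNat) (d := (-q).toNat) (by omega) (by omega) (by omega) ?_
    rw [map_one, one_mul, ← pairRel_zpow hx p, ← pairRel_zpow hx1 q, ← h]
    ring
  have hint : IsIntegral ℂ x := halg.isIntegral
  have hdeg := IsAlgClosed.degree_eq_one_of_irreducible ℂ (minpoly.irreducible hint)
  obtain ⟨z, hz⟩ := minpoly.mem_range_of_degree_eq_one ℂ x hdeg
  exact ⟨z, hz.symm⟩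

/-- A relation `x^p (1-x)^q y^p' (1-y)^q' = κ` with `(p', q') ≠ 0` makes `y` algebraic
over `ℂ(x)`: PROOF: `y` is a root of the nonzero polynomial
`A Y^(p'⁺) (1-Y)^(q'⁺) - B Y^(p'⁻) (1-Y)^(q'⁻)` with `A, B ∈ adjoin ℂ {x}` nonzero (it is nonzero:
look at the order at `Y = 0` or at `Y = 1`). -/
theorem rk_pair_le_one {K : Type} [Field K] [Algebra ℂ K] {x y : K} (hx : x ≠ 0) (hx1 : 1 - x ≠ 0)
    (hy : y ≠ 0) (hy1 : 1 - y ≠ 0) {p q p' q' : ℤ} (hpq : p' ≠ 0 ∨ q' ≠ 0) {κ : ℂ}
    (h : x ^ p * (1 - x) ^ q * (y ^ p' * (1 - y) ^ q') = algebraMap ℂ K κ) :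
    rk ℂ {x, 1 - x, y, 1 - y} ≤ 1 := by
  have hκ : κ ≠ 0 := by
    rintro rfl
    rw [map_zero] at h
    exact mul_ne_zero (mul_ne_zero (zpow_ne_zero _ hx) (zpow_ne_zero _ hx1))
      (mul_ne_zero (zpow_ne_zero _ hy) (zpow_ne_zero _ hy1)) h
  have hmem : x ∈ Algebra.adjoin ℂ ({x} : Set K) := Algebra.subset_adjoin rfl
  set X : Algebra.adjoin ℂ ({x} : Set K) := ⟨x, hmem⟩ with hX
  have hXx : algebraMap (Algebra.adjoin ℂ ({x} : Set K)) K X = x := rfl
  have hX0 : X ≠ 0 := fun h0 => hx (by rw [← hXx, h0, map_zero])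
  have hX1 : 1 - X ≠ 0 := fun h0 => hx1 (by rw [← hXx, ← map_one (algebraMap
    (Algebra.adjoin ℂ ({x} : Set K)) K), ← map_sub, h0, map_zero])
  have hκ' : algebraMap ℂ (Algebra.adjoin ℂ ({x} : Set K)) κ ≠ 0 := by
    intro h0
    apply hκ
    have h1 := congrArg (algebraMap (Algebra.adjoin ℂ ({x} : Set K)) K) h0
    rw [← IsScalarTower.algebraMap_apply, map_zero] at h1
    exact (map_eq_zero (algebraMap ℂ K)).1 h1
  have halg : IsAlgebraic (Algebra.adjoin ℂ ({x} : Set K)) y := by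
    refine pairRel_alg (A := X ^ p.toNat * (1 - X) ^ q.toNat)
      (B := algebraMap ℂ _ κ * (X ^ (-p).toNat * (1 - X) ^ (-q).toNat))
      (mul_ne_zero (pow_ne_zero _ hX0) (pow_ne_zero _ hX1))
      (mul_ne_zero hκ' (mul_ne_zero (pow_ne_zero _ hX0) (pow_ne_zero _ hX1)))
      (a := p'.toNat) (b := q'.toNat) (c := (-p').toNat) (d := (-q').toNat)
      (by omega) (by omega) (by omega) ?_
    rw [map_mul, map_mul, map_mul, map_pow, map_pow, map_pow, map_pow, map_sub, map_one, hXx,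
      ← IsScalarTower.algebraMap_apply, ← h, ← pairRel_zpow hx p, ← pairRel_zpow hx1 q,
      ← pairRel_zpow hy p', ← pairRel_zpow hy1 q']
    ring
  have hxalg : IsAlgebraic (Algebra.adjoin ℂ ({x} : Set K)) x := by
    have h1 : IsAlgebraic (Algebra.adjoin ℂ ({x} : Set K))
      (algebraMap (Algebra.adjoin ℂ ({x} : Set K)) K X) := isAlgebraic_algebraMap X
    rwa [hXx] at h1
  have hone : IsAlgebraic (Algebra.adjoin ℂ ({x} : Set K)) (1 : K) := isAlgebraic_one
  calc rk ℂ {x, 1 - x, y, 1 - y} ≤ rk ℂ ({x} : Set K) := by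
        refine rk_le_of_algebraic ?_
        intro a ha
        simp only [Set.mem_insert_iff, Set.mem_singleton_iff] at ha
        rcases ha with rfl | rfl | rfl | rfl
        · exact hxalg
        · exact hone.sub hxalg
        · exact halg
        · exact hone.sub halg
    _ ≤ ({x} : Set K).encard := rk_le_encard _
    _ = 1 := Set.encard_singleton x

end Pool.Agent.Tri3
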