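import Pool.Agent.Tri3.Defs

set_option autoImplicit false

/-! Package W2: monomial maps with coefficients, at points. -/

namespace Pool.Agent.Tri3

open MvPolynomial Module Pool.Agent.CITLines

variable {ι S : Type} [Fintype ι] [Fintype S] (c : S → ℂ) (φ : S → ι → ℤ)
  {K : Type} [Field K] [Algebra ℂ K] {w : ι → K}

omit [Fintype S] in
theorem tm_ne_zero (hc : ∀ s, c s ≠ 0) (hw : ∀ i, w i ≠ 0) (s : S) : tm c φ w s ≠ 0 := by
  unfold tm
  refine mul_ne_zero ?_ (pm_ne_zero φ hw s)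
  rw [Ne, map_eq_zero]
  exact hc s

/-- As `CITLines.mon_pm` (`Finset.prod_mul_distrib`, `mul_zpow`; `CITLines.mon_map`). -/
theorem mon_tm (hw : ∀ i, w i ≠ 0) (v : S → ℤ) :
    mon (tm c φ w) v = algebraMap ℂ K (mon c v) * mon w (psiZ φ v) := by
  rw [← mon_pm φ hw]
  unfold mon
  rw [map_prod, ← Finset.prod_mul_distrib]
  refine Finset.prod_congr rfl fun s _ => ?_
  rw [map_zpow₀, ← mul_zpow]
  rfl

theorem RU_mon_c (hc : ∀ s, RU (c s)) (v : S → ℤ) : RU (mon c v) := by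
  classical
  unfold mon
  refine Finset.prod_induction _ RU (fun _ _ h h' => h.mul h') RU.one fun s _ => (hc s).zpow _

private theorem RU_algebraMap {K : Type} [Field K] [Algebra ℂ K] {z : ℂ} (h : RU z) :
    RU (algebraMap ℂ K z) := by
  obtain ⟨m, hm, h⟩ := h
  exact ⟨m, hm, by rw [← map_pow, h, map_one]⟩

theorem mem_relZ_tm (hc : ∀ s, RU (c s)) (hw : ∀ i, w i ≠ 0) (v : S → ℤ) :
    v ∈ relZ (tm c φ w) ↔ psiZ φ v ∈ relZ w := by
  rw [mem_relZ, mem_relZ, mon_tm c φ hw]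
  have h1 : RU (algebraMap ℂ K (mon c v)) := RU_algebraMap (RU_mon_c c hc v)
  constructor
  · intro h
    have h2 := h1.inv.mul h
    rwa [← mul_assoc, inv_mul_cancel₀ h1.ne_zero, one_mul] at h2
  · intro h
    exact h1.mul h

/-- Both inclusions: clear denominators (`exists_clear`), `psiQ_cst`, `cst_mem_QS_relZ`, and the
previous theorem (as in the proof of `CITLines.rho_pm`). -/
theorem QS_relZ_tm (hc : ∀ s, RU (c s)) (hw : ∀ i, w i ≠ 0) :
    QS (relZ (tm c φ w)) = (QS (relZ w)).comap (psiQ φ) := by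
  ext v
  obtain ⟨k, hk, b, hb⟩ := exists_clear v
  have hk' : (k : ℚ) ≠ 0 := by exact_mod_cast hk
  have hcb : cst b = (k : ℚ) • v := by
    funext i
    rw [cst_apply, hb, Pi.smul_apply, smul_eq_mul]
  have h6 : v = (k : ℚ)⁻¹ • cst b := by
    rw [hcb, smul_smul, inv_mul_cancel₀ hk', one_smul]
  have h7 : psiQ φ v = (k : ℚ)⁻¹ • cst (psiZ φ b) := by
    rw [← psiQ_cst, ← map_smul, ← h6]
  have h8 : cst (psiZ φ b) = (k : ℚ) • psiQ φ v := by
    rw [h7, smul_smul, mul_inv_cancel₀ hk', one_smul]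
  rw [Submodule.mem_comap]
  constructor
  · intro hv
    have h1 : cst b ∈ QS (relZ (tm c φ w)) := by
      rw [hcb]
      exact Submodule.smul_mem _ _ hv
    have h2 := (mem_relZ_tm c φ hc hw b).mp (cst_mem_QS_relZ.mp h1)
    rw [h7]
    exact Submodule.smul_mem _ _ (cst_mem_QS h2)
  · intro hv
    have h1 : cst (psiZ φ b) ∈ QS (relZ w) := by
      rw [h8]
      exact Submodule.smul_mem _ _ hv
    have h2 := (mem_relZ_tm c φ hc hw b).mpr (cst_mem_QS_relZ.mp h1)
    rw [h6]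
    exact Submodule.smul_mem _ _ (cst_mem_QS h2)

theorem isAlgebraic_tm (w : ι → K) (s : S) :
    IsAlgebraic (Algebra.adjoin ℂ (Set.range w)) (tm c φ w s) := by
  unfold tm
  refine IsAlgebraic.mul ?_ (isAlgebraic_mon w (φ s))
  exact isAlgebraic_algebraMap (algebraMap ℂ (Algebra.adjoin ℂ (Set.range w)) (c s))

theorem rk_tm_le (w : ι → K) : rk ℂ (Set.range (tm c φ w)) ≤ rk ℂ (Set.range w) := by
  refine rk_le_of_algebraic ?_
  rintro _ ⟨s, rfl⟩
  exact isAlgebraic_tm c φ w s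

end Pool.Agent.Tri3
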