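import Pool.Agent.Tri3.Num
import Pool.Agent.Tri3.Tm

set_option autoImplicit false

/-! Package W11: the ideal of a surface of `L^3` given by monomial relations. -/

namespace Pool.Agent.Tri3

open MvPolynomial Module Pool.Agent.CITLines

variable {K : Type} [Field K]

theorem mon_single' [DecidableEq (Fin (3 + 3))] (w : Fin (3 + 3) → K) (s : Fin (3 + 3)) :
    mon w (Pi.single s 1) = w s := by
  unfold mon
  rw [Finset.prod_eq_single s]
  · rw [Pi.single_eq_same, zpow_one]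
  · intro i _ hi
    rw [Pi.single_eq_of_ne hi, zpow_zero]
  · intro h
    exact absurd (Finset.mem_univ s) h

theorem mon_sub' {w : Fin (3 + 3) → K} (hw : ∀ i, w i ≠ 0) (a b : Fin (3 + 3) → ℤ) :
    mon w (a - b) = mon w a / mon w b := by
  rw [sub_eq_add_neg, mon_add' hw, mon_neg, div_eq_mul_inv]

/-- The value of the monomial `uv`. -/
theorem mon_uv {w : Fin (3 + 3) → K} (hw : ∀ i, w i ≠ 0) (s : Fin (3 + 3)) (l : Fin 3) (a b : ℤ) :
    mon w (uv s l a b) = w s / (w (cl l) ^ a * w (cr l) ^ b) := by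
  unfold uv
  rw [mon_sub' hw, mon_sub' hw, mon_smul, mon_smul, mon_single', mon_single', mon_single',
    div_div]

/-- The relation as an equation. -/
theorem mon_uv_eq_iff {w : Fin (3 + 3) → K} (hw : ∀ i, w i ≠ 0) (s : Fin (3 + 3)) (l : Fin 3)
    (a b : ℤ) (z : K) :
    mon w (uv s l a b) = z ↔ w s = z * (w (cl l) ^ a * w (cr l) ^ b) := by
  rw [mon_uv hw, div_eq_iff]
  exact mul_ne_zero (zpow_ne_zero _ (hw _)) (zpow_ne_zero _ (hw _))

/-- The equation of index `j` follows from the relations and the equation of index `l`. -/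
theorem Sf.redundant {y : Ideal (MvPolynomial (Fin (3 + 3)) ℂ)} {l k j : Fin 3} {s s' : ℂ}
    {a b a' b' : ℤ} (h : Sf y l k j s s' a b a' b') [Algebra ℂ K] {w : Fin (3 + 3) → K}
    (hw : ∀ i, w i ≠ 0) (hl : w (cl l) + w (cr l) = 1)
    (h1 : mon w (uv (cl j) l a b) = algebraMap ℂ K s)
    (h2 : mon w (uv (cr j) l a' b') = algebraMap ℂ K s') : w (cl j) + w (cr j) = 1 := by
  have h3 : w (cr l) = 1 - w (cl l) := eq_sub_of_add_eq' hl
  have h4 := h.hid K (w (cl l)) (hw _) (by rw [← h3]; exact hw _)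
  rw [mon_uv_eq_iff hw] at h1 h2
  rw [← h3] at h4
  rw [h1, h2, h4]

/-- The second relation follows from the first and the equations of `L^3`. -/
theorem Sf.second {y : Ideal (MvPolynomial (Fin (3 + 3)) ℂ)} {l k j : Fin 3} {s s' : ℂ}
    {a b a' b' : ℤ} (h : Sf y l k j s s' a b a' b') [Algebra ℂ K] {w : Fin (3 + 3) → K}
    (hw : ∀ i, w i ≠ 0) (hL : ∀ i : Fin 3, w (cl i) + w (cr i) = 1)
    (h1 : mon w (uv (cl j) l a b) = algebraMap ℂ K s) :
    mon w (uv (cr j) l a' b') = algebraMap ℂ K s' := by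
  have h3 : w (cr l) = 1 - w (cl l) := eq_sub_of_add_eq' (hL l)
  have h4 := h.hid K (w (cl l)) (hw _) (by rw [← h3]; exact hw _)
  rw [mon_uv_eq_iff hw] at h1 ⊢
  rw [← h3] at h4
  rw [eq_sub_of_add_eq' (hL j), h1]
  exact (eq_sub_of_add_eq' h4).symm

section Le

variable [Algebra ℂ K]

/-- The four coordinates of the indices `l` and `k` in terms of two. -/
def wf (x z : K) : Fin 4 → K := ![x, 1 - x, z, 1 - z]

/-- The four coordinates as polynomials. -/
noncomputable def pf : Fin 4 → MvPolynomial (Fin 2) ℂ := ![X 0, 1 - X 0, X 1, 1 - X 1]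

theorem aeval_pf (x z : K) (f : MvPolynomial (Fin 4) ℂ) :
    aeval ![x, z] (aeval pf f) = aeval (wf x z) f := by
  have h : (aeval ![x, z] : MvPolynomial (Fin 2) ℂ →ₐ[ℂ] K).comp (aeval pf) =
      aeval (wf x z) := by
    ext i
    fin_cases i <;> simp [pf, wf]
  rw [← h]
  rfl

theorem kr_wf_le {K' : Type} [Field K'] [Algebra ℂ K'] {x z : K}
    (h : kr ℂ ![x, z] = ⊥) (x' z' : K') : kr ℂ (wf x z) ≤ kr ℂ (wf x' z') := by
  intro f hf
  rw [mem_kr] at hf ⊢
  rw [← aeval_pf] at hf ⊢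
  have h1 : aeval pf f ∈ kr ℂ ![x, z] := hf
  rw [h, Ideal.mem_bot] at h1
  rw [h1, map_zero]

theorem rk_wf_le (x z : K) :
    rk ℂ (Set.range (wf x z)) ≤ rk ℂ (Set.range ![x, z]) := by
  refine rk_le_of_algebraic ?_
  have hx : x ∈ Algebra.adjoin ℂ (Set.range ![x, z]) := Algebra.subset_adjoin ⟨0, rfl⟩
  have hz : z ∈ Algebra.adjoin ℂ (Set.range ![x, z]) := Algebra.subset_adjoin ⟨1, rfl⟩
  have key : ∀ u : K, u ∈ Algebra.adjoin ℂ (Set.range ![x, z]) →
      IsAlgebraic (Algebra.adjoin ℂ (Set.range ![x, z])) u := fun u hu =>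
    isAlgebraic_algebraMap (⟨u, hu⟩ : Algebra.adjoin ℂ (Set.range ![x, z]))
  rintro _ ⟨i, rfl⟩
  fin_cases i
  · exact key _ hx
  · exact key _ (sub_mem (one_mem _) hx)
  · exact key _ hz
  · exact key _ (sub_mem (one_mem _) hz)

/-- The coefficients of the surface. -/
def cf (j : Fin 3) (s s' : ℂ) : Fin (3 + 3) → ℂ :=
  Fin.append (fun i => if i = j then s else 1) (fun i => if i = j then s' else 1)

/-- The exponents of the surface. -/
def ef (l k : Fin 3) (a b a' b' : ℤ) : Fin (3 + 3) → Fin 4 → ℤ :=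
  Fin.append (fun i => if i = l then ![1, 0, 0, 0] else if i = k then ![0, 0, 1, 0]
    else ![a, b, 0, 0])
    (fun i => if i = l then ![0, 1, 0, 0] else if i = k then ![0, 0, 0, 1]
    else ![a', b', 0, 0])

theorem cf_cl (j : Fin 3) (s s' : ℂ) (i : Fin 3) : cf j s s' (cl i) = if i = j then s else 1 := by
  unfold cf
  rw [Fin.append_left]

theorem cf_cr (j : Fin 3) (s s' : ℂ) (i : Fin 3) : cf j s s' (cr i) = if i = j then s' else 1 := by
  unfold cf
  rw [Fin.append_right]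

theorem ef_cl (l k : Fin 3) (a b a' b' : ℤ) (i : Fin 3) : ef l k a b a' b' (cl i) =
    if i = l then ![1, 0, 0, 0] else if i = k then ![0, 0, 1, 0] else ![a, b, 0, 0] := by
  unfold ef
  rw [Fin.append_left]

theorem ef_cr (l k : Fin 3) (a b a' b' : ℤ) (i : Fin 3) : ef l k a b a' b' (cr i) =
    if i = l then ![0, 1, 0, 0] else if i = k then ![0, 0, 0, 1] else ![a', b', 0, 0] := by
  unfold ef
  rw [Fin.append_right]

omit [Algebra ℂ K] in
theorem mon_wf (x z : K) (e : Fin 4 → ℤ) :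
    mon (wf x z) e = x ^ e 0 * (1 - x) ^ e 1 * z ^ e 2 * (1 - z) ^ e 3 := by
  unfold mon
  rw [Fin.prod_univ_four]
  rfl

theorem tm_wf {l k j : Fin 3} {s s' : ℂ} {a b a' b' : ℤ} (hlk : l ≠ k) (hlj : l ≠ j)
    (hkj : k ≠ j) {w : Fin (3 + 3) → K} (hL : ∀ i : Fin 3, w (cl i) + w (cr i) = 1)
    (h1 : w (cl j) = algebraMap ℂ K s * (w (cl l) ^ a * w (cr l) ^ b))
    (h2 : w (cr j) = algebraMap ℂ K s' * (w (cl l) ^ a' * w (cr l) ^ b')) :
    tm (cf j s s') (ef l k a b a' b') (wf (w (cl l)) (w (cl k))) = w := by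
  have hc : ∀ i : Fin 3, 1 - w (cl i) = w (cr i) := fun i => (eq_sub_of_add_eq' (hL i)).symm
  have hcase : ∀ i : Fin 3, i = l ∨ i = k ∨ i = j := by
    intro i
    omega
  funext i
  refine Fin.addCases (fun i => ?_) (fun i => ?_) i
  · change tm (cf j s s') (ef l k a b a' b') (wf (w (cl l)) (w (cl k))) (cl i) = w (cl i)
    unfold tm
    rw [mon_wf, cf_cl, ef_cl, hc, hc]
    rcases hcase i with rfl | rfl | rfl
    · rw [if_neg hlj, if_pos rfl]
      simp
    · rw [if_neg hkj, if_neg hlk.symm, if_pos rfl]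
      simp
    · rw [if_pos rfl, if_neg hlj.symm, if_neg hkj.symm, h1]
      simp
  · change tm (cf j s s') (ef l k a b a' b') (wf (w (cl l)) (w (cl k))) (cr i) = w (cr i)
    unfold tm
    rw [mon_wf, cf_cr, ef_cr, hc, hc]
    rcases hcase i with rfl | rfl | rfl
    · rw [if_neg hlj, if_pos rfl]
      simp
    · rw [if_neg hkj, if_neg hlk.symm, if_pos rfl]
      simp
    · rw [if_pos rfl, if_neg hlj.symm, if_neg hkj.symm, h2]
      simp

end Le

/-- **The surface is determined by the relation.**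
PROOF. `w := gen y`, `w' := gen r`; in both `z (cr i) = 1 - z (cl i)`, `z (cl j) = s z_l^a (1-z_l)^b`,
`z (cr j) = s' z_l^a' (1-z_l)^b'` (`Sf.second`, `mon_uv_eq_iff`, `TP.binom_mem`). The ring generated
by the coordinates `z (cl l)`, `z (cl k)` has transcendence degree `2` at `w` (`dm_eq_rk`, all
coordinates are algebraic over these two, `rk_le_of_algebraic`; a family of two elements with
`rk = 2` is algebraically independent, so `kr ℂ ![w (cl l), w (cl k)] = ⊥`; e.g.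
`dm_kr`, `CITLines.eq_bot_of_card_le`).
Hence `kr ℂ ![w (cl l), w (cl k)] ≤ kr ℂ ![w' (cl l), w' (cl k)]`,
then `kr ℂ ![w_l, 1-w_l, w_k, 1-w_k] ≤ kr ℂ ![w'_l, 1-w'_l, w'_k, 1-w'_k]` (substitute, `aeval`),
then `kr_tm_le` (from `Fin 4` to `Fin (3+3)`: constants `1, s, s'`, exponents rows unit vectors and
`(a, b, 0, 0)`, `(a', b', 0, 0)`) gives `y = kr ℂ w ≤ kr ℂ w' = r` (`kr_gen`). -/
theorem Sf.le {y : Ideal (MvPolynomial (Fin (3 + 3)) ℂ)} {l k j : Fin 3} {s s' : ℂ}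
    {a b a' b' : ℤ} (h : Sf y l k j s s' a b a' b') (hy : TP y) (hyL : LI 3 ≤ y) (hd : dm y = 2)
    {r : Ideal (MvPolynomial (Fin (3 + 3)) ℂ)} (hr : TP r) (hrL : LI 3 ≤ r)
    (h1 : binom ℂ (uv (cl j) l a b) s ∈ r) : y ≤ r := by
  have := hy.prime
  have := hr.prime
  have hwy : ∀ i, gen y i ≠ 0 := hy.gen_ne_zero
  have hwr : ∀ i, gen r i ≠ 0 := hr.gen_ne_zero
  have hLy : ∀ i : Fin 3, gen y (cl i) + gen y (cr i) = 1 := by
    rw [← kr_gen y] at hyL
    exact (LI_le_kr (gen y)).mp hyL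
  have hLr : ∀ i : Fin 3, gen r (cl i) + gen r (cr i) = 1 := by
    rw [← kr_gen r] at hrL
    exact (LI_le_kr (gen r)).mp hrL
  have hy1 := (hy.binom_mem _ _).mp h.hu
  have hy2 := (hy.binom_mem _ _).mp h.hu'
  have hr1 := (hr.binom_mem _ _).mp h1
  have hr2 := h.second hwr hLr hr1
  rw [mon_uv_eq_iff hwy] at hy1 hy2
  rw [mon_uv_eq_iff hwr] at hr1 hr2
  have ey := tm_wf h.hlk h.hlj h.hkj hLy hy1 hy2
  have er := tm_wf h.hlk h.hlj h.hkj hLr hr1 hr2
  have hbot : kr ℂ ![gen y (cl l), gen y (cl k)] = ⊥ := by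
    refine eq_bot_of_card_le _ ?_
    have e1 : (dm y : ℕ∞) ≤ dm (kr ℂ ![gen y (cl l), gen y (cl k)]) := by
      rw [dm_eq_rk, dm_kr]
      refine le_trans ?_ (rk_wf_le _ _)
      conv_lhs => rw [← ey]
      exact rk_tm_le _ _ _
    have e2 : dm y ≤ dm (kr ℂ ![gen y (cl l), gen y (cl k)]) := by exact_mod_cast e1
    rw [Fintype.card_fin]
    omega
  have hne : ∀ (q : Ideal (MvPolynomial (Fin (3 + 3)) ℂ)) [q.IsPrime], (∀ i, gen q i ≠ 0) →
      (∀ i : Fin 3, gen q (cl i) + gen q (cr i) = 1) →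
      ∀ i, wf (gen q (cl l)) (gen q (cl k)) i ≠ 0 := by
    intro q _ hq hLq i
    have hc : ∀ i : Fin 3, 1 - gen q (cl i) = gen q (cr i) := fun i =>
      (eq_sub_of_add_eq' (hLq i)).symm
    fin_cases i
    · exact hq _
    · change 1 - gen q (cl l) ≠ 0
      rw [hc]
      exact hq _
    · exact hq _
    · change 1 - gen q (cl k) ≠ 0
      rw [hc]
      exact hq _
  have hle := kr_tm_le (cf j s s') (ef l k a b a' b') (hne y hwy hLy) (hne r hwr hLr)
    (kr_wf_le hbot _ _)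
  rw [ey, er, kr_gen, kr_gen] at hle
  exact hle

end Pool.Agent.Tri3
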