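import Pool.Agent.Tri3.SurfB
import Pool.Agent.LThreeC.Three

set_option autoImplicit false

/-! Package W13: subvarieties of `L^3`: coordinates, dimension. -/

namespace Pool.Agent.Tri3

open MvPolynomial Module Pool.Agent.CITLines

variable {r : Ideal (MvPolynomial (Fin (3 + 3)) ℂ)}

theorem gen_cr [r.IsPrime] (hL : LI 3 ≤ r) (i : Fin 3) : gen r (cr i) = 1 - gen r (cl i) := by
  have h1 : LI 3 ≤ kr ℂ (gen r) := by rwa [kr_gen]
  have h2 := (LI_le_kr (gen r)).mp h1 i
  exact eq_sub_of_add_eq' h2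

/-- The coordinates `1 - x_i` are algebraic over the `x_i`. -/
theorem dm_eq_rk_cl [r.IsPrime] (hL : LI 3 ≤ r) :
    (dm r : ℕ∞) = rk ℂ (Set.range fun i : Fin 3 => gen r (cl i)) := by
  rw [dm_eq_rk]
  refine le_antisymm (rk_le_of_algebraic ?_) (rk_mono ?_)
  · rintro _ ⟨i, rfl⟩
    have hcl : ∀ j : Fin 3, gen r (cl j) ∈
        Algebra.adjoin ℂ (Set.range fun i : Fin 3 => gen r (cl i)) := fun j =>
      Algebra.subset_adjoin ⟨j, rfl⟩
    have hmem : gen r i ∈ Algebra.adjoin ℂ (Set.range fun i : Fin 3 => gen r (cl i)) := by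
      induction i using Fin.addCases with
      | left j => exact hcl j
      | right j =>
        have h1 := gen_cr hL j
        change gen r (cr j) ∈ _
        rw [h1]
        exact sub_mem (one_mem _) (hcl j)
    exact isAlgebraic_algebraMap
      (⟨_, hmem⟩ : Algebra.adjoin ℂ (Set.range fun i : Fin 3 => gen r (cl i)))
  · rintro _ ⟨i, rfl⟩
    exact ⟨cl i, rfl⟩

private theorem encard_range_three {α : Type} (f : Fin 3 → α) : (Set.range f).encard ≤ 3 := by
  rw [← Set.image_univ]
  refine (Set.encard_image_le f _).trans ?_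
  rw [Set.encard_univ]
  simp

private theorem indep_of_rk_three {K : Type} [Field K] [Algebra ℂ K] {x : Fin 3 → K}
    (h : 3 ≤ rk ℂ (Set.range x)) : AlgebraicIndependent ℂ x := by
  obtain ⟨I, hI, hind, hcard⟩ := Matroid.le_eRk_iff.1 h
  have h1 := encard_range_three x
  have hfin : (Set.range x).Finite := Set.finite_range x
  have h2 : I = Set.range x := (hfin.subset hI).eq_of_subset_of_encard_le hI (h1.trans hcard.ge)
  have hinj : Function.Injective x := by
    have h3 : (Set.range x).encard = (Set.univ : Set (Fin 3)).encard := by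
      rw [← h2, hcard, Set.encard_univ]
      simp
    rw [← Set.image_univ] at h3
    have h4 := (Set.finite_univ (α := Fin 3)).injOn_of_encard_image_eq h3
    exact Set.injOn_univ.1 h4
  have h5 : AlgebraicIndependent ℂ ((↑) : Set.range x → K) := by
    rw [← h2]
    exact hind
  exact (algebraicIndependent_subtype_range hinj).1 h5

theorem dm_le_three (hr : TP r) (hL : LI 3 ≤ r) : dm r ≤ 3 := by
  have := hr.prime
  have h1 := dm_eq_rk_cl hL
  have h2 : rk ℂ (Set.range fun i : Fin 3 => gen r (cl i)) ≤ 3 := by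
    refine (rk_le_encard _).trans (encard_range_three _)
  rw [← h1] at h2
  exact_mod_cast h2

/-- Atypical subvarieties of `L^3` have dimension at most two.
PROOF: if `dm r = 3` the `x_i` are algebraically independent over `ℂ`, hence over `ℚ`, and
`LThreeC.three` shows that there is no relation: `rhoP r = 0` (a nonzero relation
`exists_rel`, a root of unity to a power gives an exact relation with nonzero exponents; transport
along `Fin.addCases` to `Fin 3 ⊕ Fin 3`). -/
theorem dm_le_two (hr : TP r) (hL : LI 3 ≤ r) (h : 3 < dm r + rhoP r) : dm r ≤ 2 := by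
  have := hr.prime
  by_contra hcon
  have h3 : dm r = 3 := le_antisymm (dm_le_three hr hL) (by omega)
  have hQ : QP r ≠ ⊥ := by
    intro h0
    have h1 : rhoP r = 0 := by
      unfold rhoP
      rw [h0, finrank_bot]
    omega
  obtain ⟨a, ζ, ha, ⟨m, hm, hζ⟩, hb⟩ := exists_rel hr hQ
  rw [hr.binom_mem] at hb
  have hind : AlgebraicIndependent ℂ (fun i : Fin 3 => gen r (cl i)) := by
    apply indep_of_rk_three
    rw [← dm_eq_rk_cl hL, h3]
    rfl
  have hch : CharZero (Kf r) := charZero_of_injective_algebraMap (algebraMap ℂ (Kf r)).injective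
  have hindQ : AlgebraicIndependent ℚ (fun i : Fin 3 => gen r (cl i)) :=
    hind.restrictScalars (algebraMap ℚ ℂ).injective
  have h1 := Pool.Agent.LThreeC.three (fun i : Fin 3 => gen r (cl i))
    (fun i => hr.gen_ne_zero _) (fun i h0 => by
      have h4 := gen_cr hL i
      rw [h0, sub_self] at h4
      exact hr.gen_ne_zero _ h4) hindQ
    (Sum.elim (fun i => (m : ℤ) * a (cl i)) fun i => (m : ℤ) * a (cr i)) (by
      have h5 : mon (gen r) ((m : ℤ) • a) = 1 := by
        rw [mon_smul, hb, zpow_natCast, ← map_pow, hζ, map_one]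
      rw [← h5]
      unfold Pool.Agent.LThree.mono mon
      rw [Fintype.prod_sum_type, Fin.prod_univ_add]
      congr 1
      refine Finset.prod_congr rfl fun i _ => ?_
      have h6 := gen_cr hL i
      simp only [Pool.Agent.LThree.co, Sum.elim_inr, Pi.smul_apply, smul_eq_mul]
      rw [← h6])
  apply ha
  have hm0 : (m : ℤ) ≠ 0 := by exact_mod_cast hm.ne'
  funext i
  induction i using Fin.addCases with
  | left j =>
    have h7 := congrFun h1 (Sum.inl j)
    exact (mul_eq_zero.1 h7).resolve_left hm0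
  | right j =>
    have h7 := congrFun h1 (Sum.inr j)
    exact (mul_eq_zero.1 h7).resolve_left hm0

/-- A coordinate algebraic over `ℂ` is a constant (`IsAlgClosed.algebraMap_surjective...`, e.g.
`IsAlgClosed.algebraMap_bijective_of_isIntegral` / `exists_root` of the minimal polynomial). -/
theorem exists_const {K : Type} [Field K] [Algebra ℂ K] {x : K} (h : IsAlgebraic ℂ x) :
    ∃ z : ℂ, x = algebraMap ℂ K z := by
  have h1 : IsIntegral ℂ x := h.isIntegral
  have h2 := minpoly.irreducible h1
  obtain ⟨z, hz⟩ := minpoly.mem_range_of_degree_eq_one ℂ x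
    (IsAlgClosed.degree_eq_one_of_irreducible ℂ h2)
  exact ⟨z, hz.symm⟩

/-- Constant coordinates. -/
theorem sub_C_mem_iff [r.IsPrime] (i : Fin (3 + 3)) (z : ℂ) :
    (X i - C z : MvPolynomial (Fin (3 + 3)) ℂ) ∈ r ↔ gen r i = algebraMap ℂ (Kf r) z := by
  have h1 : (X i - C z : MvPolynomial (Fin (3 + 3)) ℂ) ∈ kr ℂ (gen r) ↔
      gen r i = algebraMap ℂ (Kf r) z := by
    rw [mem_kr, map_sub, aeval_X, aeval_C, sub_eq_zero]
  rwa [kr_gen] at h1

/-- In dimension zero all coordinates are constants. -/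
theorem exists_point [r.IsPrime] (hd : dm r = 0) (i : Fin (3 + 3)) :
    ∃ z : ℂ, (X i - C z : MvPolynomial (Fin (3 + 3)) ℂ) ∈ r := by
  have h1 : rk ℂ (Set.range (gen r)) = 0 := by
    rw [← dm_eq_rk, hd]
    rfl
  have h2 : IsAlgebraic ℂ (gen r i) := by
    by_contra htr
    have h3 : AlgebraicIndependent ℂ (fun _ : Unit => gen r i) :=
      algebraicIndependent_unique_type_iff.2 htr
    have h4 := rk_range_of_indep _ h3
    have h5 : rk ℂ (Set.range fun _ : Unit => gen r i) ≤ rk ℂ (Set.range (gen r)) := by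
      refine rk_mono ?_
      rintro _ ⟨_, rfl⟩
      exact ⟨i, rfl⟩
    rw [h4, h1] at h5
    simp at h5
  obtain ⟨z, hz⟩ := exists_const h2
  exact ⟨z, (sub_C_mem_iff i z).2 hz⟩

/-- If all `x_i` are constants the dimension is zero. -/
theorem dm_eq_zero_of_const (hr : TP r) (hL : LI 3 ≤ r)
    (h : ∀ i : Fin 3, ∃ z : ℂ, (X (cl i) - C z : MvPolynomial (Fin (3 + 3)) ℂ) ∈ r) :
    dm r = 0 := by
  have := hr.prime
  have h1 := dm_eq_rk_cl hL
  have h2 : rk ℂ (Set.range fun i : Fin 3 => gen r (cl i)) ≤ rk ℂ (∅ : Set (Kf r)) := by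
    refine rk_le_of_algebraic ?_
    rintro _ ⟨i, rfl⟩
    obtain ⟨z, hz⟩ := h i
    have h3 := (sub_C_mem_iff (cl i) z).1 hz
    simp only [h3]
    exact isAlgebraic_algebraMap (⟨_, algebraMap_mem _ z⟩ :
      Algebra.adjoin ℂ (∅ : Set (Kf r)))
  have h3 : rk ℂ (∅ : Set (Kf r)) = 0 := by
    unfold rk
    rw [Matroid.eRk_empty]
  rw [h3, ← h1] at h2
  have h4 : dm r ≤ 0 := by exact_mod_cast h2
  exact Nat.le_zero.1 h4

end Pool.Agent.Tri3
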