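import Pool.Agent.Tri3.Defs

set_option autoImplicit false

/-! Package W14: the relations of a surface of `L^3` with two relations. -/

namespace Pool.Agent.Tri3

open MvPolynomial Module Pool.Agent.CITLines

variable {y : Ideal (MvPolynomial (Fin (3 + 3)) ℂ)} {l k j : Fin 3} {s s' : ℂ}
    {a b a' b' : ℤ}

private theorem cl_inj {i i' : Fin 3} : cl i = cl i' ↔ i = i' := Fin.castAdd_inj

private theorem cr_inj {i i' : Fin 3} : cr i = cr i' ↔ i = i' := Fin.natAdd_inj (m := 3)

private theorem cl_ne_cr (i i' : Fin 3) : cl i ≠ cr i' := by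
  intro h
  have h1 := congrArg Fin.val h
  have h2 := i.2
  simp only [cl, cr, Fin.val_castAdd, Fin.val_natAdd] at h1
  omega

private theorem cst_uv (t : Fin (3 + 3)) (l : Fin 3) (a b : ℤ) (r : Fin (3 + 3)) :
    cst (uv t l a b) r = (if r = t then 1 else 0) - a * (if r = cl l then 1 else 0) -
      b * (if r = cr l then 1 else 0) := by
  simp only [cst, uv, Pi.sub_apply, Pi.smul_apply, Pi.single_apply, smul_eq_mul]
  push_cast
  split_ifs <;> simp

theorem Sf.mem_QP (h : Sf y l k j s s' a b a' b') (hy : TP y) :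
    cst (uv (cl j) l a b) ∈ QP y ∧ cst (uv (cr j) l a' b') ∈ QP y :=
  ⟨(hy.cst_mem_QP _).mpr ⟨s, h.hs, h.hu⟩, (hy.cst_mem_QP _).mpr ⟨s', h.hs', h.hu'⟩⟩

/-- The two vectors are independent (look at the coordinates `cl j`, `cr j`, using `l ≠ j`); as
`rhoP y = 2` they span `QP y`. -/
theorem Sf.exists_comb (h : Sf y l k j s s' a b a' b') (hy : TP y) (hr : rhoP y = 2)
    {v : Fin (3 + 3) → ℚ} (hv : v ∈ QP y) :
    v = v (cl j) • cst (uv (cl j) l a b) + v (cr j) • cst (uv (cr j) l a' b') := by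
  have hjl : j ≠ l := h.hlj.symm
  have e1 : cst (uv (cl j) l a b) (cl j) = 1 := by
    rw [cst_uv, if_pos rfl, if_neg (mt cl_inj.mp hjl), if_neg (cl_ne_cr j l)]
    ring
  have e2 : cst (uv (cl j) l a b) (cr j) = 0 := by
    rw [cst_uv, if_neg (cl_ne_cr j j).symm, if_neg (cl_ne_cr l j).symm, if_neg (mt cr_inj.mp hjl)]
    ring
  have e3 : cst (uv (cr j) l a' b') (cl j) = 0 := by
    rw [cst_uv, if_neg (cl_ne_cr j j), if_neg (mt cl_inj.mp hjl), if_neg (cl_ne_cr j l)]
    ring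
  have e4 : cst (uv (cr j) l a' b') (cr j) = 1 := by
    rw [cst_uv, if_pos rfl, if_neg (cl_ne_cr l j).symm, if_neg (mt cr_inj.mp hjl)]
    ring
  obtain ⟨m1, m2⟩ := h.mem_QP hy
  set u := cst (uv (cl j) l a b) with hu
  set u' := cst (uv (cr j) l a' b') with hu'
  have hli : LinearIndependent ℚ ![u, u'] := by
    rw [LinearIndependent.pair_iff]
    intro x z hxz
    have h1 := congrFun hxz (cl j)
    have h2 := congrFun hxz (cr j)
    simp only [Pi.add_apply, Pi.smul_apply, smul_eq_mul, Pi.zero_apply, e1, e2, e3, e4] at h1 h2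
    exact ⟨by linarith, by linarith⟩
  have hle : Submodule.span ℚ (Set.range ![u, u']) ≤ QP y := by
    rw [Submodule.span_le]
    rintro _ ⟨i, rfl⟩
    fin_cases i
    · exact m1
    · exact m2
  have hfin : finrank ℚ (Submodule.span ℚ (Set.range ![u, u'])) = finrank ℚ (QP y) := by
    rw [finrank_span_eq_card hli]
    exact hr.symm
  have heq := Submodule.eq_of_le_of_finrank_eq hle hfin
  rw [← heq] at hv
  have hr2 : Set.range ![u, u'] = {u, u'} := by
    simp [Matrix.range_cons, Matrix.range_empty, Set.pair_comm]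
  rw [hr2, Submodule.mem_span_pair] at hv
  obtain ⟨x, z, hxz⟩ := hv
  have h1 : v (cl j) = x := by
    rw [← hxz]
    simp only [Pi.add_apply, Pi.smul_apply, smul_eq_mul, e1, e3]
    ring
  have h2 : v (cr j) = z := by
    rw [← hxz]
    simp only [Pi.add_apply, Pi.smul_apply, smul_eq_mul, e2, e4]
    ring
  rw [h1, h2, hxz]

theorem Sf.coords (h : Sf y l k j s s' a b a' b') (hy : TP y) (hr : rhoP y = 2)
    {v : Fin (3 + 3) → ℚ} (hv : v ∈ QP y) :
    v (cl k) = 0 ∧ v (cr k) = 0 ∧ v (cl l) = -(a * v (cl j) + a' * v (cr j)) ∧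
      v (cr l) = -(b * v (cl j) + b' * v (cr j)) := by
  have hc := h.exists_comb hy hr hv
  have hjl : l ≠ j := h.hlj
  have hkl : k ≠ l := h.hlk.symm
  have hkj : k ≠ j := h.hkj
  have g : ∀ r, v r = v (cl j) * cst (uv (cl j) l a b) r + v (cr j) * cst (uv (cr j) l a' b') r := by
    intro r
    have := congrFun hc r
    simpa only [Pi.add_apply, Pi.smul_apply, smul_eq_mul] using this
  refine ⟨?_, ?_, ?_, ?_⟩
  · rw [g, cst_uv, cst_uv, if_neg (mt cl_inj.mp hkj), if_neg (mt cl_inj.mp hkl),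
      if_neg (cl_ne_cr k l), if_neg (cl_ne_cr k j)]
    ring
  · rw [g, cst_uv, cst_uv, if_neg (cl_ne_cr j k).symm, if_neg (cl_ne_cr l k).symm,
      if_neg (mt cr_inj.mp hkl), if_neg (mt cr_inj.mp hkj)]
    ring
  · rw [g (cl l), cst_uv, cst_uv, if_neg (mt cl_inj.mp hjl), if_pos rfl,
      if_neg (cl_ne_cr l l), if_neg (cl_ne_cr l j)]
    ring
  · rw [g (cr l), cst_uv, cst_uv, if_neg (cl_ne_cr j l).symm, if_neg (cl_ne_cr l l).symm,
      if_pos rfl, if_neg (mt cr_inj.mp hjl)]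
    ring

end Pool.Agent.Tri3
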