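import Pool.Agent.Tri3.SitB
import Pool.Agent.Tri3.PairRel
import Pool.Agent.Tri3.SurfB
import Pool.Agent.Tri3.SurfC
import Pool.Agent.Tri3.SurfD

set_option autoImplicit false

/-! Package W19: the coordinate `l` is constant. -/

namespace Pool.Agent.Tri3

open MvPolynomial Module Pool.Agent.CITLines

variable {ι : Type} [Fintype ι] {c : Fin (3 + 3) → ℂ} {φ : Fin (3 + 3) → ι → ℤ}
  {p : Ideal (MvPolynomial ι ℂ)} {m : ℕ} {b0 : ι → Fin m → ℤ}

/-- A product over the six coordinates. -/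
theorem w19_prod_six {M : Type} [CommMonoid M] {l k j : Fin 3} (hlk : l ≠ k) (hlj : l ≠ j)
    (hkj : k ≠ j) (f : Fin (3 + 3) → M) :
    ∏ i, f i = (f (cl l) * f (cl k) * f (cl j)) * (f (cr l) * f (cr k) * f (cr j)) := by
  have huniv : (Finset.univ : Finset (Fin 3)) = {l, k, j} := by
    ext i
    simp only [Finset.mem_univ, Finset.mem_insert, Finset.mem_singleton, true_iff]
    revert hlk hlj hkj
    revert l k j i
    decide
  have h3 : ∀ g : Fin 3 → M, ∏ i, g i = g l * g k * g j := by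
    intro g
    rw [huniv, Finset.prod_insert (by simp [hlk, hlj]), Finset.prod_insert (by simp [hkj]),
      Finset.prod_singleton, mul_assoc]
  rw [Fin.prod_univ_add, h3, h3]

/-- A vector is zero if its six coordinates are. -/
theorem w19_six_eq_zero {l k j : Fin 3} (hlk : l ≠ k) (hlj : l ≠ j) (hkj : k ≠ j)
    {v : Fin (3 + 3) → ℤ} (h1 : v (cl l) = 0) (h2 : v (cl k) = 0) (h3 : v (cl j) = 0)
    (h4 : v (cr l) = 0) (h5 : v (cr k) = 0) (h6 : v (cr j) = 0) : v = 0 := by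
  have hall : ∀ i : Fin 3, i = l ∨ i = k ∨ i = j := by
    intro i
    revert hlk hlj hkj
    clear h1 h2 h3 h4 h5 h6
    revert l k j i
    decide
  funext i
  refine Fin.addCases (fun i => ?_) (fun i => ?_) i
  · rcases hall i with rfl | rfl | rfl
    · exact h1
    · exact h2
    · exact h3
  · rcases hall i with rfl | rfl | rfl
    · exact h4
    · exact h5
    · exact h6

theorem w19_extend_four {κ : Type} [DecidableEq κ] (x1 x2 x3 x4 : κ) (h12 : x1 ≠ x2) (h13 : x1 ≠ x3)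
    (h14 : x1 ≠ x4) (h23 : x2 ≠ x3) (h24 : x2 ≠ x4) (h34 : x3 ≠ x4) (a b : ℤ)
    (he : Function.Injective (![x1, x2, x3, x4] : Fin 4 → κ)) :
    Function.extend (![x1, x2, x3, x4] : Fin 4 → κ) ![-a, -b, 1, 0] 0 =
      (Pi.single x3 1 - a • Pi.single x1 1 - b • Pi.single x2 1 : κ → ℤ) := by
  funext i
  by_cases hi : ∃ t, (![x1, x2, x3, x4] : Fin 4 → κ) t = i
  · obtain ⟨t, rfl⟩ := hi
    rw [he.extend_apply]
    fin_cases t
    · simp [h12, h13]
    · simp [h12.symm, h23]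
    · simp [h13.symm, h23.symm]
    · simp [h14.symm, h24.symm, h34.symm]
  · rw [Function.extend_apply' _ _ _ hi]
    have h1 : i ≠ x1 := fun h => hi ⟨0, h.symm⟩
    have h2 : i ≠ x2 := fun h => hi ⟨1, h.symm⟩
    have h3 : i ≠ x3 := fun h => hi ⟨2, h.symm⟩
    simp [h1, h2, h3]

theorem w19_uv_eq_extend {l j : Fin 3} (hlj : l ≠ j) (a b : ℤ)
    (he : Function.Injective (![cl l, cr l, cl j, cr j] : Fin 4 → Fin (3 + 3))) :
    Function.extend (![cl l, cr l, cl j, cr j] : Fin 4 → Fin (3 + 3)) ![-a, -b, 1, 0] 0 =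
      uv (cl j) l a b := by
  have hcr : ∀ u w : Fin 3, cl u ≠ cr w := by decide
  have hcl : ∀ u w : Fin 3, u ≠ w → cl u ≠ cl w := by decide
  have hcrr : ∀ u w : Fin 3, u ≠ w → cr u ≠ cr w := by decide
  exact w19_extend_four _ _ _ _ (hcr l l) (hcl _ _ hlj) (hcr _ _) (hcr _ _).symm (hcrr _ _ hlj)
    (hcr _ _) a b he

/-- **In the other case the coordinate `l` is constant on `D`.**
PROOF. `P := Im c φ p`, `z := gen P`, `D' := Im c φ D`, `d := gen D'`. Suppose `d (cl l)` is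
transcendental over `ℂ`. `v` from `exists_ker`, `cst v ∈ QP y`, so (`Sf.coords`)
`v (cl k) = v (cr k) = 0` and `(v (cl j), v (cr j)) ≠ 0`; so `rk_pair_le_one` for
`x = z (cl l)`, `y = z (cl j)`. Let `e : Fin 4 → Fin (3+3) := ![cl l, cr l, cl j, cr j]`:
`rs e P ≤ rs e D'`, `dm (rs e P) ≤ 1` and `1 ≤ dm (rs e D')` (`rs_eq_kr`, `dm_kr`), so
`rs e P = rs e D'` (`dm_strictAnti`), and `binom (![-a, -b, 1, 0]) s ∈ rs e D'` (`binom_mem_rs`) gives
`binom (uv (cl j) l a b) s ∈ P` and `y ≤ P` by `Sf.le`: contradiction with `not_le`. -/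
theorem Sit.const_l (h : Sit c φ p) (hp0 : rhoP p = 0)
    (hb : Perp b0 (LinearMap.range (psiQ φ))) (hm : m + 5 = Fintype.card ι)
    {y : Ideal (MvPolynomial (Fin (3 + 3)) ℂ)} {l k j : Fin 3}
    {s s' : ℂ} {a b a' b' : ℤ} (hsf : Sf y l k j s s' a b a' b') (hy : TP y) (hyL : LI 3 ≤ y)
    (hyd : dm y = 2) (hyr : rhoP y = 2) {D : Ideal (MvPolynomial ι ℂ)} (hD : TP D) (hpD : p ≤ D)
    (hyD : y ≤ Im c φ D) (hQ : QP (Im c φ D) = QP y) (hdet : a * b' - a' * b ≠ 0) :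
    ∃ x1 : ℂ, (X (cl l) - C x1 : MvPolynomial (Fin (3 + 3)) ℂ) ∈ Im c φ D := by
  classical
  have hlk := hsf.hlk
  have hlj := hsf.hlj
  have hkj := hsf.hkj
  have hc0 : ∀ s, c s ≠ 0 := fun s => (h.hc s).ne_zero
  have hPD : Im c φ p ≤ Im c φ D := Im_mono h.hp hD hpD
  have hTP : TP (Im c φ p) := TP_Im hc0 h.hp
  have hTD : TP (Im c φ D) := TP_Im hc0 hD
  have hLD : LI 3 ≤ Im c φ D := h.hL.trans hPD
  have i1 := hTP.prime
  have i2 := hTD.prime
  by_cases htr : IsAlgebraic ℂ (gen (Im c φ D) (cl l))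
  · obtain ⟨z, hz⟩ := exists_const htr
    exact ⟨z, (sub_C_mem_iff (cl l) z).mpr hz⟩
  exfalso
  obtain ⟨v, hv0, hvker, hvm⟩ := h.exists_ker hb hm
  have hvQ : cst v ∈ QP y := by
    rw [← hQ]
    refine (hTD.cst_mem_QP v).mpr ⟨mon c v, ?_, hPD hvm⟩
    exact RU_mon_c c h.hc v
  obtain ⟨c1, c2, c3, c4⟩ := hsf.coords hy hyr hvQ
  simp only [cst] at c1 c2 c3 c4
  have d1 : v (cl k) = 0 := by exact_mod_cast c1
  have d2 : v (cr k) = 0 := by exact_mod_cast c2
  have hne : v (cl j) ≠ 0 ∨ v (cr j) ≠ 0 := by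
    by_contra hcon
    push Not at hcon
    obtain ⟨e1, e2⟩ := hcon
    rw [e1, e2] at c3 c4
    apply hv0
    refine w19_six_eq_zero hlk hlj hkj ?_ d1 e1 ?_ d2 e2
    · have : ((v (cl l) : ℤ) : ℚ) = 0 := by rw [c3]; simp
      exact_mod_cast this
    · have : ((v (cr l) : ℤ) : ℚ) = 0 := by rw [c4]; simp
      exact_mod_cast this
  -- the relation
  set z := gen (Im c φ p) with hz
  have hz0 : ∀ i, z i ≠ 0 := fun i => hTP.gen_ne_zero i
  have hrel := (hTP.binom_mem v (mon c v)).mp hvm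
  have hmon : mon z v = z (cl l) ^ v (cl l) * (1 - z (cl l)) ^ v (cr l) *
      (z (cl j) ^ v (cl j) * (1 - z (cl j)) ^ v (cr j)) := by
    have hcr1 := gen_cr h.hL l
    have hcr2 := gen_cr h.hL j
    unfold mon
    rw [w19_prod_six hlk hlj hkj, d1, d2, zpow_zero, zpow_zero, hz, ← hcr1, ← hcr2]
    ring
  have hx1 : 1 - z (cl l) ≠ 0 := by
    rw [hz, ← gen_cr h.hL l]
    exact hz0 _
  have hy1 : 1 - z (cl j) ≠ 0 := by
    rw [hz, ← gen_cr h.hL j]
    exact hz0 _
  have hrk := rk_pair_le_one (hz0 (cl l)) hx1 (hz0 (cl j)) hy1 hne (hmon.symm.trans hrel)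
  -- restriction
  have he : Function.Injective (![cl l, cr l, cl j, cr j] : Fin 4 → Fin (3 + 3)) := by
    revert hlj
    clear hrk hy1 hx1 hmon hrel hz0 hz hne d2 d1 c4 c3 c2 c1 hvQ hvm hvker hv0 htr hdet
    clear hQ hyD hyr hyd hyL hy hsf hlk hkj hLD hPD
    revert l j
    decide
  set e : Fin 4 → Fin (3 + 3) := ![cl l, cr l, cl j, cr j] with hedef
  have hle : rs e (Im c φ p) ≤ rs e (Im c φ D) := rs_mono e hPD
  have hdmP : dm (rs e (Im c φ p)) ≤ 1 := by
    have h1 : (dm (rs e (Im c φ p)) : ℕ∞) ≤ 1 := by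
      rw [rs_eq_kr, dm_kr]
      refine (rk_mono ?_).trans hrk
      rintro _ ⟨t, rfl⟩
      have hcr1 := gen_cr h.hL l
      have hcr2 := gen_cr h.hL j
      rw [← hz] at hcr1 hcr2
      fin_cases t
      · left; rfl
      · right; left
        simpa [hedef] using hcr1
      · right; right; left; rfl
      · right; right; right
        simpa [hedef] using hcr2
    exact_mod_cast h1
  have hdmD : 1 ≤ dm (rs e (Im c φ D)) := by
    have h1 : (1 : ℕ∞) ≤ (dm (rs e (Im c φ D)) : ℕ∞) := by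
      rw [rs_eq_kr, dm_kr]
      have h2 : AlgebraicIndependent ℂ (fun _ : Unit => gen (Im c φ D) (cl l)) :=
        algebraicIndependent_unique_type_iff.mpr htr
      have h3 := rk_range_of_indep _ h2
      have h4 : ((1 : ℕ) : ℕ∞) = rk ℂ (Set.range fun _ : Unit => gen (Im c φ D) (cl l)) := by
        rw [h3]
        simp
      have h5 : (1 : ℕ∞) = rk ℂ (Set.range fun _ : Unit => gen (Im c φ D) (cl l)) := by
        exact_mod_cast h4
      rw [h5]
      refine rk_mono ?_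
      rintro _ ⟨u, rfl⟩
      exact ⟨0, rfl⟩
    exact_mod_cast h1
  have i3 : (rs e (Im c φ p)).IsPrime := (TP_rs e hTP).prime
  have i4 : (rs e (Im c φ D)).IsPrime := (TP_rs e hTD).prime
  have heq : rs e (Im c φ p) = rs e (Im c φ D) := by
    by_contra hne'
    have := dm_strictAnti (lt_of_le_of_ne hle hne')
    omega
  have hub : binom ℂ (uv (cl j) l a b) s ∈ Im c φ D := hyD hsf.hu
  have hext := w19_uv_eq_extend hlj a b he
  have hmem : binom ℂ (![-a, -b, 1, 0] : Fin 4 → ℤ) s ∈ rs e (Im c φ D) := by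
    rw [binom_mem_rs e he hTD, hedef, hext]
    exact hub
  rw [← heq, binom_mem_rs e he hTP, hedef, hext] at hmem
  exact h.not_le hp0 hb hm hy hyd hyr (hsf.le hy hyL hyd hTP h.hL hmem)

end Pool.Agent.Tri3
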