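import Pool.Agent.Tri3.Core5C
import Pool.Agent.Tri3.Core5D

set_option autoImplicit false

/-! Package W20: case five. -/

namespace Pool.Agent.Tri3

open MvPolynomial Module Pool.Agent.CITLines

variable {ι : Type} [Fintype ι] {c : Fin (3 + 3) → ℂ} {φ : Fin (3 + 3) → ι → ℤ}
  {p : Ideal (MvPolynomial ι ℂ)} {m : ℕ} {b0 : ι → Fin m → ℤ}

private theorem cl_ne {i j : Fin 3} (h : i ≠ j) : cl i ≠ cl j := fun h' =>
  h (Fin.castAdd_injective 3 3 h')

private theorem cr_ne {i j : Fin 3} (h : i ≠ j) : cr i ≠ cr j := fun h' =>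
  h (Fin.natAdd_injective 3 3 h')

private theorem cl_ne_cr (i j : Fin 3) : cl i ≠ cr j := by
  intro h
  have := congrArg Fin.val h
  simp only [cl, cr, Fin.val_castAdd, Fin.val_natAdd] at this
  omega

private theorem mon_single {K : Type} [Field K] (w : Fin (3 + 3) → K) (i : Fin (3 + 3)) :
    mon w (Pi.single i 1) = w i := by
  unfold mon
  rw [Finset.prod_eq_single i]
  · rw [Pi.single_eq_same, zpow_one]
  · intro b _ hb
    rw [Pi.single_eq_of_ne hb, zpow_zero]
  · intro h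
    exact absurd (Finset.mem_univ i) h

/-- **Case five.** By `no_sixth` and `const_l`: `d (cl l) = x1`, `d (cl j) = s x1^a (1-x1)^b =: x0`
(`Sf.hu`), both `≠ 0, 1` as `D' = Im c φ D` is a `TP`. If `x0^α (1-x0)^β` is a root of unity, the
vector `α e_(cl j) + β e_(cr j)` is in `QP D' = QP y`, and `Sf.coords` gives
`a α + a' β = 0 = b α + b' β`, so `α = β = 0` by the determinant. -/
theorem Sit.five (h : Sit c φ p) (hp0 : rhoP p = 0)
    (hb : Perp b0 (LinearMap.range (psiQ φ))) (hm : m + 5 = Fintype.card ι)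
    {y : Ideal (MvPolynomial (Fin (3 + 3)) ℂ)} {l k j : Fin 3}
    {s s' : ℂ} {a b a' b' : ℤ} (hsf : Sf y l k j s s' a b a' b') (hy : TP y) (hyL : LI 3 ≤ y)
    (hyd : dm y = 2) (hyr : rhoP y = 2) {D : Ideal (MvPolynomial ι ℂ)} (hD : TP D) (hpD : p ≤ D)
    (hyD : y ≤ Im c φ D) (hQ : QP (Im c φ D) = QP y) :
    ∃ x0 x1 : ℂ, x0 ≠ 0 ∧ x0 ≠ 1 ∧
      (X (cl j) - C x0 : MvPolynomial (Fin (3 + 3)) ℂ) ∈ Im c φ D ∧
      (X (cl l) - C x1 : MvPolynomial (Fin (3 + 3)) ℂ) ∈ Im c φ D ∧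
      ∀ α β : ℤ, RU (x0 ^ α * (1 - x0) ^ β) → α = 0 ∧ β = 0 := by
  have hdet : a * b' - a' * b ≠ 0 := by
    rcases hsf.hdet with h1 | h1
    · exact h1
    · exact (h.no_sixth hp0 hb hm hsf hy hyL hyd hyr hD hpD hyD hQ h1).elim
  obtain ⟨x1, hx1⟩ := h.const_l hp0 hb hm hsf hy hyL hyd hyr hD hpD hyD hQ hdet
  have hD' : TP (Im c φ D) := TP_Im (fun s => (h.hc s).ne_zero) hD
  have := hD'.prime
  have hDL : LI 3 ≤ Im c φ D := hyL.trans hyD
  have hl := (sub_C_mem_iff _ _).1 hx1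
  have hlr : gen (Im c φ D) (cr l) = algebraMap ℂ (Kf (Im c φ D)) (1 - x1) := by
    rw [gen_cr hDL, hl, map_sub, map_one]
  have hj : gen (Im c φ D) (cl j) =
      algebraMap ℂ (Kf (Im c φ D)) (s * (x1 ^ a * (1 - x1) ^ b)) := by
    have h1 := (mon_uv_eq_iff hD'.gen_ne_zero _ _ _ _ _).1 ((hD'.binom_mem _ _).1 (hyD hsf.hu))
    rw [h1, hl, hlr, map_mul, map_mul, map_zpow₀, map_zpow₀]
  set x0 := s * (x1 ^ a * (1 - x1) ^ b) with hx0
  have hjr : gen (Im c φ D) (cr j) = algebraMap ℂ (Kf (Im c φ D)) (1 - x0) := by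
    rw [gen_cr hDL, hj, map_sub, map_one]
  refine ⟨x0, x1, ?_, ?_, (sub_C_mem_iff _ _).2 hj, hx1, ?_⟩
  · intro h0
    rw [h0, map_zero] at hj
    exact hD'.gen_ne_zero _ hj
  · intro h0
    rw [h0, sub_self, map_zero] at hjr
    exact hD'.gen_ne_zero _ hjr
  · intro α β hαβ
    have hv : cst (α • Pi.single (cl j) 1 + β • Pi.single (cr j) 1 : Fin (3 + 3) → ℤ) ∈ QP y := by
      rw [← hQ, hD'.QP_eq]
      refine cst_mem_QS (mem_relZ.2 ?_)
      rw [mon_add' hD'.gen_ne_zero, mon_smul, mon_smul, mon_single, mon_single, hj, hjr,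
        ← map_zpow₀, ← map_zpow₀, ← map_mul]
      obtain ⟨n, hn, h1⟩ := hαβ
      exact ⟨n, hn, by rw [← map_pow, h1, map_one]⟩
    obtain ⟨-, -, h3, h4⟩ := hsf.coords hy hyr hv
    have e1 : cst (α • Pi.single (cl j) 1 + β • Pi.single (cr j) 1 : Fin (3 + 3) → ℤ) (cl l) =
        0 := by
      simp only [cst_apply, Pi.add_apply, Pi.smul_apply, Pi.single_eq_of_ne (cl_ne hsf.hlj),
        Pi.single_eq_of_ne (cl_ne_cr l j), smul_zero, add_zero, Int.cast_zero]
    have e2 : cst (α • Pi.single (cl j) 1 + β • Pi.single (cr j) 1 : Fin (3 + 3) → ℤ) (cr l) =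
        0 := by
      simp only [cst_apply, Pi.add_apply, Pi.smul_apply, Pi.single_eq_of_ne (cr_ne hsf.hlj),
        Pi.single_eq_of_ne (cl_ne_cr j l).symm, smul_zero, add_zero, Int.cast_zero]
    have e3 : cst (α • Pi.single (cl j) 1 + β • Pi.single (cr j) 1 : Fin (3 + 3) → ℤ) (cl j) =
        α := by
      simp only [cst_apply, Pi.add_apply, Pi.smul_apply, Pi.single_eq_same,
        Pi.single_eq_of_ne (cl_ne_cr j j), mul_zero, add_zero, smul_eq_mul, mul_one]
    have e4 : cst (α • Pi.single (cl j) 1 + β • Pi.single (cr j) 1 : Fin (3 + 3) → ℤ) (cr j) =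
        β := by
      simp only [cst_apply, Pi.add_apply, Pi.smul_apply, Pi.single_eq_same,
        Pi.single_eq_of_ne (cl_ne_cr j j).symm, mul_zero, zero_add, smul_eq_mul, mul_one]
    rw [e1, e3, e4] at h3
    rw [e2, e3, e4] at h4
    have h5 : a * α + a' * β = 0 := by
      have : (a * α + a' * β : ℚ) = 0 := by linear_combination h3
      exact_mod_cast this
    have h6 : b * α + b' * β = 0 := by
      have : (b * α + b' * β : ℚ) = 0 := by linear_combination h4
      exact_mod_cast this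
    constructor
    · have h7 : (a * b' - a' * b) * α = 0 := by linear_combination b' * h5 - a' * h6
      exact (mul_eq_zero.1 h7).resolve_left hdet
    · have h7 : (a * b' - a' * b) * β = 0 := by linear_combination a * h6 - b * h5
      exact (mul_eq_zero.1 h7).resolve_left hdet

end Pool.Agent.Tri3
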