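import Pool.Agent.Tri3.ImP
import Pool.Agent.Tri3.SurfC

set_option autoImplicit false

/-! Package W21: finitely many special points on the curve `{p0} × L`. -/

namespace Pool.Agent.Tri3

open MvPolynomial Module Pool.Agent.CITLines

private theorem cl_ne {i i' : Fin 3} (h : i ≠ i') : cl i ≠ cl i' := fun h' =>
  h (Fin.castAdd_injective 3 3 h')

private theorem cr_ne {i i' : Fin 3} (h : i ≠ i') : cr i ≠ cr i' := fun h' =>
  h (Fin.natAdd_injective 3 3 h')

private theorem cl_ne_cr (i i' : Fin 3) : cl i ≠ cr i' := by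
  intro h
  have := congrArg Fin.val h
  simp only [cl, cr, Fin.val_castAdd, Fin.val_natAdd] at this
  omega

private theorem cp_mon_single {ι K : Type} [Fintype ι] [DecidableEq ι] [Field K] (w : ι → K)
    (i : ι) : mon w (Pi.single i 1) = w i := by
  unfold mon
  rw [Finset.prod_eq_single i]
  · simp
  · intro b _ hb
    rw [Pi.single_eq_of_ne hb, zpow_zero]
  · intro h
    exact absurd (Finset.mem_univ i) h

/-- Four coordinates. -/
private def cpx (A B A' B' : Fin (3 + 3)) : Fin 2 ⊕ Fin 2 → Fin (3 + 3) → ℤ :=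
  Sum.elim ![Pi.single A 1, Pi.single B 1] ![Pi.single A' 1, Pi.single B' 1]

private theorem pm_cpx {K : Type} [Field K] (w : Fin (3 + 3) → K) (A B A' B' : Fin (3 + 3))
    (s : Fin 2 ⊕ Fin 2) :
    pm (cpx A B A' B') w s = Sum.elim ![w A, w B] ![w A', w B'] s := by
  unfold pm
  rcases s with s | s <;> fin_cases s <;> simp [cpx, cp_mon_single]

private theorem psiQ_cpx_injective {A B A' B' : Fin (3 + 3)} (h1 : A ≠ B) (h2 : A' ≠ B')
    (h3 : A ≠ A') (h4 : A ≠ B') (h5 : B ≠ A') (h6 : B ≠ B') :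
    Function.Injective (psiQ (cpx A B A' B')) := by
  rw [injective_iff_map_eq_zero]
  intro u hu
  have hval : ∀ t, psiQ (cpx A B A' B') u t = u (Sum.inl 0) * (if t = A then 1 else 0) +
      u (Sum.inl 1) * (if t = B then 1 else 0) + (u (Sum.inr 0) * (if t = A' then 1 else 0) +
      u (Sum.inr 1) * (if t = B' then 1 else 0)) := by
    intro t
    rw [psiQ_apply, Finset.sum_apply, Fintype.sum_sum_type, Fin.sum_univ_two, Fin.sum_univ_two]
    simp [cpx, cst, Pi.single_apply]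
  funext s
  rcases s with s | s <;> fin_cases s
  · have := congrFun hu A
    rw [hval] at this
    simpa [h1, h3, h4] using this
  · have := congrFun hu B
    rw [hval] at this
    simpa [h1.symm, h5, h6] using this
  · have := congrFun hu A'
    rw [hval] at this
    simpa [h2, h3.symm, h5.symm] using this
  · have := congrFun hu B'
    rw [hval] at this
    simpa [h2.symm, h4.symm, h6.symm] using this

/-- The rank condition. `r` has dimension zero, `x_j = x0`, `x_l = x1`, `x_k = z` on `r`, and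
`4 ≤ rhoP r`: the relations supported outside `cl l, cr l` have dimension `≥ 2`.
PROOF. `Q' := QP r ⊓ {v | v (cl l) = 0 ∧ v (cr l) = 0}` has `finrank ≥ 2`
(`Submodule.finrank_sup_add_finrank_inf_eq`, codimension `≤ 2`), restriction to the coordinates
`cl j, cl k, cr j, cr k` is injective on it, `U` = its image in `Fin 2 ⊕ Fin 2 → ℚ`
(`inl 0 ↦ cl j`, `inl 1 ↦ cl k`, `inr 0 ↦ cr j`, `inr 1 ↦ cr k`). For integral `a` with `cst a ∈ U`
the extended vector is in `QP r`, so (`TP.cst_mem_QP`, `TP.binom_mem`) its monomial in the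
coordinates of `r` is a root of unity; it is `algebraMap (mono (co ![x0, z]) a)`. -/
theorem rankLe_of_rhoP {r : Ideal (MvPolynomial (Fin (3 + 3)) ℂ)} (hr : TP r) (hL : LI 3 ≤ r)
    {l k j : Fin 3} (hlk : l ≠ k) (hlj : l ≠ j) (hkj : k ≠ j) {x0 z : ℂ}
    (hj : (X (cl j) - C x0 : MvPolynomial (Fin (3 + 3)) ℂ) ∈ r)
    (hk : (X (cl k) - C z : MvPolynomial (Fin (3 + 3)) ℂ) ∈ r) (hrho : 4 ≤ rhoP r) :
    Pool.Agent.LThree.RankLe 2 (Pool.Agent.LThree.co ![x0, z]) := by
  classical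
  have := hr.prime
  have hjk : cl j ≠ cl k := cl_ne (Ne.symm hkj)
  have hrjk : cr j ≠ cr k := cr_ne (Ne.symm hkj)
  let E : (Fin 2 ⊕ Fin 2 → ℚ) →ₗ[ℚ] (Fin (3 + 3) → ℚ) := psiQ (cpx (cl j) (cl k) (cr j) (cr k))
  have hE : Function.Injective E := psiQ_cpx_injective hjk hrjk (cl_ne_cr j j) (cl_ne_cr j k)
    (cl_ne_cr k j) (cl_ne_cr k k)
  refine ⟨(QP r).comap E, ?_, ?_⟩
  · have h1 : finrank ℚ ((QP r).comap E) = finrank ℚ ↥(LinearMap.range E ⊓ QP r) := by
      rw [← Submodule.map_comap_eq]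
      exact LinearEquiv.finrank_eq (Submodule.equivMapOfInjective E hE _)
    have h2 : finrank ℚ (LinearMap.range E) = 4 := by
      rw [LinearMap.finrank_range_of_inj hE]
      simp
    have h3 := Submodule.finrank_sup_add_finrank_inf_eq (LinearMap.range E) (QP r)
    have h4 : finrank ℚ ↥(LinearMap.range E ⊔ QP r) ≤ 6 := by
      refine (Submodule.finrank_le _).trans ?_
      simp
    have h5 : 4 ≤ finrank ℚ (QP r) := hrho
    have h6 : Fintype.card (Fin 2 ⊕ Fin 2) = 4 := by simp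
    rw [h6, h1]
    omega
  · intro a ha
    have ha' : cst (psiZ (cpx (cl j) (cl k) (cr j) (cr k)) a) ∈ QP r := by
      rw [← psiQ_cst]
      exact ha
    obtain ⟨ζ, ⟨m, hm, hζ⟩, hb⟩ := (hr.cst_mem_QP _).mp ha'
    rw [hr.binom_mem] at hb
    have hgj : gen r (cl j) = algebraMap ℂ (Kf r) x0 := (sub_C_mem_iff _ _).mp hj
    have hgk : gen r (cl k) = algebraMap ℂ (Kf r) z := (sub_C_mem_iff _ _).mp hk
    have hgj' : gen r (cr j) = algebraMap ℂ (Kf r) (1 - x0) := by
      rw [gen_cr hL, hgj, map_sub, map_one]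
    have hgk' : gen r (cr k) = algebraMap ℂ (Kf r) (1 - z) := by
      rw [gen_cr hL, hgk, map_sub, map_one]
    have key : mon (gen r) (psiZ (cpx (cl j) (cl k) (cr j) (cr k)) a) =
        algebraMap ℂ (Kf r) (Pool.Agent.LThree.mono (Pool.Agent.LThree.co ![x0, z]) a) := by
      rw [← mon_pm _ hr.gen_ne_zero]
      unfold mon Pool.Agent.LThree.mono
      rw [map_prod]
      refine Finset.prod_congr rfl fun s _ => ?_
      rw [map_zpow₀]
      congr 1
      rw [pm_cpx, hgj, hgk, hgj', hgk']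
      rcases s with s | s <;> fin_cases s <;> simp [Pool.Agent.LThree.co]
    rw [key] at hb
    have h7 := (algebraMap ℂ (Kf r)).injective hb
    exact ⟨m, hm, by rw [h7, hζ]⟩

variable {ι : Type} [Fintype ι] {c : Fin (3 + 3) → ℂ} {φ : Fin (3 + 3) → ι → ℤ}

/-- PROOF. `Z` := the finite set of `hFix x0`; for `z ∈ Z` let `g z` be the numerator of
`X (cl k) - C z` (`exists_mem_Im`), `I z := D ⊔ Ideal.span {g z}`; the finite set is the union of the
minimal primes of the `I z`. For `q` as in the statement: `x_k` is a constant `z` on `Im c φ q`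
(`exists_point`), `z ≠ 0, 1` (`TP_Im`), `rankLe_of_rhoP` for `r = Im c φ q` (`Im_mono` transports
`hj`), so `z ∈ Z` and `I z ≤ q`; a minimal prime `E ≤ q` of `I z` is different from `D`: otherwise
`X (cl k) - C z ∈ Im c φ D` and `dm (Im c φ D) = 0` by `dm_eq_zero_of_const`. So `D < E`,
`dm E < dm D = m + 1` and `E = q` (`dm_strictAnti`). -/
theorem pts_five (hFix : Fix) (hc : ∀ s, RU (c s)) {D : Ideal (MvPolynomial ι ℂ)} (hD : TP D)
    (hDL : LI 3 ≤ Im c φ D) {l k j : Fin 3} (hlk : l ≠ k) (hlj : l ≠ j) (hkj : k ≠ j)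
    {x0 x1 : ℂ} (h0 : x0 ≠ 0) (h1 : x0 ≠ 1)
    (hj : (X (cl j) - C x0 : MvPolynomial (Fin (3 + 3)) ℂ) ∈ Im c φ D)
    (hl : (X (cl l) - C x1 : MvPolynomial (Fin (3 + 3)) ℂ) ∈ Im c φ D)
    (hind : ∀ α β : ℤ, RU (x0 ^ α * (1 - x0) ^ β) → α = 0 ∧ β = 0)
    (hDd : dm (Im c φ D) = 1) {m : ℕ} (hdD : dm D = m + 1) :
    ∃ Z : Finset (Ideal (MvPolynomial ι ℂ)), ∀ q : Ideal (MvPolynomial ι ℂ), TP q → D ≤ q →
      dm q = m → dm (Im c φ q) = 0 → 4 ≤ rhoP (Im c φ q) → q ∈ Z := by
  classical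
  have hfin := hFix x0 h0 h1 hind
  choose g hg using fun z : ℂ =>
    exists_mem_Im c φ (X (cl k) - C z : MvPolynomial (Fin (3 + 3)) ℂ)
  have hmf : ∀ z : ℂ, ((D ⊔ Ideal.span {g z}).minimalPrimes).Finite := fun z =>
    Ideal.finite_minimalPrimes_of_isNoetherianRing _ _
  refine ⟨hfin.toFinset.biUnion fun z => (hmf z).toFinset, ?_⟩
  intro q hq hDq hqm hq0 hrho
  have hcne : ∀ s, c s ≠ 0 := fun s => (hc s).ne_zero
  have hTI : TP (Im c φ q) := TP_Im hcne hq
  have hTD : TP (Im c φ D) := TP_Im hcne hD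
  have hle := Im_mono (c := c) (φ := φ) hD hq hDq
  have hqL : LI 3 ≤ Im c φ q := hDL.trans hle
  have := hTI.prime
  have := hTD.prime
  have := hq.prime
  have := hD.prime
  obtain ⟨z, hz⟩ := exists_point hq0 (cl k)
  have hgz : gen (Im c φ q) (cl k) = algebraMap ℂ (Kf (Im c φ q)) z := (sub_C_mem_iff _ _).mp hz
  have hz0 : z ≠ 0 := by
    rintro rfl
    rw [map_zero] at hgz
    exact hTI.gen_ne_zero _ hgz
  have hz1 : z ≠ 1 := by
    rintro rfl
    have h2 := gen_cr hqL k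
    rw [hgz, map_one, sub_self] at h2
    exact hTI.gen_ne_zero _ h2
  have hrk := rankLe_of_rhoP hTI hqL hlk hlj hkj (hle hj) hz hrho
  have hzZ : z ∈ {z : ℂ | z ≠ 0 ∧ z ≠ 1 ∧
      Pool.Agent.LThree.RankLe 2 (Pool.Agent.LThree.co ![x0, z])} := ⟨hz0, hz1, hrk⟩
  have hIq : D ⊔ Ideal.span {g z} ≤ q := by
    refine sup_le hDq ?_
    rw [Ideal.span_le, Set.singleton_subset_iff]
    exact (hg z q hq).mpr hz
  obtain ⟨E, hE, hEq⟩ := Ideal.exists_minimalPrimes_le hIq
  have hEp : E.IsPrime := hE.1.1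
  have hIE : D ⊔ Ideal.span {g z} ≤ E := hE.1.2
  have hDE : D ≤ E := le_sup_left.trans hIE
  have hgE : g z ∈ E := hIE (Ideal.mem_sup_right (Ideal.subset_span rfl))
  have hne : D ≠ E := by
    intro h
    rw [← h] at hgE
    have h2 := (hg z D hD).mp hgE
    have h3 := dm_eq_zero_of_const hTD hDL (fun i => by
      have hi : i = l ∨ i = k ∨ i = j := by
        have : ∀ l k j i : Fin 3, l ≠ k → l ≠ j → k ≠ j → (i = l ∨ i = k ∨ i = j) := by decide
        exact this l k j i hlk hlj hkj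
      rcases hi with rfl | rfl | rfl
      · exact ⟨x1, hl⟩
      · exact ⟨z, h2⟩
      · exact ⟨x0, hj⟩)
    omega
  have hlt : D < E := lt_of_le_of_ne hDE hne
  have h4 := dm_strictAnti hlt
  have hEeq : E = q := by
    by_contra hcon
    have h5 := dm_strictAnti (lt_of_le_of_ne hEq hcon)
    omega
  rw [Finset.mem_biUnion]
  refine ⟨z, hfin.mem_toFinset.mpr hzZ, (hmf z).mem_toFinset.mpr ?_⟩
  rw [← hEeq]
  exact hE

end Pool.Agent.Tri3
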