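import Pool.Agent.Tri3.Defs

set_option autoImplicit false

/-! Package W1: integral parametrisation of the orthogonal complement of a subspace. -/

namespace Pool.Agent.Tri3

open Module Pool.Agent.CITLines

/-- PROOF. Let `Q := (ι → ℚ) ⧸ U`, `m := finrank ℚ Q` (so `m + finrank U = card ι`:
`Submodule.finrank_quotient_add_finrank`, `Module.finrank_fintype_fun_eq_card`), `β` a basis of `Q`
indexed by `Fin m` (`Module.finBasis`), `f v j := β.repr (U.mkQ v) j`, linear with kernel `U` and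
surjective. For `r i j : ℚ := f (Pi.single i 1) j` choose a common denominator `N ≠ 0`, `N r i j`
integers `b i j` (e.g. `N := ∏ i, ∏ j, (r i j).den`; or `CITLines.exists_clear` for the index type
`ι × Fin m`). Then `∑ i, v i * b i j = N * f v j` (write `v = ∑ i, v i • Pi.single i 1`). -/
theorem exists_perp {ι : Type} [Fintype ι] (U : Submodule ℚ (ι → ℚ)) :
    ∃ (m : ℕ) (b : ι → Fin m → ℤ), Perp b U := by
  classical
  set β := Module.finBasis ℚ ((ι → ℚ) ⧸ U) with hβ
  set f : (ι → ℚ) →ₗ[ℚ] (Fin (finrank ℚ ((ι → ℚ) ⧸ U)) → ℚ) :=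
    β.equivFun.toLinearMap ∘ₗ U.mkQ with hf
  have hker : ∀ v, v ∈ U ↔ ∀ j, f v j = 0 := by
    intro v
    have h1 : (∀ j, f v j = 0) ↔ f v = 0 := by
      rw [funext_iff]; rfl
    rw [h1, hf, LinearMap.comp_apply, LinearEquiv.coe_coe, LinearEquiv.map_eq_zero_iff,
      Submodule.mkQ_apply, Submodule.Quotient.mk_eq_zero]
  have hsurj : Function.Surjective f := by
    rw [hf, LinearMap.coe_comp]
    exact β.equivFun.surjective.comp U.mkQ_surjective
  obtain ⟨N, hN, hb⟩ : ∃ N : ℕ, N ≠ 0 ∧ ∀ i j, ∃ z : ℤ, (z : ℚ) = N * f (Pi.single i 1) j := by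
    refine ⟨∏ i, ∏ j, (f (Pi.single i 1) j).den, ?_, fun i j => ?_⟩
    · exact Finset.prod_ne_zero_iff.2 fun i _ => Finset.prod_ne_zero_iff.2 fun j _ =>
        (f (Pi.single i 1) j).den_nz
    · have hd : (f (Pi.single i 1) j).den ∣ ∏ i, ∏ j, (f (Pi.single i 1) j).den :=
        (Finset.dvd_prod_of_mem _ (Finset.mem_univ j)).trans
          (Finset.dvd_prod_of_mem (fun i => ∏ j, (f (Pi.single i 1) j).den) (Finset.mem_univ i))
      obtain ⟨c, hc⟩ := hd
      refine ⟨c * (f (Pi.single i 1) j).num, ?_⟩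
      rw [hc]
      push_cast
      have h2 := Rat.mul_den_eq_num (f (Pi.single i 1) j)
      rw [← h2]
      ring
  choose b hb using hb
  have hN' : (N : ℚ) ≠ 0 := by exact_mod_cast hN
  have key : ∀ (v : ι → ℚ) j, ∑ i, v i * (b i j : ℚ) = N * f v j := by
    intro v j
    have h3 : f v = ∑ i, v i • f (Pi.single i 1) := by
      conv_lhs => rw [pi_eq_sum_univ' v]
      rw [map_sum]
      simp only [map_smul]
    rw [h3, Finset.sum_apply, Finset.mul_sum]
    refine Finset.sum_congr rfl fun i _ => ?_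
    rw [hb, Pi.smul_apply, smul_eq_mul]
    ring
  refine ⟨_, b, ?_, ?_, ?_⟩
  · rw [Submodule.finrank_quotient_add_finrank, Module.finrank_fintype_fun_eq_card]
  · intro v
    rw [hker]
    refine forall_congr' fun j => ?_
    rw [key]
    constructor
    · intro h
      rw [h, mul_zero]
    · intro h
      exact (mul_eq_zero.1 h).resolve_left hN'
  · intro u
    obtain ⟨v, hv⟩ := hsurj ((N : ℚ)⁻¹ • u)
    refine ⟨v, fun j => ?_⟩
    rw [key, hv, Pi.smul_apply, smul_eq_mul, mul_inv_cancel_left₀ hN']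

end Pool.Agent.Tri3
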