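import Pool.Agent.Tri3.SurfB
import Pool.Agent.Tri3.SurfC
import Pool.Agent.L3S.FinPos

set_option autoImplicit false

/-! Package W12: surfaces of `L^3` with two relations. -/

namespace Pool.Agent.Tri3

open MvPolynomial Module Pool.Agent.CITLines

private theorem RU_neg_one : RU (-1 : ℂ) := ⟨2, two_pos, by norm_num⟩

/-- The six forms: `y = x` `(1,1,0 | 1,0,1)`; `y = 1 - x` `(1,0,1 | 1,1,0)`; `y = x⁻¹`
`(1,-1,0 | -1,-1,1)`; `y = (1-x)⁻¹` `(1,0,-1 | -1,1,-1)`; `y = x/(x-1)` `(-1,1,-1 | 1,0,-1)`;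
`y = (x-1)/x` `(-1,-1,1 | 1,-1,0)`; here `(s,a,b | s',a',b')` means `y = s x^a (1-x)^b`,
`1 - y = s' x^a' (1-x)^b'`. -/
theorem forms {K : Type} [Field K] [Algebra ℂ K] {x y : K} (hx : x ≠ 0) (hx1 : 1 - x ≠ 0)
    (h : Pool.Agent.LThree.Eqv x y) :
    ∃ (s s' : ℂ) (a b a' b' : ℤ), RU s ∧ RU s' ∧ a * b' - a' * b ≠ 0 ∧
      (∀ (F : Type) [Field F] [Algebra ℂ F] (u : F), u ≠ 0 → 1 - u ≠ 0 →
        algebraMap ℂ F s * (u ^ a * (1 - u) ^ b) + algebraMap ℂ F s' * (u ^ a' * (1 - u) ^ b') = 1) ∧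
      y = algebraMap ℂ K s * (x ^ a * (1 - x) ^ b) ∧
      1 - y = algebraMap ℂ K s' * (x ^ a' * (1 - x) ^ b') := by
  have key : ∀ (s s' : ℂ) (a b a' b' : ℤ), RU s → RU s' → a * b' - a' * b ≠ 0 →
      (∀ (F : Type) [Field F] [Algebra ℂ F] (u : F), u ≠ 0 → 1 - u ≠ 0 →
        algebraMap ℂ F s * (u ^ a * (1 - u) ^ b) + algebraMap ℂ F s' * (u ^ a' * (1 - u) ^ b') = 1) →
      y = algebraMap ℂ K s * (x ^ a * (1 - x) ^ b) →
      ∃ (s s' : ℂ) (a b a' b' : ℤ), RU s ∧ RU s' ∧ a * b' - a' * b ≠ 0 ∧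
      (∀ (F : Type) [Field F] [Algebra ℂ F] (u : F), u ≠ 0 → 1 - u ≠ 0 →
        algebraMap ℂ F s * (u ^ a * (1 - u) ^ b) + algebraMap ℂ F s' * (u ^ a' * (1 - u) ^ b') = 1) ∧
      y = algebraMap ℂ K s * (x ^ a * (1 - x) ^ b) ∧
      1 - y = algebraMap ℂ K s' * (x ^ a' * (1 - x) ^ b') := by
    intro s s' a b a' b' h1 h2 h3 h4 h5
    refine ⟨s, s', a, b, a', b', h1, h2, h3, h4, h5, ?_⟩
    have h6 := h4 K x hx hx1
    rw [h5]
    exact (eq_sub_of_add_eq' h6).symm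
  have hx2 : x - 1 ≠ 0 := by
    intro h0
    exact hx1 (by rw [← neg_sub, h0, neg_zero])
  rcases h with h | h | h | h | h | h
  · refine key 1 1 1 0 0 1 RU.one RU.one (by norm_num) ?_ ?_
    · intro F _ _ u hu hu1
      simp
    · rw [h]
      simp
  · refine key 1 1 0 1 1 0 RU.one RU.one (by norm_num) ?_ ?_
    · intro F _ _ u hu hu1
      simp
    · rw [h]
      simp
  · refine key 1 (-1) (-1) 0 (-1) 1 RU.one RU_neg_one (by norm_num) ?_ ?_
    · intro F _ _ u hu hu1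
      rw [map_neg, map_one, zpow_neg_one, zpow_zero, zpow_one]
      field_simp
      ring
    · rw [h]
      simp
  · refine key 1 (-1) 0 (-1) 1 (-1) RU.one RU_neg_one (by norm_num) ?_ ?_
    · intro F _ _ u hu hu1
      rw [map_neg, map_one, zpow_neg_one, zpow_zero, zpow_one]
      field_simp
      ring
    · rw [h]
      simp
  · refine key (-1) 1 1 (-1) 0 (-1) RU_neg_one RU.one (by norm_num) ?_ ?_
    · intro F _ _ u hu hu1
      rw [map_neg, map_one, zpow_neg_one, zpow_zero, zpow_one]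
      field_simp
      ring
    · rw [h, map_neg, map_one, zpow_neg_one, zpow_one, ← neg_sub x 1, inv_neg]
      field_simp
  · refine key (-1) 1 (-1) 1 (-1) 0 RU_neg_one RU.one (by norm_num) ?_ ?_
    · intro F _ _ u hu hu1
      rw [map_neg, map_one, zpow_neg_one, zpow_zero, zpow_one]
      field_simp
      ring
    · rw [h, map_neg, map_one, zpow_neg_one, zpow_one, ← neg_sub x 1]
      field_simp

private theorem third : ∀ i j : Fin 3, i ≠ j → ∃ k, i ≠ k ∧ k ≠ j := by decide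

private theorem others : ∀ i : Fin 3, ∃ l k, l ≠ k ∧ l ≠ i ∧ k ≠ i := by decide

theorem exists_sf {y : Ideal (MvPolynomial (Fin (3 + 3)) ℂ)} (hy : TP y) (hyL : LI 3 ≤ y)
    (hd : dm y = 2) (hr : 2 ≤ rhoP y) :
    ∃ (l k j : Fin 3) (s s' : ℂ) (a b a' b' : ℤ), Sf y l k j s s' a b a' b' := by
  obtain ⟨F, fF, aF, x, h0, h1, hx⟩ := L3S.exists_generic y hy hyL
  have hspec : L3S.Spec x := L3S.surface_spec y ⟨hy, hyL, by omega⟩ hd.ge x h0 h1 hx
  have hwl : ∀ i, L3S.wp x (cl i) = x i := fun i => Fin.append_left _ _ i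
  have hwr : ∀ i, L3S.wp x (cr i) = 1 - x i := fun i => Fin.append_right _ _ i
  have h1' : ∀ i, 1 - x i ≠ 0 := fun i => sub_ne_zero.mpr (h1 i).symm
  have hw : ∀ i, L3S.wp x i ≠ 0 := by
    intro i
    refine Fin.addCases (fun j => ?_) (fun j => ?_) i
    · exact (hwl j) ▸ h0 j
    · exact (hwr j) ▸ h1' j
  rcases hspec with ⟨i, j, hij, he⟩ | ⟨i, hi⟩
  · obtain ⟨s, s', a, b, a', b', e1, e2, e3, e4, e5, e6⟩ := forms (h0 i) (h1' i) he
    obtain ⟨k, hk1, hk2⟩ := third i j hij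
    refine ⟨i, k, j, s, s', a, b, a', b', ⟨hk1, hij, hk2, e1, e2, e4, Or.inl e3, ?_, ?_⟩⟩
    · rw [hx, binom_mem_kr hw, mon_uv_eq_iff hw, hwl, hwl, hwr]
      exact e5
    · rw [hx, binom_mem_kr hw, mon_uv_eq_iff hw, hwr, hwl, hwr]
      exact e6
  · obtain ⟨l, k, hlk, hli, hki⟩ := others i
    have h6 : x i ^ 6 = 1 := by
      have h3 : x i ^ 3 = -1 := by
        have : x i ^ 3 + 1 = (x i + 1) * (x i ^ 2 - x i + 1) := by ring
        rw [hi, mul_zero] at this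
        exact eq_neg_of_add_eq_zero_left this
      calc x i ^ 6 = (x i ^ 3) ^ 2 := by ring
        _ = 1 := by rw [h3]; ring
    have hRU : RU (x i) := ⟨6, by norm_num, h6⟩
    obtain ⟨ζ, hζ, hζx⟩ := RU.exists_complex hRU
    have hζ2 : ζ ^ 2 - ζ + 1 = 0 := by
      apply (algebraMap ℂ F).injective
      rw [map_add, map_sub, map_pow, map_one, map_zero, hζx, hi]
    have hζ' : 1 - ζ = ζ⁻¹ := by
      refine eq_inv_of_mul_eq_one_left ?_
      linear_combination -hζ2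
    refine ⟨l, k, i, ζ, 1 - ζ, 0, 0, 0, 0,
      ⟨hlk, hli, hki, hζ, by rw [hζ']; exact hζ.inv, ?_, Or.inr ⟨rfl, rfl, rfl, rfl⟩, ?_, ?_⟩⟩
    · intro K _ _ u _ _
      rw [map_sub, map_one]
      simp
    · rw [hx, binom_mem_kr hw, mon_uv_eq_iff hw, hwl, hζx]
      simp
    · rw [hx, binom_mem_kr hw, mon_uv_eq_iff hw, hwr, map_sub, map_one, hζx]
      simp

end Pool.Agent.Tri3
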