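import Pool.Agent.Tri3.Core4
import Pool.Agent.Tri3.Core5
import Pool.Agent.Tri3.CorePts
import Pool.Agent.Tri3.SurfA
import Pool.Agent.Tri3.Perp

set_option autoImplicit false

/-! Package W22: assembly. -/

namespace Pool.Agent.Tri3

open MvPolynomial Module Pool.Agent.CITLines

variable {ι : Type} [Fintype ι] {c : Fin (3 + 3) → ℂ} {φ : Fin (3 + 3) → ι → ℤ}
  {p : Ideal (MvPolynomial ι ℂ)}

/-- The points above a component `D` that is not atypical. -/
theorem over_comp (hFix : Fix) (h : Sit c φ p) (hp0 : rhoP p = 0) {m : ℕ} {b0 : ι → Fin m → ℤ}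
    (hb : Perp b0 (LinearMap.range (psiQ φ))) {y : Ideal (MvPolynomial (Fin (3 + 3)) ℂ)}
    (hy : TP y) (hyL : LI 3 ≤ y) (hya : 3 < dm y + rhoP y) {D : Ideal (MvPolynomial ι ℂ)}
    (hD : TP D) (hpD : p ≤ D) (hyD : y ≤ Im c φ D)
    (hmin : ∀ D' : Ideal (MvPolynomial ι ℂ), TP D' → p ≤ D' → y ≤ Im c φ D' → D' ≤ D → D' = D)
    (hna : dm D + rhoP D ≤ dm p) :
    ∃ Z : Finset (Ideal (MvPolynomial ι ℂ)), ∀ q : Ideal (MvPolynomial ι ℂ), TP q → D ≤ q →
      Hl b0 q = q → dm p < dm q + rhoP q → q ∈ Z := by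
  classical
  have hc0 : ∀ s, c s ≠ 0 := fun s => (h.hc s).ne_zero
  have hpp := h.hp.prime
  have hDp := hD.prime
  have hyp := hy.prime
  -- the hull of `D` is `D`
  have hHp : Hl b0 p = p := h.Hl_eq_self hb
  have hHD : Hl b0 D = D := by
    refine hmin _ (TP_Hl b0 hD) ?_ ?_ (Hl_le b0 hD)
    · have := Hl_mono b0 h.hp hD hpD
      rwa [hHp] at this
    · rw [Im_Hl b0 c φ hb.ortho hD]
      exact hyD
  have hDT : TP (Im c φ D) := TP_Im hc0 hD
  have hDTp := hDT.prime
  have hd1 : dm D = dm (Im c φ D) + m := by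
    have := dm_Hl h.hc hb hD
    rwa [hHD] at this
  have hd2 : rhoP (Im c φ D) + Fintype.card ι = rhoP D + 6 + m := by
    have := rhoP_Hl h.hc hb hD
    rwa [hHD] at this
  have hdim := h.hdim
  have hsum : dm (Im c φ D) + rhoP (Im c φ D) ≤ 3 := by omega
  have hrho : rhoP y ≤ rhoP (Im c φ D) := rhoP_mono hyD
  have hy2 : dm y ≤ 2 := dm_le_two hy hyL hya
  have hlt : dm (Im c φ D) < dm y := by omega
  have hpL : LI 3 ≤ Im c φ D := h.hL.trans (Im_mono h.hp hD hpD)
  rcases Nat.eq_zero_or_pos (dm (Im c φ D)) with h0 | hpos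
  · -- dimension zero
    refine ⟨∅, fun q hq hDq hHq hat => ?_⟩
    exfalso
    have hqp := hq.prime
    have h1 : dm q = dm (Im c φ q) + m := by
      have := dm_Hl h.hc hb hq
      rwa [hHq] at this
    have h2 : D = q := by
      by_contra hne
      have := dm_strictAnti (lt_of_le_of_ne hDq hne)
      omega
    rw [← h2] at hat
    omega
  · have hD1 : dm (Im c φ D) = 1 := by omega
    have hyd : dm y = 2 := by omega
    have hyr : rhoP y = 2 := by omega
    have hDr : rhoP (Im c φ D) = 2 := by omega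
    have hQ : QP (Im c φ D) = QP y := by
      symm
      refine Submodule.eq_of_le_of_finrank_le (QP_mono hyD) ?_
      change rhoP (Im c φ D) ≤ rhoP y
      omega
    obtain ⟨l, k, j, s, s', a, b, a', b', hsf⟩ := exists_sf hy hyL hyd hyr.ge
    have hk1 : dm p ≤ dm D + 1 := by
      refine krull_one (f := binom ℂ (uv (cl j) l a b) s) (c := c) (φ := φ) h.hp hD hpD
        (hyD hsf.hu) ?_
      intro D' hD' hpD' hf hle
      refine hmin D' hD' hpD' ?_ hle
      exact hsf.le hy hyL hyd (TP_Im hc0 hD') (h.hL.trans (Im_mono h.hp hD' hpD')) hf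
    have hker : LinearMap.ker (psiQ φ) ≤ QP y := by
      rw [← hQ]
      exact ker_le_QP_Im h.hc hD
    have hkf : finrank ℚ (LinearMap.ker (psiQ φ)) ≤ 2 := by
      have := Submodule.finrank_mono hker
      have h2 : finrank ℚ (QP y) = rhoP y := rfl
      omega
    have hrk := finrank_range_add_ker φ
    rw [Fintype.card_fin] at hrk
    have hbc := hb.card
    have hcases : m + 4 = Fintype.card ι ∨ m + 5 = Fintype.card ι := by omega
    rcases hcases with h4 | h5
    · -- case four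
      exfalso
      have hDp' : D = p := by
        by_contra hne
        have := dm_strictAnti (lt_of_le_of_ne hpD (Ne.symm hne))
        omega
      have hQk : QP y ≤ LinearMap.ker (psiQ φ) := by
        refine (Submodule.eq_of_le_of_finrank_le hker ?_).ge
        change rhoP y ≤ _
        omega
      refine no_four h hsf hy ?_ hQk
      rw [← hDp']
      exact hyD
    · -- case five
      obtain ⟨x0, x1, hx0, hx1, hj, hl, hind⟩ :=
        h.five hp0 hb h5 hsf hy hyL hyd hyr hD hpD hyD hQ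
      obtain ⟨Z, hZ⟩ := pts_five hFix h.hc hD hpL hsf.hlk hsf.hlj hsf.hkj hx0 hx1 hj hl hind hD1
        (m := m) (by omega)
      refine ⟨Z, fun q hq hDq hHq hat => ?_⟩
      have hqp := hq.prime
      have h1 : dm q = dm (Im c φ q) + m := by
        have := dm_Hl h.hc hb hq
        rwa [hHq] at this
      have hne : D ≠ q := by
        rintro rfl
        omega
      have h2 := dm_strictAnti (lt_of_le_of_ne hDq hne)
      have h3 := dm_rhoP_le_Im (c := c) (φ := φ) h.hc hq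
      rw [Fintype.card_fin] at h3
      exact hZ q hq hDq (by omega) (by omega) (by omega)

/-- **Finitely many maximal atypical subvarieties.** -/
theorem finA (hL : FinL 3) (hFix : Fix) (h : Sit c φ p) : FinA p := by
  classical
  have hc0 : ∀ s, c s ≠ 0 := fun s => (h.hc s).ne_zero
  by_cases hp0 : rhoP p = 0
  · obtain ⟨Y, hY, hY'⟩ := hL
    obtain ⟨m, b0, hb⟩ := exists_perp (LinearMap.range (psiQ φ))
    have hHp : Hl b0 p = p := h.Hl_eq_self hb
    have hE : ∀ y : Ideal (MvPolynomial (Fin (3 + 3)) ℂ), ∃ E : Finset (Ideal (MvPolynomial ι ℂ)),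
        (∀ D ∈ E, TP D ∧ p ≤ D ∧ y ≤ Im c φ D ∧
          ∀ D' : Ideal (MvPolynomial ι ℂ), TP D' → p ≤ D' → y ≤ Im c φ D' → D' ≤ D → D' = D) ∧
        ∀ q : Ideal (MvPolynomial ι ℂ), TP q → p ≤ q → y ≤ Im c φ q → ∃ D ∈ E, D ≤ q :=
      fun y => exists_comps p y
    choose E hE1 hE2 using hE
    have hZ : ∀ (y : Ideal (MvPolynomial (Fin (3 + 3)) ℂ)) (D : Ideal (MvPolynomial ι ℂ)),
        ∃ Z : Finset (Ideal (MvPolynomial ι ℂ)), y ∈ Y → D ∈ E y → dm D + rhoP D ≤ dm p →
          ∀ q : Ideal (MvPolynomial ι ℂ), TP q → D ≤ q → Hl b0 q = q → dm p < dm q + rhoP q →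
            q ∈ Z := by
      intro y D
      by_cases hyD : y ∈ Y ∧ D ∈ E y ∧ dm D + rhoP D ≤ dm p
      · obtain ⟨h1, h2, h3⟩ := hyD
        obtain ⟨e1, e2, e3⟩ := hY y h1
        obtain ⟨d1, d2, d3, d4⟩ := hE1 y D h2
        obtain ⟨Z, hZ⟩ := over_comp hFix h hp0 hb e1 e2 e3 d1 d2 d3 d4 h3
        exact ⟨Z, fun _ _ _ => hZ⟩
      · exact ⟨∅, fun h1 h2 h3 => absurd ⟨h1, h2, h3⟩ hyD⟩
    choose Z hZ using hZ
    refine ⟨((Y.biUnion E) ∪ (Y.biUnion fun y => (E y).biUnion (Z y))).filter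
      (fun u => TP u ∧ p ≤ u ∧ dm p < dm u + rhoP u), fun u hu => (Finset.mem_filter.mp hu).2, ?_⟩
    intro q0 hq0 hpq0 hat0
    have hq0p := hq0.prime
    set q := Hl b0 q0 with hqdef
    have hq : TP q := TP_Hl b0 hq0
    have hqq0 : q ≤ q0 := Hl_le b0 hq0
    have hpq : p ≤ q := by
      have := Hl_mono b0 h.hp hq0 hpq0
      rwa [hHp] at this
    have hat : dm p < dm q + rhoP q := lt_of_lt_of_le hat0 (dm_rhoP_le_Hl h.hc hb hq0)
    have hImq : Im c φ q = Im c φ q0 := Im_Hl b0 c φ hb.ortho hq0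
    have hqp := hq.prime
    have hHq : Hl b0 q = q := by
      have h1 := dm_Hl h.hc hb hq
      have h2 := dm_Hl h.hc hb hq0
      have h3 := (TP_Hl b0 hq).prime
      by_contra hne
      have h4 := dm_strictAnti (lt_of_le_of_ne (Hl_le b0 hq) hne)
      rw [hImq] at h1
      rw [← hqdef] at h2
      omega
    have hdim := h.hdim
    have h3 := dm_rhoP_le_Im (c := c) (φ := φ) h.hc hq
    rw [Fintype.card_fin] at h3
    obtain ⟨y, hy, hyq⟩ := hY' (Im c φ q) (TP_Im hc0 hq) (h.hL.trans (Im_mono h.hp hq hpq))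
      (by omega)
    obtain ⟨D, hD, hDq⟩ := hE2 y q hq hpq hyq
    obtain ⟨d1, d2, d3, d4⟩ := hE1 y D hD
    by_cases hna : dm D + rhoP D ≤ dm p
    · have hqZ := hZ y D hy hD hna q hq hDq hHq hat
      refine ⟨q, ?_, hqq0⟩
      rw [Finset.mem_filter]
      refine ⟨Finset.mem_union_right _ ?_, hq, hpq, hat⟩
      exact Finset.mem_biUnion.mpr ⟨y, hy, Finset.mem_biUnion.mpr ⟨D, hD, hqZ⟩⟩
    · refine ⟨D, ?_, hDq.trans hqq0⟩
      rw [Finset.mem_filter]
      refine ⟨Finset.mem_union_left _ ?_, d1, d2, by omega⟩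
      exact Finset.mem_biUnion.mpr ⟨y, hy, hD⟩
  · refine ⟨{p}, ?_, fun q _ hpq _ => ⟨p, Finset.mem_singleton_self p, hpq⟩⟩
    intro u hu
    rw [Finset.mem_singleton] at hu
    subst hu
    exact ⟨h.hp, le_rfl, by omega⟩

end Pool.Agent.Tri3
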