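import Pool.Agent.Tri3.Comps
import Pool.Agent.Tri3.SurfB

set_option autoImplicit false

/-! Package W15: a component of codimension three is not contained in a surface whose relations hold
identically. -/

namespace Pool.Agent.Tri3

open MvPolynomial Module Pool.Agent.CITLines

variable {ι : Type} [Fintype ι] {c : Fin (3 + 3) → ℂ} {φ : Fin (3 + 3) → ι → ℤ}
  {p : Ideal (MvPolynomial ι ℂ)}

/-- PROOF. `f i := X (cl i) + X (cr i) - 1`. Claim: `p` is minimal among the `TP` primes `p'` with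
`f l, f k ∈ Im c φ p'`; then `krull_two` gives `card ι ≤ dm p + 2`, contradiction with `h.hdim`.
Claim: let `p' ≤ p` be such a prime, `z := tm c φ (gen p')`, so `z (cl i) + z (cr i) = 1` for
`i = l, k`. The vector `u := uv (cl j) l a b` satisfies `cst u ∈ QP y ≤ ker (psiQ φ)` (`Sf.hu`,
`TP.cst_mem_QP`), so `psiZ φ u = 0` (`psiQ_cst`, `cst_eq_zero`) and `mon z u = algebraMap (mon c u)`
(`mon_tm`, `mon_zero`); the same on `p`, where `binom u s ∈ y ≤ Im c φ p` gives `mon c u = s`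
(`binom_mem_Im`). Same for the second vector. `Sf.redundant` gives `z (cl j) + z (cr j) = 1`, so
`LI 3 ≤ Im c φ p'` (`LI_le_kr`, `Im_eq`; every index is `l`, `k` or `j`) and `p' = p` by `h.hmin`. -/
theorem no_four (h : Sit c φ p) {y : Ideal (MvPolynomial (Fin (3 + 3)) ℂ)} {l k j : Fin 3}
    {s s' : ℂ} {a b a' b' : ℤ} (hsf : Sf y l k j s s' a b a' b') (hy : TP y)
    (hyp : y ≤ Im c φ p) (hQ : QP y ≤ LinearMap.ker (psiQ φ)) : False := by
  have hpp := h.hp.prime
  have hc0 : ∀ s, c s ≠ 0 := fun s => (h.hc s).ne_zero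
  have hmonc : ∀ (u : Fin (3 + 3) → ℤ) (z : ℂ), RU z → binom ℂ u z ∈ y →
      psiZ φ u = 0 ∧ mon c u = z := by
    intro u z hz hu
    have h1 : cst u ∈ QP y := (hy.cst_mem_QP u).2 ⟨z, hz, hu⟩
    have h2 := hQ h1
    rw [LinearMap.mem_ker, psiQ_cst, cst_eq_zero] at h2
    refine ⟨h2, ?_⟩
    have h3 := hyp hu
    rw [binom_mem_Im hc0 h.hp, mon_tm c φ h.hp.gen_ne_zero, h2, mon_zero, mul_one] at h3
    exact (algebraMap ℂ (Kf p)).injective h3
  obtain ⟨hψ, hm⟩ := hmonc _ _ hsf.hs hsf.hu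
  obtain ⟨hψ', hm'⟩ := hmonc _ _ hsf.hs' hsf.hu'
  have hmem : ∀ (i : Fin 3) (q : Ideal (MvPolynomial ι ℂ)) [q.IsPrime],
      ((X (cl i) + X (cr i) - 1 : MvPolynomial (Fin (3 + 3)) ℂ) ∈ Im c φ q ↔
        tm c φ (gen q) (cl i) + tm c φ (gen q) (cr i) = 1) := by
    intro i q hq
    rw [Im_eq, mem_kr, map_sub, map_add, aeval_X, aeval_X, map_one, sub_eq_zero]
  have hpL : ∀ i : Fin 3, tm c φ (gen p) (cl i) + tm c φ (gen p) (cr i) = 1 := by
    have h1 := h.hL
    rw [Im_eq, LI_le_kr] at h1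
    exact h1
  have hcase : ∀ i : Fin 3, i = l ∨ i = k ∨ i = j := by
    have h1 := hsf.hlk
    have h2 := hsf.hlj
    have h3 := hsf.hkj
    intro i
    omega
  have h4 := krull_two h.hp ((hmem l p).2 (hpL l)) ((hmem k p).2 (hpL k)) (by
    intro p' hp' hl hk hle
    have hpp' := hp'.prime
    rw [hmem] at hl hk
    refine h.hmin p' hp' ?_ hle
    rw [Im_eq, LI_le_kr]
    have hj : tm c φ (gen p') (cl j) + tm c φ (gen p') (cr j) = 1 := by
      refine hsf.redundant (tm_ne_zero c φ hc0 hp'.gen_ne_zero) hl ?_ ?_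
      · rw [mon_tm c φ hp'.gen_ne_zero, hψ, mon_zero, mul_one, hm]
      · rw [mon_tm c φ hp'.gen_ne_zero, hψ', mon_zero, mul_one, hm']
    intro i
    rcases hcase i with rfl | rfl | rfl
    · exact hl
    · exact hk
    · exact hj)
  have h5 := h.hdim
  omega

end Pool.Agent.Tri3
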