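import Pool.Agent.Tri3.SitB
import Pool.Agent.Tri3.PairRel
import Pool.Agent.Tri3.SurfB
import Pool.Agent.Tri3.SurfC
import Pool.Agent.Tri3.SurfD

set_option autoImplicit false

/-! Package W18: the sixth root case. -/

namespace Pool.Agent.Tri3

open MvPolynomial Module Pool.Agent.CITLines

variable {ι : Type} [Fintype ι] {c : Fin (3 + 3) → ℂ} {φ : Fin (3 + 3) → ι → ℤ}
  {p : Ideal (MvPolynomial ι ℂ)} {m : ℕ} {b0 : ι → Fin m → ℤ}

/-- **The sixth root case is impossible.**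
PROOF. `v` from `exists_ker`; `cst v ∈ QP (Im c φ p) ≤ QP (Im c φ D) = QP y`, so by `Sf.coords`
`v` is supported on `cl j, cr j`, `(v (cl j), v (cr j)) ≠ 0`. On `P := Im c φ p`, `z := gen P`:
`z (cr j) = 1 - z (cl j)` and `mon z v = mon c v`, so `z (cl j)` is a constant `z0`
(`const_of_mono`), `X (cl j) - C z0 ∈ P ≤ Im c φ D`, and `binom (uv (cl j) l 0 0) s ∈ y ≤ Im c φ D`
gives `z0 = s`, so `binom (uv (cl j) l 0 0) s ∈ P` and `y ≤ P` by `Sf.le`: contradiction with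
`not_le`. -/
theorem Sit.no_sixth (h : Sit c φ p) (hp0 : rhoP p = 0)
    (hb : Perp b0 (LinearMap.range (psiQ φ))) (hm : m + 5 = Fintype.card ι)
    {y : Ideal (MvPolynomial (Fin (3 + 3)) ℂ)} {l k j : Fin 3}
    {s s' : ℂ} {a b a' b' : ℤ} (hsf : Sf y l k j s s' a b a' b') (hy : TP y) (hyL : LI 3 ≤ y)
    (hyd : dm y = 2) (hyr : rhoP y = 2) {D : Ideal (MvPolynomial ι ℂ)} (hD : TP D) (hpD : p ≤ D)
    (hyD : y ≤ Im c φ D) (hQ : QP (Im c φ D) = QP y)
    (h0 : a = 0 ∧ b = 0 ∧ a' = 0 ∧ b' = 0) : False := by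
  obtain ⟨rfl, rfl, rfl, rfl⟩ := h0
  obtain ⟨v, hv0, hvk, hvP⟩ := h.exists_ker hb hm
  have hc0 : ∀ s, c s ≠ 0 := fun s => (h.hc s).ne_zero
  have hP : TP (Im c φ p) := TP_Im hc0 h.hp
  have hQD : TP (Im c φ D) := TP_Im hc0 hD
  have hPQ : Im c φ p ≤ Im c φ D := Im_mono h.hp hD hpD
  have := hP.prime
  have := hQD.prime
  have hvQ : cst v ∈ QP y := by
    rw [← hQ]
    refine QP_mono hPQ (ker_le_QP_Im h.hc h.hp ?_)
    rw [LinearMap.mem_ker, psiQ_cst, hvk]
    exact cst_eq_zero.2 rfl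
  obtain ⟨hk1, hk2, hl1, hl2⟩ := hsf.coords hy hyr hvQ
  simp only [cst_apply, Int.cast_zero, zero_mul, add_zero, neg_zero,
    Int.cast_eq_zero] at hk1 hk2 hl1 hl2
  have hcov : ∀ i : Fin 3, i ≠ j → v (cl i) = 0 ∧ v (cr i) = 0 := by
    intro i hij
    have h1 : i = l ∨ i = k := by
      have h2 := hsf.hlk
      have h3 := hsf.hlj
      have h4 := hsf.hkj
      lia
    rcases h1 with rfl | rfl
    · exact ⟨hl1, hl2⟩
    · exact ⟨hk1, hk2⟩
  have hvj : v (cl j) ≠ 0 ∨ v (cr j) ≠ 0 := by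
    by_contra hcon
    push Not at hcon
    apply hv0
    funext i
    refine Fin.addCases (fun i => ?_) (fun i => ?_) i
    · by_cases hij : i = j
      · rw [hij]
        exact hcon.1
      · exact (hcov i hij).1
    · by_cases hij : i = j
      · rw [hij]
        exact hcon.2
      · exact (hcov i hij).2
  have hmon : ∀ w : Fin (3 + 3) → Kf (Im c φ p),
      mon w v = w (cl j) ^ v (cl j) * w (cr j) ^ v (cr j) := by
    intro w
    unfold mon
    rw [Fin.prod_univ_add, Finset.prod_eq_single j, Finset.prod_eq_single j]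
    · intro i _ hij
      rw [(hcov i hij).2, zpow_zero]
    · intro hh
      exact absurd (Finset.mem_univ j) hh
    · intro i _ hij
      rw [(hcov i hij).1, zpow_zero]
    · intro hh
      exact absurd (Finset.mem_univ j) hh
  have h1 := (hP.binom_mem _ _).1 hvP
  have hcr := gen_cr h.hL j
  have hx1 : 1 - gen (Im c φ p) (cl j) ≠ 0 := by
    rw [← hcr]
    exact hP.gen_ne_zero _
  rw [hmon, hcr] at h1
  obtain ⟨z0, hz0⟩ := const_of_mono (hP.gen_ne_zero (cl j)) hx1 hvj h1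
  have h2 : (X (cl j) - C z0 : MvPolynomial (Fin (3 + 3)) ℂ) ∈ Im c φ D :=
    hPQ ((sub_C_mem_iff (cl j) z0).2 hz0)
  rw [sub_C_mem_iff] at h2
  have h3 := (hQD.binom_mem _ _).1 (hyD hsf.hu)
  rw [mon_uv_eq_iff hQD.gen_ne_zero, zpow_zero, zpow_zero, mul_one, mul_one, h2] at h3
  have h4 : z0 = s := (algebraMap ℂ (Kf (Im c φ D))).injective h3
  refine h.not_le hp0 hb hm hy hyd hyr (hsf.le hy hyL hyd hP h.hL ?_)
  rw [hP.binom_mem, mon_uv_eq_iff hP.gen_ne_zero, zpow_zero, zpow_zero, mul_one, mul_one, hz0, h4]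

end Pool.Agent.Tri3
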