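import Pool.Agent.CITLines.Ind
import Pool.Agent.LThree.Defs

set_option autoImplicit false

/-!
Definitions for the varieties given by three trinomial equations with roots of unity as
coefficients (MP_b7926e_nt, stage 3).
-/

namespace Pool.Agent.Tri3

open MvPolynomial Module Pool.Agent.CITLines

section Maps

variable {ι S : Type} [Fintype ι] [Fintype S] (c : S → ℂ) (φ : S → ι → ℤ)

/-- The image of a point under the monomial map with exponents `φ` and coefficients `c`. -/
noncomputable def tm {K : Type} [Field K] [Algebra ℂ K] (w : ι → K) (s : S) : K :=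
  algebraMap ℂ K (c s) * mon w (φ s)

/-- The closure of the image of the variety of a prime. -/
noncomputable def Im (q : Ideal (MvPolynomial ι ℂ)) : Ideal (MvPolynomial S ℂ) := by
  classical exact if h : q.IsPrime then (haveI := h; kr ℂ (tm c φ (gen q))) else ⊤

omit [Fintype S] in
theorem Im_eq (q : Ideal (MvPolynomial ι ℂ)) [h : q.IsPrime] :
    Im c φ q = kr ℂ (tm c φ (gen q)) := by
  unfold Im
  rw [dif_pos h]

end Maps

section Hull

variable {ι : Type} [Fintype ι] {m : ℕ} (b : ι → Fin m → ℤ)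

/-- The field of rational functions in `m` variables. -/
abbrev Rt (m : ℕ) (K : Type) [Field K] : Type := FractionRing (MvPolynomial (Fin m) K)

/-- The variables. -/
noncomputable def tt (m : ℕ) (K : Type) [Field K] (j : Fin m) : Rt m K :=
  algebraMap (MvPolynomial (Fin m) K) (Rt m K) (X j)

/-- The point `w`, translated by the generic point of the subgroup parametrised by `b`. -/
noncomputable def hw {K : Type} [Field K] (w : ι → K) (i : ι) : Rt m K :=
  algebraMap K (Rt m K) (w i) * mon (tt m K) (b i)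

/-- The hull: the closure of the union of the translates by the subgroup parametrised by `b`. -/
noncomputable def Hl (q : Ideal (MvPolynomial ι ℂ)) : Ideal (MvPolynomial ι ℂ) := by
  classical exact if h : q.IsPrime then (haveI := h; kr ℂ (hw b (gen q))) else ⊤

omit [Fintype ι] in
theorem Hl_eq (q : Ideal (MvPolynomial ι ℂ)) [h : q.IsPrime] :
    Hl b q = kr ℂ (hw b (gen q)) := by
  unfold Hl
  rw [dif_pos h]

/-- `b` parametrises the kernel of the monomial map: the exponents orthogonal to the columns of `b`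
are those in `U`, and the columns are independent. -/
structure Perp (U : Submodule ℚ (ι → ℚ)) : Prop where
  card : m + finrank ℚ U = Fintype.card ι
  mem : ∀ v : ι → ℚ, v ∈ U ↔ ∀ j, ∑ i, v i * (b i j : ℚ) = 0
  surj : ∀ u : Fin m → ℚ, ∃ v : ι → ℚ, ∀ j, ∑ i, v i * (b i j : ℚ) = u j

end Hull

section Surfaces

/-- The coordinate `x_i` of `L^3`. -/
abbrev cl (i : Fin 3) : Fin (3 + 3) := Fin.castAdd 3 i

/-- The coordinate `1 - x_i` of `L^3`. -/
abbrev cr (i : Fin 3) : Fin (3 + 3) := Fin.natAdd 3 i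

/-- The exponent vector of `z_s = σ x_l ^ a (1 - x_l) ^ b`. -/
def uv (s : Fin (3 + 3)) (l : Fin 3) (a b : ℤ) : Fin (3 + 3) → ℤ :=
  Pi.single s 1 - a • Pi.single (cl l) 1 - b • Pi.single (cr l) 1

/-- A surface of `L^3` on which the coordinates of index `j` are monomials in the coordinates of
index `l`. -/
structure Sf (y : Ideal (MvPolynomial (Fin (3 + 3)) ℂ)) (l k j : Fin 3) (s s' : ℂ)
    (a b a' b' : ℤ) : Prop where
  hlk : l ≠ k
  hlj : l ≠ j
  hkj : k ≠ j
  hs : RU s
  hs' : RU s'
  hid : ∀ (K : Type) [Field K] [Algebra ℂ K] (x : K), x ≠ 0 → 1 - x ≠ 0 →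
    algebraMap ℂ K s * (x ^ a * (1 - x) ^ b) + algebraMap ℂ K s' * (x ^ a' * (1 - x) ^ b') = 1
  hdet : a * b' - a' * b ≠ 0 ∨ (a = 0 ∧ b = 0 ∧ a' = 0 ∧ b' = 0)
  hu : binom ℂ (uv (cl j) l a b) s ∈ y
  hu' : binom ℂ (uv (cr j) l a' b') s' ∈ y

/-- For fixed `x0` with `x0, 1 - x0` multiplicatively independent there are finitely many `z` such
that `x0, 1 - x0, z, 1 - z` satisfy two independent relations. -/
def Fix : Prop :=
  ∀ x0 : ℂ, x0 ≠ 0 → x0 ≠ 1 → (∀ a b : ℤ, RU (x0 ^ a * (1 - x0) ^ b) → a = 0 ∧ b = 0) →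
    {z : ℂ | z ≠ 0 ∧ z ≠ 1 ∧ Pool.Agent.LThree.RankLe 2 (Pool.Agent.LThree.co ![x0, z])}.Finite

/-- A component of codimension three of the subvariety of the torus given by three trinomial
equations with coefficients roots of unity. -/
structure Sit {ι : Type} [Fintype ι] (c : Fin (3 + 3) → ℂ) (φ : Fin (3 + 3) → ι → ℤ)
    (p : Ideal (MvPolynomial ι ℂ)) : Prop where
  hc : ∀ s, RU (c s)
  hp : TP p
  hL : LI 3 ≤ Im c φ p
  hmin : ∀ p' : Ideal (MvPolynomial ι ℂ), TP p' → LI 3 ≤ Im c φ p' → p' ≤ p → p' = p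
  hdim : dm p + 3 = Fintype.card ι

end Surfaces

end Pool.Agent.Tri3
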