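import Pool.Agent.Tri3.Hull

set_option autoImplicit false

/-! Package W8: lower bound for the dimension of the hull. -/

namespace Pool.Agent.Tri3

open MvPolynomial Module Pool.Agent.CITLines

variable {ι S : Type} [Fintype ι] [Fintype S] {m : ℕ} {b : ι → Fin m → ℤ}

private theorem indep_tt (m : ℕ) (K : Type) [Field K] : AlgebraicIndependent K (tt m K) := by
  have h := (MvPolynomial.algebraicIndependent_X (Fin m) K).map'
    (f := IsScalarTower.toAlgHom K (MvPolynomial (Fin m) K) (Rt m K))
    (IsFractionRing.injective (MvPolynomial (Fin m) K) (Rt m K))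
  exact h

private theorem isAlgebraic_of_zpow {A L : Type} [Field L] [CommRing A] [IsDomain A] [Algebra A L]
    {x : L} {k : ℤ} (hk : k ≠ 0) (h : IsAlgebraic A (x ^ k)) : IsAlgebraic A x := by
  rcases Int.lt_or_lt_of_ne hk with h1 | h1
  · have h2 : IsAlgebraic A (x ^ (-k).toNat) := by
      have h3 : x ^ (-k).toNat = (x ^ k)⁻¹ := by
        rw [← zpow_natCast, Int.toNat_of_nonneg (by omega), zpow_neg]
      rw [h3]
      exact h.inv
    exact h2.of_pow (by omega)
  · have h2 : IsAlgebraic A (x ^ k.toNat) := by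
      rwa [← zpow_natCast, Int.toNat_of_nonneg h1.le]
    exact h2.of_pow (by omega)

/-- Over the field of `w` the coordinates of `hw b w` have transcendence degree (at least) `m`.
PROOF: every `tt m K j` is algebraic over `adjoin K (range (hw b w))`: by `hb.surj` there is
`v : ι → ℚ` with `∑ i, v i * b i j' = δ_{j j'}`; clearing denominators (`exists_clear`) `a = N v`
integral, `mon (hw b w) a = (mon w a) * tt j ^ N` (`mon_hw`), and `mon (hw b w) a` is algebraic over the
coordinates (`isAlgebraic_mon`), so `tt j ^ N` is (divide by the constant), so `tt j` is. Then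
`m = rk K (range (tt m K)) ≤ rk K (range (hw b w))` by `rk_range_of_indep` and
`rk_le_of_algebraic`. -/
theorem le_rk_hw {U : Submodule ℚ (ι → ℚ)} (hb : Perp b U) {K : Type} [Field K] {w : ι → K}
    (h : ∀ i, w i ≠ 0) : (m : ℕ∞) ≤ rk K (Set.range (hw b w)) := by
  classical
  have h1 := rk_range_of_indep _ (indep_tt m K)
  rw [Fintype.card_fin] at h1
  rw [← h1]
  refine rk_le_of_algebraic ?_
  rintro _ ⟨j, rfl⟩
  obtain ⟨v, hv⟩ := hb.surj (Pi.single j 1)
  obtain ⟨k, hk, a, ha⟩ := exists_clear v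
  have h2 : ∀ j', ∑ i, a i * b i j' = if j' = j then k else 0 := by
    intro j'
    have h3 : ((∑ i, a i * b i j' : ℤ) : ℚ) = ((if j' = j then k else 0 : ℤ) : ℚ) := by
      push_cast
      have h4 := hv j'
      have h5 : (∑ i, (a i : ℚ) * (b i j' : ℚ)) = (k : ℚ) * ∑ i, v i * (b i j' : ℚ) := by
        rw [Finset.mul_sum]
        refine Finset.sum_congr rfl fun i _ => ?_
        rw [ha i, mul_assoc]
      rw [h5, h4, Pi.single_apply]
      split_ifs <;> simp
    exact_mod_cast h3
  have h3 := mon_hw b h a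
  have h4 : mon (tt m K) (fun j' => ∑ i, a i * b i j') = tt m K j ^ k := by
    unfold mon
    rw [Finset.prod_eq_single j]
    · change tt m K j ^ (∑ i, a i * b i j) = _
      rw [h2, if_pos rfl]
    · intro j' _ hj'
      change tt m K j' ^ (∑ i, a i * b i j') = _
      rw [h2, if_neg hj', zpow_zero]
    · intro h6
      exact absurd (Finset.mem_univ _) h6
  rw [h4] at h3
  have h5 : mon w a ≠ 0 := Finset.prod_ne_zero_iff.mpr fun i _ => zpow_ne_zero _ (h i)
  have h6 : algebraMap K (Rt m K) (mon w a) ≠ 0 :=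
    (map_ne_zero_iff _ (algebraMap K (Rt m K)).injective).mpr h5
  have h7 : tt m K j ^ k = algebraMap K (Rt m K) (mon w a)⁻¹ * mon (hw b w) a := by
    rw [h3, map_inv₀, ← mul_assoc, inv_mul_cancel₀ h6, one_mul]
  refine isAlgebraic_of_zpow hk ?_
  rw [h7]
  refine IsAlgebraic.mul ?_ (isAlgebraic_mon _ _)
  exact isAlgebraic_algebraMap
    (⟨algebraMap K (Rt m K) (mon w a)⁻¹, Subalgebra.algebraMap_mem _ _⟩ :
      Algebra.adjoin K (Set.range (hw b w)))

/-- PROOF. `w := gen q`, `K := Kf q`, `L := Rt m K`, point `hw b w`, `Hl b q = kr ℂ (hw b w)`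
(`dm_kr`). Take a `K`-basis `x` (finite family `B ⊆ range (hw b w)` algebraically independent over
`K`, of cardinality `rk K (range (hw b w)) ≥ m`, `Matroid.exists_isBasis` as in the proof of
`dm_kr`), `s := range (tm c φ w)` finite in `K`; `rk_union_ge` gives
`rk ℂ s + m ≤ rk ℂ (algebraMap '' s ∪ B)`. The elements of `algebraMap '' s` are the
`tm c φ (hw b w) s` (`mon_hw`, `hb.ortho`), algebraic over the coordinates of `hw b w`
(`isAlgebraic_tm`), so the right side is `≤ rk ℂ (range (hw b w)) = dm (Hl b q)`. -/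
theorem dm_Hl_ge (c : S → ℂ) {φ : S → ι → ℤ} (hb : Perp b (LinearMap.range (psiQ φ)))
    {q : Ideal (MvPolynomial ι ℂ)} (hq : TP q) : dm (Im c φ q) + m ≤ dm (Hl b q) := by
  classical
  have := hq.prime
  have hw0 := hq.gen_ne_zero
  rw [Im_eq, Hl_eq]
  have h0 : ((dm (kr ℂ (tm c φ (gen q))) + m : ℕ) : ℕ∞) ≤ (dm (kr ℂ (hw b (gen q))) : ℕ∞) := by
    rw [Nat.cast_add, dm_kr, dm_kr]
    obtain ⟨B, hB⟩ := (AlgebraicIndependent.matroid (Kf q) (Rt m (Kf q))).exists_isBasis
      (Set.range (hw b (gen q)))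
    have hBfin : B.Finite := (Set.finite_range _).subset hB.subset
    have hft : Fintype B := hBfin.fintype
    have h1 : AlgebraicIndependent (Kf q) ((↑) : B → Rt m (Kf q)) := hB.indep
    have h2 : (m : ℕ∞) ≤ (Fintype.card B : ℕ∞) := by
      have h3 := le_rk_hw hb hw0
      unfold rk at h3
      rw [← hB.encard_eq_eRk, Set.encard_eq_coe_toFinset_card, Set.toFinset_card] at h3
      exact h3
    have h3 := rk_union_ge (k := ℂ) (Set.range (tm c φ (gen q))) (Set.finite_range _) _ h1
    refine (add_le_add le_rfl h2).trans (h3.trans ?_)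
    refine rk_le_of_algebraic ?_
    rintro a (⟨_, ⟨s, rfl⟩, rfl⟩ | ⟨x, rfl⟩)
    · have h4 : algebraMap (Kf q) (Rt m (Kf q)) (tm c φ (gen q) s) =
          tm c φ (hw b (gen q)) s := by
        unfold tm
        have h5 : (fun j => ∑ i, φ s i * b i j) = (0 : Fin m → ℤ) := by
          funext j
          exact hb.ortho s j
        rw [mon_hw b hw0, h5, mon_zero, mul_one, map_mul, ← IsScalarTower.algebraMap_apply]
      rw [h4]
      exact isAlgebraic_tm c φ _ s
    · exact isAlgebraic_of_mem _ (hB.subset x.2)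
  exact_mod_cast h0

end Pool.Agent.Tri3
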