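import Pool.Agent.Tri3.Hull

set_option autoImplicit false

/-! Package W7: the relations of the hull. -/

namespace Pool.Agent.Tri3

open MvPolynomial Module Pool.Agent.CITLines

variable {ι S : Type} [Fintype ι] [Fintype S] {m : ℕ} {b : ι → Fin m → ℤ}

/-- A monomial in the variables with value in the base field is trivial.
PROOF: `binom_mem_kr` over the field `K` for the point `tt m K`: `binom K a x ∈ kr K (tt m K) = ⊥`
(`tt m K` is algebraically independent over `K`), so `∏ X^(a⁺) = x ∏ X^(a⁻)`; comparing supports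
(`MvPolynomial.monomial`, coefficients) `a⁺ = a⁻`, so `a = 0`. -/
theorem tt_mon_eq {K : Type} [Field K] {a : Fin m → ℤ} {x : K}
    (h : mon (tt m K) a = algebraMap K (Rt m K) x) : a = 0 := by
  have hinj : Function.Injective (algebraMap (MvPolynomial (Fin m) K) (Rt m K)) :=
    IsFractionRing.injective _ _
  rw [mon_eq_div (fun j => tt_ne_zero K j), div_eq_iff (Finset.prod_ne_zero_iff.mpr fun j _ =>
    pow_ne_zero _ (tt_ne_zero K j))] at h
  have h1 : ∀ n : Fin m → ℕ, ∏ j, tt m K j ^ n j =
      algebraMap (MvPolynomial (Fin m) K) (Rt m K)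
        (monomial (Finsupp.equivFunOnFinite.symm n) 1) := by
    intro n
    rw [monomial_eq, Finsupp.prod_fintype _ _ (fun i => pow_zero _), C_1, one_mul, map_prod]
    refine Finset.prod_congr rfl fun j _ => ?_
    rw [map_pow]
    rfl
  have h2 : algebraMap K (Rt m K) x =
      algebraMap (MvPolynomial (Fin m) K) (Rt m K) (C x) := by
    rw [IsScalarTower.algebraMap_apply K (MvPolynomial (Fin m) K) (Rt m K)]
    rfl
  rw [h1, h1, h2, ← map_mul, C_mul_monomial, mul_one] at h
  have h3 := hinj h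
  have h4 := congrArg (coeff (Finsupp.equivFunOnFinite.symm fun j => (a j).toNat)) h3
  rw [coeff_monomial, coeff_monomial, if_pos rfl] at h4
  have h5 : (Finsupp.equivFunOnFinite.symm fun j => (-a j).toNat : Fin m →₀ ℕ) =
      Finsupp.equivFunOnFinite.symm fun j => (a j).toNat := by
    by_contra hne
    rw [if_neg hne] at h4
    exact one_ne_zero h4
  have h6 := Finsupp.equivFunOnFinite.symm.injective h5
  funext j
  have h7 := congrFun h6 j
  show a j = 0
  omega

/-- From `mon_hw` and `tt_mon_eq` applied to the power `N a`. -/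
theorem relZ_hw {K : Type} [Field K] {w : ι → K} (h : ∀ i, w i ≠ 0) {a : ι → ℤ}
    (ha : a ∈ relZ (hw b w)) (j : Fin m) : ∑ i, a i * b i j = 0 := by
  obtain ⟨N, hN, h1⟩ := mem_relZ.mp ha
  rw [mon_hw b h] at h1
  set c : Fin m → ℤ := fun j => ∑ i, a i * b i j with hc
  have h2 : mon (tt m K) ((N : ℤ) • c) = algebraMap K (Rt m K) ((mon w a ^ N)⁻¹) := by
    rw [mon_smul, zpow_natCast, map_inv₀, map_pow]
    rw [mul_pow] at h1
    exact eq_inv_of_mul_eq_one_right h1
  have h3 := congrFun (tt_mon_eq h2) j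
  rw [Pi.smul_apply, smul_eq_mul, Pi.zero_apply] at h3
  have hN' : (N : ℤ) ≠ 0 := by exact_mod_cast hN.ne'
  exact (mul_eq_zero.1 h3).resolve_left hN'

theorem QP_Hl_le {U : Submodule ℚ (ι → ℚ)} (hb : Perp b U) {q : Ideal (MvPolynomial ι ℂ)}
    (hq : TP q) : QP (Hl b q) ≤ U := by
  have := hq.prime
  have h0 := hq.gen_ne_zero
  rw [Hl_eq, QP_kr (hw_ne_zero b h0)]
  unfold QS
  rw [Submodule.span_le]
  rintro _ ⟨a, ha, rfl⟩
  refine (hb.mem _).2 fun j => ?_
  have h1 := relZ_hw h0 ha j
  simp only [cst_apply]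
  exact_mod_cast h1

end Pool.Agent.Tri3
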