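import Pool.Agent.Tri3.Up
import Pool.Agent.Tri3.HullRel
import Pool.Agent.Tri3.HullDim

set_option autoImplicit false

/-! Package W9: dimensions and ranks of images and hulls (linear algebra bookkeeping). -/

namespace Pool.Agent.Tri3

open MvPolynomial Module Pool.Agent.CITLines

variable {ι S : Type} [Fintype ι] [Fintype S] {m : ℕ} {b : ι → Fin m → ℤ}
  {c : S → ℂ} {φ : S → ι → ℤ}

/-- `≥`: `dm_Hl_ge`; `≤`: `dm_le_Im` for `Hl b q` (with `Im_Hl`, and `⊔` at least the range, whose rank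
is `card ι - m` by `hb.card`). -/
theorem dm_Hl (hc : ∀ s, RU (c s)) (hb : Perp b (LinearMap.range (psiQ φ)))
    {q : Ideal (MvPolynomial ι ℂ)} (hq : TP q) : dm (Hl b q) = dm (Im c φ q) + m := by
  have h1 := dm_Hl_ge c hb hq
  have h2 := dm_le_Im (φ := φ) hc (TP_Hl b hq)
  rw [Im_Hl b c φ (fun s j => hb.ortho s j) hq] at h2
  have h3 : finrank ℚ (LinearMap.range (psiQ φ)) ≤
      finrank ℚ ↥(LinearMap.range (psiQ φ) ⊔ QP (Hl b q)) := Submodule.finrank_mono le_sup_left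
  have h4 := hb.card
  omega

/-- `rhoP_Im` for `Hl b q`, with `Im_Hl`, `QP_Hl_le` (so `QP ⊓ range = QP`), `finrank_range_add_ker`,
`hb.card`. -/
theorem rhoP_Hl (hc : ∀ s, RU (c s)) (hb : Perp b (LinearMap.range (psiQ φ)))
    {q : Ideal (MvPolynomial ι ℂ)} (hq : TP q) :
    rhoP (Im c φ q) + Fintype.card ι = rhoP (Hl b q) + Fintype.card S + m := by
  have h1 := rhoP_Im (φ := φ) hc (TP_Hl b hq)
  rw [Im_Hl b c φ (fun s j => hb.ortho s j) hq, inf_eq_left.2 (QP_Hl_le hb hq)] at h1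
  have h2 := finrank_range_add_ker φ
  have h3 := hb.card
  have h4 : rhoP (Hl b q) = finrank ℚ (QP (Hl b q)) := rfl
  omega

/-- `dm_le_Im`, `rhoP_Im`, `Submodule.finrank_sup_add_finrank_inf_eq`. -/
theorem dm_rhoP_le_Im (hc : ∀ s, RU (c s)) {q : Ideal (MvPolynomial ι ℂ)} (hq : TP q) :
    dm q + rhoP q + Fintype.card S ≤ dm (Im c φ q) + rhoP (Im c φ q) + Fintype.card ι := by
  have h1 := dm_le_Im (φ := φ) hc hq
  have h2 := rhoP_Im (φ := φ) hc hq
  have h3 := Submodule.finrank_sup_add_finrank_inf_eq (LinearMap.range (psiQ φ)) (QP q)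
  rw [inf_comm] at h2
  have h4 := finrank_range_add_ker φ
  have h5 : rhoP q = finrank ℚ (QP q) := rfl
  omega

/-- From the three previous theorems. -/
theorem dm_rhoP_le_Hl (hc : ∀ s, RU (c s)) (hb : Perp b (LinearMap.range (psiQ φ)))
    {q : Ideal (MvPolynomial ι ℂ)} (hq : TP q) : dm q + rhoP q ≤ dm (Hl b q) + rhoP (Hl b q) := by
  have h1 := dm_rhoP_le_Im (φ := φ) hc hq
  have h2 := dm_Hl hc hb hq
  have h3 := rhoP_Hl hc hb hq
  omega

end Pool.Agent.Tri3
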