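import Pool.Agent.Tri3.Defs
import Pool.Agent.L3S.Fix

set_option autoImplicit false

/-! The finiteness for a fixed point of rank two, from `L3S.fix_finite`. -/

namespace Pool.Agent.Tri3

open Pool.Agent.CITLines

theorem fix : Fix := by
  intro x0 _ _ hind
  refine Pool.Agent.L3S.fix_finite (x := x0) ?_
  intro a b h
  exact hind a b (by rw [h]; exact RU.one)

end Pool.Agent.Tri3
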