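import Pool.Agent.Tri3.Defs

set_option autoImplicit false

/-! Package W3: numerators of pulled back polynomials, specialisation. -/

namespace Pool.Agent.Tri3

open MvPolynomial Module Pool.Agent.CITLines

variable {ι S : Type} [Fintype ι] (c : S → ℂ) (φ : S → ι → ℤ)

private theorem exists_num' (f : MvPolynomial S ℂ) : ∃ (g : MvPolynomial ι ℂ) (N : ℕ),
    ∀ (K : Type) [Field K] [Algebra ℂ K] (w : ι → K), (∀ i, w i ≠ 0) →
      aeval w g = (∏ i, w i) ^ N * aeval (tm c φ w) f := by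
  classical
  induction f using MvPolynomial.induction_on with
  | C a =>
    refine ⟨C a, 0, ?_⟩
    intro K _ _ w _
    rw [pow_zero, one_mul, algHom_C, algHom_C]
  | add f₁ f₂ h₁ h₂ =>
    obtain ⟨g₁, N₁, h₁⟩ := h₁
    obtain ⟨g₂, N₂, h₂⟩ := h₂
    refine ⟨g₁ * (∏ i, X i) ^ N₂ + g₂ * (∏ i, X i) ^ N₁, N₁ + N₂, ?_⟩
    intro K _ _ w hw
    rw [map_add, map_mul, map_mul, map_pow, map_pow, map_prod, h₁ K w hw, h₂ K w hw, map_add]
    simp only [aeval_X]
    ring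
  | mul_X f s h =>
    obtain ⟨g, N, h⟩ := h
    obtain ⟨M, hM⟩ : ∃ M : ℕ, ∀ i, 0 ≤ φ s i + M := by
      refine ⟨∑ i, (φ s i).natAbs, fun i => ?_⟩
      have h1 : (φ s i).natAbs ≤ ∑ i, (φ s i).natAbs :=
        Finset.single_le_sum (f := fun i => (φ s i).natAbs) (fun _ _ => Nat.zero_le _)
          (Finset.mem_univ i)
      omega
    refine ⟨g * (C (c s) * ∏ i, X i ^ (φ s i + M).toNat), N + M, ?_⟩
    intro K _ _ w hw
    have h2 : ∏ i, w i ^ (φ s i + M).toNat = mon w (φ s) * (∏ i, w i) ^ M := by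
      rw [mon, ← Finset.prod_pow, ← Finset.prod_mul_distrib]
      refine Finset.prod_congr rfl fun i _ => ?_
      rw [← zpow_natCast, Int.toNat_of_nonneg (hM i), zpow_add₀ (hw i), zpow_natCast]
    rw [map_mul, map_mul, map_mul, algHom_C, map_prod, h K w hw, aeval_X, tm]
    simp only [map_pow, aeval_X]
    rw [h2]
    ring

/-- PROOF: induction on `f` (`MvPolynomial.induction_on`) for the stronger statement
`∃ g N, ∀ K w, (∀ i, w i ≠ 0) → aeval w g = (∏ i, w i) ^ N * aeval (tm c φ w) f`.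
Constants: `N = 0`. Sum: `g = g₁ (∏ X)^N₂ + g₂ (∏ X)^N₁`, `N = N₁ + N₂`. Product with `X s`: with `M`
such that `0 ≤ φ s i + M` for all `i`, `tm c φ w s * (∏ w)^M = c s * ∏ w i ^ (φ s i + M).toNat`. -/
theorem exists_num (f : MvPolynomial S ℂ) : ∃ g : MvPolynomial ι ℂ,
    ∀ (K : Type) [Field K] [Algebra ℂ K] (w : ι → K), (∀ i, w i ≠ 0) →
      (aeval w g = 0 ↔ aeval (tm c φ w) f = 0) := by
  obtain ⟨g, N, h⟩ := exists_num' c φ f
  refine ⟨g, ?_⟩
  intro K _ _ w hw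
  rw [h K w hw, mul_eq_zero]
  refine or_iff_right ?_
  exact pow_ne_zero _ (Finset.prod_ne_zero_iff.2 fun i _ => hw i)

/-- Specialisation is compatible with monomial maps (immediate from `exists_num`). -/
theorem kr_tm_le {K K' : Type} [Field K] [Field K'] [Algebra ℂ K] [Algebra ℂ K'] {w : ι → K}
    {w' : ι → K'} (hw : ∀ i, w i ≠ 0) (hw' : ∀ i, w' i ≠ 0) (h : kr ℂ w ≤ kr ℂ w') :
    kr ℂ (tm c φ w) ≤ kr ℂ (tm c φ w') := by
  intro f hf
  obtain ⟨g, hg⟩ := exists_num c φ f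
  rw [mem_kr] at hf ⊢
  exact (hg K' w' hw').1 (mem_kr.1 (h (mem_kr.2 ((hg K w hw).2 hf))))

end Pool.Agent.Tri3
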