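import Pool.Agent.Tri3.Tm
import Pool.Agent.Tri3.Num

set_option autoImplicit false

/-! Package W4: the image of the variety of a prime under a monomial map. -/

namespace Pool.Agent.Tri3

open MvPolynomial Module Pool.Agent.CITLines

variable {ι S : Type} [Fintype ι] [Fintype S] (c : S → ℂ) (φ : S → ι → ℤ)

/-- Any generic point gives the same image: both inclusions by `kr_tm_le`
(`kr (gen (kr w)) = kr w`: `kr_gen`). -/
theorem Im_kr {K : Type} [Field K] [Algebra ℂ K] {w : ι → K} (hw : ∀ i, w i ≠ 0) :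
    Im c φ (kr ℂ w) = kr ℂ (tm c φ w) := by
  have hg : ∀ i, gen (kr ℂ w) i ≠ 0 := (TP.kr hw).gen_ne_zero
  rw [Im_eq]
  refine le_antisymm ?_ ?_
  · exact kr_tm_le c φ hg hw (by rw [kr_gen])
  · exact kr_tm_le c φ hw hg (by rw [kr_gen])

/-- Membership in the image is membership of the numerator (`exists_num`, `kr_gen`). -/
theorem exists_mem_Im (f : MvPolynomial S ℂ) : ∃ g : MvPolynomial ι ℂ,
    ∀ q : Ideal (MvPolynomial ι ℂ), TP q → (g ∈ q ↔ f ∈ Im c φ q) := by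
  obtain ⟨g, hg⟩ := exists_num c φ f
  refine ⟨g, fun q hq => ?_⟩
  have := hq.prime
  have h1 : g ∈ q ↔ g ∈ kr ℂ (gen q) := by rw [kr_gen]
  rw [h1, Im_eq, mem_kr, mem_kr]
  exact hg _ (gen q) hq.gen_ne_zero

variable {c φ}

theorem TP_Im (hc : ∀ s, c s ≠ 0) {q : Ideal (MvPolynomial ι ℂ)} (hq : TP q) :
    TP (Im c φ q) := by
  have := hq.prime
  rw [Im_eq]
  exact TP.kr (tm_ne_zero c φ hc hq.gen_ne_zero)

theorem Im_mono {q q' : Ideal (MvPolynomial ι ℂ)} (hq : TP q) (hq' : TP q') (h : q ≤ q') :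
    Im c φ q ≤ Im c φ q' := by
  have := hq.prime
  have := hq'.prime
  rw [Im_eq, Im_eq]
  exact kr_tm_le c φ hq.gen_ne_zero hq'.gen_ne_zero (by rwa [kr_gen, kr_gen])

theorem QP_Im (hc : ∀ s, RU (c s)) {q : Ideal (MvPolynomial ι ℂ)} (hq : TP q) :
    QP (Im c φ q) = (QP q).comap (psiQ φ) := by
  have := hq.prime
  rw [Im_eq, QP_kr (tm_ne_zero c φ (fun s => (hc s).ne_zero) hq.gen_ne_zero),
    QS_relZ_tm c φ hc hq.gen_ne_zero, hq.QP_eq]

private theorem finrank_comap_aux {V W : Type} [AddCommGroup V] [Module ℚ V]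
    [FiniteDimensional ℚ V] [AddCommGroup W] [Module ℚ W] (f : V →ₗ[ℚ] W)
    (U : Submodule ℚ W) :
    finrank ℚ ↥(U.comap f) = finrank ℚ ↥(U ⊓ LinearMap.range f) +
      finrank ℚ (LinearMap.ker f) := by
  have h := (f.domRestrict (U.comap f)).finrank_range_add_finrank_ker
  have h1 : LinearMap.range (f.domRestrict (U.comap f)) = U ⊓ LinearMap.range f := by
    rw [LinearMap.range_domRestrict, Submodule.map_comap_eq, inf_comm]
  have h2 : finrank ℚ (LinearMap.ker (f.domRestrict (U.comap f))) =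
      finrank ℚ (LinearMap.ker f) := by
    have hle : LinearMap.ker f ≤ U.comap f := by
      intro v hv
      rw [Submodule.mem_comap, LinearMap.mem_ker.mp hv]
      exact U.zero_mem
    rw [LinearMap.ker_domRestrict]
    exact (Submodule.comapSubtypeEquivOfLe hle).finrank_eq
  rw [← h, h1, h2]

/-- Rank formula for the linear map `psiQ φ` restricted to the preimage of `QP q`. -/
theorem rhoP_Im (hc : ∀ s, RU (c s)) {q : Ideal (MvPolynomial ι ℂ)} (hq : TP q) :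
    rhoP (Im c φ q) = finrank ℚ ↥(QP q ⊓ LinearMap.range (psiQ φ)) +
      finrank ℚ (LinearMap.ker (psiQ φ)) := by
  unfold rhoP
  rw [QP_Im hc hq]
  exact finrank_comap_aux (psiQ φ) (QP q)

theorem finrank_range_add_ker (φ : S → ι → ℤ) :
    finrank ℚ (LinearMap.range (psiQ φ)) + finrank ℚ (LinearMap.ker (psiQ φ)) =
      Fintype.card S := by
  rw [(psiQ φ).finrank_range_add_finrank_ker, finrank_fintype_fun_eq_card]

theorem ker_le_QP_Im (hc : ∀ s, RU (c s)) {q : Ideal (MvPolynomial ι ℂ)} (hq : TP q) :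
    LinearMap.ker (psiQ φ) ≤ QP (Im c φ q) := by
  intro v hv
  rw [QP_Im hc hq, Submodule.mem_comap, LinearMap.mem_ker.mp hv]
  exact (QP q).zero_mem

theorem dm_Im (c : S → ℂ) (φ : S → ι → ℤ) (q : Ideal (MvPolynomial ι ℂ)) [q.IsPrime] :
    (dm (Im c φ q) : ℕ∞) = rk ℂ (Set.range (tm c φ (gen q))) := by
  rw [Im_eq, dm_kr]

/-- From `dm_Im`, `rk_tm_le`, `dm_eq_rk`. -/
theorem dm_Im_le (c : S → ℂ) (φ : S → ι → ℤ) {q : Ideal (MvPolynomial ι ℂ)} (hq : TP q) :
    dm (Im c φ q) ≤ dm q := by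
  have := hq.prime
  have h : (dm (Im c φ q) : ℕ∞) ≤ (dm q : ℕ∞) := by
    rw [dm_Im, dm_eq_rk]
    exact rk_tm_le c φ (gen q)
  exact_mod_cast h

theorem binom_mem_Im (hc : ∀ s, c s ≠ 0) {q : Ideal (MvPolynomial ι ℂ)} [q.IsPrime] (hq : TP q)
    (v : S → ℤ) (z : ℂ) :
    binom ℂ v z ∈ Im c φ q ↔ mon (tm c φ (gen q)) v = algebraMap ℂ (Kf q) z := by
  rw [Im_eq]
  exact binom_mem_kr (tm_ne_zero c φ hc hq.gen_ne_zero) v z

end Pool.Agent.Tri3
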