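import Pool.Agent.CITLines.Final
import Pool.Agent.Tri3.ImP

set_option autoImplicit false

/-! Package W24: components of systems of three trinomial equations. -/

namespace Pool.Agent.Tri3

open MvPolynomial Module Pool.Agent.CITLines Pool.Agent.CITTrans

/-- The system of three trinomial equations with coefficients `e i, d i`. -/
def triSys {n : ℕ} (a b : Fin 3 → Fin n → ℤ) (e d : Fin 3 → ℂ) : Set (Fin n → ℂ) :=
  {y | (∀ j, y j ≠ 0) ∧ ∀ i, e i * ∏ j, y j ^ a i j + d i * ∏ j, y j ^ b i j = 1}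

variable {n : ℕ} {a b : Fin 3 → Fin n → ℤ} {e d : Fin 3 → ℂ}

private theorem LI_le_kr_tm {K : Type} [Field K] [Algebra ℂ K] (w : Fin n → K) :
    LI 3 ≤ kr ℂ (tm (Fin.append e d) (Fin.append a b) w) ↔
      ∀ i, algebraMap ℂ K (e i) * mon w (a i) + algebraMap ℂ K (d i) * mon w (b i) = 1 := by
  rw [LI_le_kr]
  refine forall_congr' fun i => ?_
  unfold tm
  rw [Fin.append_left, Fin.append_left, Fin.append_right, Fin.append_right]

/-- The system in terms of the image: `LI_le_kr`, `Im_eq`, `Fin.append_left/right`. -/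
theorem LI_le_Im_iff (q : Ideal (MvPolynomial (Fin n) ℂ)) [q.IsPrime] :
    LI 3 ≤ Im (Fin.append e d) (Fin.append a b) q ↔
      ∀ i, algebraMap ℂ (Kf q) (e i) * mon (gen q) (a i) +
        algebraMap ℂ (Kf q) (d i) * mon (gen q) (b i) = 1 := by
  rw [Im_eq]
  exact LI_le_kr_tm (gen q)

/-- Numerators of the three equations. -/
private theorem exists_nums (a b : Fin 3 → Fin n → ℤ) (e d : Fin 3 → ℂ) :
    ∃ g : Fin 3 → MvPolynomial (Fin n) ℂ,
      (∀ y : Fin n → ℂ, (∀ j, y j ≠ 0) → (y ∈ triSys a b e d ↔ ∀ i, eval y (g i) = 0)) ∧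
      ∀ q : Ideal (MvPolynomial (Fin n) ℂ), TP q →
        (LI 3 ≤ Im (Fin.append e d) (Fin.append a b) q ↔ ∀ i, g i ∈ q) := by
  have h := fun i : Fin 3 => exists_num (Fin.append e d) (Fin.append a b)
    (X (Fin.castAdd 3 i) + X (Fin.natAdd 3 i) - 1 : MvPolynomial (Fin (3 + 3)) ℂ)
  choose g hg using h
  have key : ∀ (K : Type) [Field K] [Algebra ℂ K] (w : Fin n → K), (∀ j, w j ≠ 0) → ∀ i,
      (aeval w (g i) = 0 ↔
        algebraMap ℂ K (e i) * mon w (a i) + algebraMap ℂ K (d i) * mon w (b i) = 1) := by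
    intro K _ _ w hw i
    rw [hg i K w hw]
    simp only [map_sub, map_add, aeval_X, map_one]
    unfold tm
    rw [Fin.append_left, Fin.append_left, Fin.append_right, Fin.append_right, sub_eq_zero]
  refine ⟨g, fun y hy => ?_, fun q hq => ?_⟩
  · have h1 := fun i => key ℂ y hy i
    constructor
    · intro hs i
      have h2 := (h1 i).mpr (hs.2 i)
      exact h2
    · intro hs
      exact ⟨hy, fun i => (h1 i).mp (hs i)⟩
  · have hqp := hq.prime
    rw [LI_le_Im_iff]
    refine forall_congr' fun i => ?_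
    rw [← key (Kf q) (gen q) (fun j => gen_ne_zero q (hq.coord j)) i, ← mem_kr, kr_gen]

/-- PROOF: the numerators `g i` of the equations (`exists_mem_Im` / `exists_num` at the
fields `ℂ` (points) and `Kf q`): `y ∈ triSys ↔ y ∈ torus ∧ ∀ i, eval y (g i) = 0`;
`Zt q ⊆ triSys ↔ g i ∈ q` (Nullstellensatz `vanI_Zt`) `↔ LI 3 ≤ Im q`. -/
theorem Zt_subset_iff (q : Ideal (MvPolynomial (Fin n) ℂ)) (hq : TP q) :
    Zt q ⊆ triSys a b e d ↔ LI 3 ≤ Im (Fin.append e d) (Fin.append a b) q := by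
  obtain ⟨g, hg, hg'⟩ := exists_nums a b e d
  rw [hg' q hq]
  constructor
  · intro h i
    rw [← vanI_Zt hq, mem_vanI]
    intro y hy
    exact (hg y hy.1).mp (h hy) i
  · intro h y hy
    exact (hg y hy.1).mpr fun i => hy.2 _ (h i)

/-- Same numerators. -/
theorem Cl_triSys : Cl (triSys a b e d) := by
  obtain ⟨g, hg, _⟩ := exists_nums a b e d
  refine ⟨fun x hx => hx.1, ?_⟩
  intro x hx
  refine (hg x hx.1).mpr fun i => hx.2 _ ?_
  rw [mem_vanI]
  intro y hy
  exact (hg y hy.1).mp hy i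

/-- Components of the system satisfy `Sit`: `component_closed`, `Zt_subset_iff`; if
`TP p'`, `LI 3 ≤ Im p'`, `p' ≤ vanI V` then `V = Zt (vanI V) ⊆ Zt p' ⊆ triSys`, `vanI (Zt p') = p'` is
prime, so `Zt p' = V` by maximality, `p' = vanI V`. -/
theorem sit_of_component (he : ∀ i, ∃ m : ℕ, 0 < m ∧ e i ^ m = 1)
    (hd : ∀ i, ∃ m : ℕ, 0 < m ∧ d i ^ m = 1) {V : Set (Fin n → ℂ)}
    (hV : IsComponent (triSys a b e d) V)
    (hdim : ringKrullDim (MvPolynomial (Fin n) ℂ ⧸
      (⨅ x ∈ V, RingHom.ker (MvPolynomial.eval x : MvPolynomial (Fin n) ℂ →+* ℂ))) + 3 =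
        (n : WithBot ℕ∞)) :
    Sit (Fin.append e d) (Fin.append a b) (vanI V) := by
  obtain ⟨hZ, hT⟩ := component_closed Cl_triSys hV
  have hTp := hT.prime
  refine ⟨?_, hT, ?_, ?_, ?_⟩
  · intro s
    refine Fin.addCases (fun i => ?_) (fun i => ?_) s
    · rw [Fin.append_left]
      exact he i
    · rw [Fin.append_right]
      exact hd i
  · rw [← Zt_subset_iff _ hT, hZ]
    exact hV.1
  · intro p' hp' hL hle
    have h1 : Zt p' ⊆ triSys a b e d := (Zt_subset_iff p' hp').mpr hL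
    have h2 : V ⊆ Zt p' := by
      rw [← hZ]
      exact Zt_anti hle
    have h3 : Zt p' = V := by
      refine hV.2.2 _ h2 h1 ?_
      change (vanI (Zt p')).IsPrime
      rw [vanI_Zt hp']
      exact hp'.prime
    rw [← vanI_Zt hp', h3]
  · have h1 : ringKrullDim (MvPolynomial (Fin n) ℂ ⧸ vanI V) + 3 = (n : WithBot ℕ∞) := hdim
    rw [ringKrullDim_eq_dm] at h1
    rw [Fintype.card_fin]
    exact_mod_cast h1

end Pool.Agent.Tri3
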