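import Pool.Agent.CITLines.Final
import Pool.Agent.Tri3.Defs

set_option autoImplicit false

/-! Package W23: from finitely many maximal atypical subvarieties to the conclusion of `S18257`. -/

namespace Pool.Agent.Tri3

open MvPolynomial Module Pool.Agent.CITLines Pool.Agent.CITTrans

/-- The conclusion of Zilber's conjecture (frozen statement `S18257`) for the variety `V`. -/
def ZilberFor {n : ℕ} (V : Set (Fin n → ℂ)) : Prop :=
  ∃ (k : ℕ) (L : Fin k → Submodule ℤ (Fin n → ℤ)) (ζ : Fin k → Fin n → ℂ),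
    (∀ j, L j ≠ ⊥ ∧
      (∀ a : Fin n → ℤ, ∀ m : ℤ, m ≠ 0 → m • a ∈ L j → a ∈ L j) ∧
      ∃ m : ℕ, 0 < m ∧ ∀ i, ζ j i ^ m = 1) ∧
    ∀ (M : Submodule ℤ (Fin n → ℤ)) (η : Fin n → ℂ) (T : Set (Fin n → ℂ)),
      (∀ a : Fin n → ℤ, ∀ m : ℤ, m ≠ 0 → m • a ∈ M → a ∈ M) →
      (∃ m : ℕ, 0 < m ∧ ∀ i, η i ^ m = 1) →
      T = {y : Fin n → ℂ | (∀ i, y i ≠ 0) ∧
            ∀ a ∈ M, ∏ i, y i ^ a i = ∏ i, η i ^ a i} →
      ∀ X : Set (Fin n → ℂ), X ⊆ V → X ⊆ T →
        (⨅ x ∈ X, RingHom.ker (MvPolynomial.eval x : MvPolynomial (Fin n) ℂ →+* ℂ)).IsPrime →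
        ringKrullDim (MvPolynomial (Fin n) ℂ ⧸
            (⨅ x ∈ V, RingHom.ker (MvPolynomial.eval x : MvPolynomial (Fin n) ℂ →+* ℂ)))
          + ringKrullDim (MvPolynomial (Fin n) ℂ ⧸
            (⨅ x ∈ T, RingHom.ker (MvPolynomial.eval x : MvPolynomial (Fin n) ℂ →+* ℂ)))
          < ringKrullDim (MvPolynomial (Fin n) ℂ ⧸
            (⨅ x ∈ X, RingHom.ker (MvPolynomial.eval x : MvPolynomial (Fin n) ℂ →+* ℂ)))
            + (n : WithBot ℕ∞) →
        ∃ j, X ⊆ {y : Fin n → ℂ | (∀ i, y i ≠ 0) ∧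
            ∀ a ∈ L j, ∏ i, y i ^ a i = ∏ i, ζ j i ^ a i}

/-- Each `y` in the finite set has relations: `dm y ≤ dm p < dm y + rhoP y`, so
`rhoP y ≠ 0`, `QP y ≠ ⊥`, `exists_rel`. -/
theorem cit_of_finA {ι : Type} [Fintype ι] {p : Ideal (MvPolynomial ι ℂ)} (hp : TP p)
    (h : FinA p) : CITi p := by
  classical
  obtain ⟨Y, hY, hY'⟩ := h
  have hpp := hp.prime
  have hex : ∀ y : Ideal (MvPolynomial ι ℂ), ∃ x : (ι → ℤ) × ℂ, y ∈ Y →
      x.1 ≠ 0 ∧ RU x.2 ∧ binom ℂ x.1 x.2 ∈ y := by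
    intro y
    by_cases hy : y ∈ Y
    · obtain ⟨h1, h2, h3⟩ := hY y hy
      have hyp := h1.prime
      have h4 := dm_anti h2
      have h5 : QP y ≠ ⊥ := by
        intro h6
        have h7 : rhoP y = 0 := by
          unfold rhoP
          rw [h6, finrank_bot]
        omega
      obtain ⟨a, ζ, ha, hζ, hb⟩ := exists_rel h1 h5
      exact ⟨(a, ζ), fun _ => ⟨ha, hζ, hb⟩⟩
    · exact ⟨(0, 0), fun h => absurd h hy⟩
  choose F hF using hex
  refine ⟨Y.image F, ?_, ?_⟩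
  · intro x hx
    obtain ⟨y, hy, rfl⟩ := Finset.mem_image.mp hx
    exact ⟨(hF y hy).1, (hF y hy).2.1⟩
  · intro q hq hpq hdim
    obtain ⟨y, hy, hyq⟩ := hY' q hq hpq hdim
    exact ⟨F y, Finset.mem_image_of_mem _ hy, hyq (hF y hy).2.2⟩

/-- The proof of `CITLines.zilber_of_cit` (file `CITLines/Trans.lean`), verbatim, with
`hC n (vanI V) hVT` replaced by `hC`. -/
theorem zilberFor {n : ℕ} {V : Set (Fin n → ℂ)} (hV0 : ∀ x ∈ V, ∀ i, x i ≠ 0)
    (hVp : (vanI V).IsPrime) (hC : CITi (vanI V)) : ZilberFor V := by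
  classical
  have hVT : TP (vanI V) := TP_vanI hV0 hVp
  obtain ⟨L, hL1, hL2⟩ := hC
  -- for every relation, a common order of the torsion points
  have hstep : ∀ x : (Fin n → ℤ) × ℂ, ∃ K : ℕ, 0 < K ∧ (x.1 ≠ 0 → RU x.2 →
      ∀ (q : Ideal (MvPolynomial (Fin n) ℂ)), TP q → binom ℂ x.1 x.2 ∈ q →
        ∃ η : Fin n → ℂ, (∀ i, η i ^ K = 1) ∧ ∀ b ∈ satur x.1, binom ℂ b (mon η b) ∈ q) := by
    rintro ⟨a, ζ⟩
    by_cases hζ : RU ζ
    · obtain ⟨N, hN, hζN⟩ := hζ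
      obtain ⟨π, hπM, hπ⟩ := exists_retraction (satur a) (satur_saturated a)
      have h1 : ∀ i : Fin n, ∃ m : ℤ, m ≠ 0 ∧ ∃ k : ℤ, m • π (Pi.single i 1) = k • a :=
        fun i => hπM _
      choose m hm k hk using h1
      refine ⟨N * ∏ i, (m i).natAbs, Nat.mul_pos hN
        (Finset.prod_pos fun i _ => Int.natAbs_pos.mpr (hm i)), ?_⟩
      intro ha _ q hq hb
      have hqp := hq.prime
      simp only at ha hb
      rw [hq.binom_mem] at hb
      have hMq : satur a ≤ relZ (gen q) := by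
        rintro b ⟨m', hm', k', h'⟩
        refine relZ_saturated hm' ?_
        rw [h']
        refine (relZ (gen q)).smul_mem _ ?_
        refine ⟨N, hN, ?_⟩
        rw [hb, ← map_pow, hζN, map_one]
      obtain ⟨η, hη1, hη2, hη3⟩ := exists_eta hq (satur a) hMq π hπM hπ
      refine ⟨η, ?_, hη3⟩
      intro i
      have h2 : η i ^ (m i) = ζ ^ (k i) := by
        apply (algebraMap ℂ (Kf q)).injective
        rw [map_zpow₀, map_zpow₀, hη1, ← hb, ← mon_smul, ← mon_smul, hk]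
      have h3 : η i ^ (m i * N) = 1 := by
        rw [zpow_mul, h2, ← zpow_mul, mul_comm, zpow_mul, zpow_natCast, hζN, one_zpow]
      have h4 : η i ^ (N * (m i).natAbs) = 1 := by
        rcases le_or_gt 0 (m i) with h5 | h5
        · rw [← zpow_natCast, Nat.cast_mul, Int.natAbs_of_nonneg h5, mul_comm]
          exact h3
        · have h6 : (((m i).natAbs : ℕ) : ℤ) = - m i := by omega
          rw [← zpow_natCast, Nat.cast_mul, h6, mul_comm, neg_mul, zpow_neg, h3, inv_one]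
      rw [← Finset.mul_prod_erase Finset.univ _ (Finset.mem_univ i), ← mul_assoc, pow_mul, h4,
        one_pow]
    · exact ⟨1, one_pos, fun _ h => absurd h hζ⟩
  choose K hK hK' using hstep
  let E : Finset ((Fin n → ℤ) × (Fin n → ℂ)) := L.biUnion fun x =>
    (Fintype.piFinset fun _ : Fin n => Polynomial.nthRootsFinset (K x) (1 : ℂ)).image
      fun η => (x.1, η)
  have hE : ∀ z ∈ E, z.1 ≠ 0 ∧ ∃ m : ℕ, 0 < m ∧ ∀ i, z.2 i ^ m = 1 := by
    intro z hz
    obtain ⟨x, hx, hz⟩ := Finset.mem_biUnion.mp hz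
    obtain ⟨η, hη, rfl⟩ := Finset.mem_image.mp hz
    refine ⟨(hL1 x hx).1, K x, hK x, fun i => ?_⟩
    exact (Polynomial.mem_nthRootsFinset (hK x) (1 : ℂ)).mp (Fintype.mem_piFinset.mp hη i)
  let e := E.equivFin
  refine ⟨E.card, fun j => satur (e.symm j).1.1, fun j => (e.symm j).1.2, ?_, ?_⟩
  · intro j
    obtain ⟨h1, h2⟩ := hE _ (e.symm j).2
    refine ⟨?_, satur_saturated _, h2⟩
    intro h
    have h3 := mem_satur (e.symm j).1.1
    beta_reduce at h
    rw [h, Submodule.mem_bot] at h3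
    exact h1 h3
  · intro M η T hM hη hT X hXV hXT hXp hdim
    have hX0 : ∀ x ∈ X, ∀ i, x i ≠ 0 := fun x hx => hV0 x (hXV hx)
    have hXTP : TP (vanI X) := TP_vanI hX0 hXp
    obtain ⟨k, hk, hkdim⟩ := dim_cos M η hη
    have hT' : T = cos M η := hT
    have hMle : QS M ≤ QP (vanI X) := by
      refine QS_le_of_subset_cos hη hXTP ?_
      rw [← hT']
      exact vanI_anti hXT
    have hd : dm (vanI V) + k < dm (vanI X) + n := by
      have h1 : ringKrullDim (MvPolynomial (Fin n) ℂ ⧸ vanI V) +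
          ringKrullDim (MvPolynomial (Fin n) ℂ ⧸ vanI T) <
          ringKrullDim (MvPolynomial (Fin n) ℂ ⧸ vanI X) + (n : WithBot ℕ∞) := hdim
      have hVp' : (vanI V).IsPrime := hVp
      have hXp' : (vanI X).IsPrime := hXp
      rw [hT', hkdim, ringKrullDim_eq_dm, ringKrullDim_eq_dm] at h1
      exact_mod_cast h1
    have hrho : finrank ℚ (QS M) ≤ rhoP (vanI X) := Submodule.finrank_mono hMle
    obtain ⟨x, hx, hxq⟩ := hL2 (vanI X) hXTP (vanI_anti hXV) (by omega)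
    obtain ⟨η', hη', hb⟩ := hK' x (hL1 x hx).1 (hL1 x hx).2 (vanI X) hXTP hxq
    have hmem : (x.1, η') ∈ E := by
      refine Finset.mem_biUnion.mpr ⟨x, hx, Finset.mem_image.mpr ⟨η', ?_, rfl⟩⟩
      rw [Fintype.mem_piFinset]
      intro i
      rw [Polynomial.mem_nthRootsFinset (hK x)]
      exact hη' i
    refine ⟨e ⟨_, hmem⟩, ?_⟩
    beta_reduce
    rw [e.symm_apply_apply]
    intro y hy
    refine ⟨hX0 y hy, fun b hb' => ?_⟩
    exact (binom_mem_vanI hX0 b _).mp (hb b hb') y hy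

end Pool.Agent.Tri3
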