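import Pool.Agent.Tri3.Core
import Pool.Agent.Tri3.ZFor
import Pool.Agent.Tri3.SysSets
import Pool.Agent.Tri3.Fix
import Pool.Agent.L3S.Final

set_option autoImplicit false

/-! Zilber's conjecture for components of codimension three of systems of three trinomial
equations. -/

namespace Pool.Agent.Tri3

open MvPolynomial Module Pool.Agent.CITLines Pool.Agent.CITTrans

variable {n : ℕ} {a b : Fin 3 → Fin n → ℤ} {e d : Fin 3 → ℂ}

/-- **Zilber's conjecture for varieties given by three trinomial equations.** -/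
theorem trinomials (he : ∀ i, ∃ m : ℕ, 0 < m ∧ e i ^ m = 1)
    (hd : ∀ i, ∃ m : ℕ, 0 < m ∧ d i ^ m = 1) {V : Set (Fin n → ℂ)}
    (hV : IsComponent (triSys a b e d) V)
    (hdim : ringKrullDim (MvPolynomial (Fin n) ℂ ⧸
      (⨅ x ∈ V, RingHom.ker (MvPolynomial.eval x : MvPolynomial (Fin n) ℂ →+* ℂ))) + 3 =
        (n : WithBot ℕ∞)) :
    {X | IsMaxAtypical V X}.Finite ∧ ZilberFor V := by
  have hS := sit_of_component he hd hV hdim
  have hcl := component_closed Cl_triSys hV
  have hV0 : ∀ x ∈ V, ∀ i, x i ≠ 0 := fun x hx => (hV.1 hx).1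
  have hVc : Cl V := ⟨hV0, by rw [hcl.1]⟩
  have hF : FinA (vanI V) := finA Pool.Agent.L3S.finL_three fix hS
  exact ⟨(finite_iff hVc hcl.2.prime).mpr hF, zilberFor hV0 hcl.2.prime (cit_of_finA hcl.2 hF)⟩

end Pool.Agent.Tri3
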