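import Pool.Agent.Tri3.ImP

set_option autoImplicit false

/-! Package W6: the hull, basic properties. -/

namespace Pool.Agent.Tri3

open MvPolynomial Module Pool.Agent.CITLines

variable {ι S : Type} [Fintype ι] [Fintype S] {m : ℕ} (b : ι → Fin m → ℤ)

theorem tt_ne_zero (K : Type) [Field K] (j : Fin m) : tt m K j ≠ 0 := by
  intro h
  have h1 := (map_eq_zero_iff (algebraMap (MvPolynomial (Fin m) K) (Rt m K))
    (IsFractionRing.injective (MvPolynomial (Fin m) K) (Rt m K))).1 h
  exact X_ne_zero j h1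

private theorem mon_ne_zero' {κ K : Type} [Fintype κ] [Field K] {w : κ → K} (hw : ∀ i, w i ≠ 0)
    (a : κ → ℤ) : mon w a ≠ 0 :=
  Finset.prod_ne_zero_iff.mpr fun i _ => zpow_ne_zero _ (hw i)

theorem hw_ne_zero {K : Type} [Field K] {w : ι → K} (h : ∀ i, w i ≠ 0) (i : ι) :
    hw b w i ≠ 0 := by
  unfold hw
  refine mul_ne_zero ?_ (mon_ne_zero' (tt_ne_zero K) _)
  exact fun h0 => h i ((map_eq_zero (algebraMap K (Rt m K))).1 h0)

theorem mon_hw {K : Type} [Field K] {w : ι → K} (h : ∀ i, w i ≠ 0) (a : ι → ℤ) :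
    mon (hw b w) a = algebraMap K (Rt m K) (mon w a) *
      mon (tt m K) (fun j => ∑ i, a i * b i j) := by
  have e : (fun j => ∑ i, a i * b i j) = ∑ i, a i • b i := by
    funext j
    rw [Finset.sum_apply]
    refine Finset.sum_congr rfl fun i _ => ?_
    rw [Pi.smul_apply, smul_eq_mul]
  rw [e, mon_sum (tt_ne_zero K)]
  unfold mon
  rw [map_prod, ← Finset.prod_mul_distrib]
  refine Finset.prod_congr rfl fun i _ => ?_
  have h1 := mon_smul (tt m K) (a i) (b i)
  unfold mon at h1
  rw [h1, map_zpow₀]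
  unfold hw
  rw [mul_zpow]
  rfl

/-- the polynomial in the last variables with coefficients in the ring of polynomials in the first
variables -/
private noncomputable def Phi (ι : Type) (m : ℕ) :
    MvPolynomial (ι ⊕ Fin m) ℂ →ₐ[ℂ] MvPolynomial (Fin m) (MvPolynomial ι ℂ) :=
  aeval (Sum.elim (fun i => C (X i)) (fun j => X j))

omit [Fintype ι] in
private theorem map_Phi {K : Type} [Field K] [Algebra ℂ K] (w : ι → K)
    (f : MvPolynomial (ι ⊕ Fin m) ℂ) :
    MvPolynomial.map (aeval w : MvPolynomial ι ℂ →ₐ[ℂ] K).toRingHom (Phi ι m f) =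
      aeval (Sum.elim (fun i => C (w i)) (fun j => X j) : ι ⊕ Fin m → MvPolynomial (Fin m) K)
        f := by
  induction f using MvPolynomial.induction_on with
  | C a =>
    rw [algHom_C, algHom_C]
    have h1 : algebraMap ℂ (MvPolynomial (Fin m) (MvPolynomial ι ℂ)) a = C (C a) := rfl
    have h2 : algebraMap ℂ (MvPolynomial (Fin m) K) a = C (algebraMap ℂ K a) := rfl
    rw [h1, h2, map_C]
    congr 1
    exact algHom_C _ a
  | add p q hp hq => rw [map_add, map_add, map_add, hp, hq]
  | mul_X p s hp =>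
    rw [map_mul, map_mul, map_mul, hp, aeval_X]
    congr 1
    unfold Phi
    rw [aeval_X]
    cases s with
    | inl i =>
      rw [Sum.elim_inl, Sum.elim_inl, map_C]
      congr 1
      exact aeval_X _ i
    | inr j => rw [Sum.elim_inr, Sum.elim_inr, map_X]

omit [Fintype ι] in
private theorem aeval_elim {K L : Type} [Field K] [Algebra ℂ K] [Field L] [Algebra ℂ L]
    [Algebra K L] [IsScalarTower ℂ K L] (w : ι → K) (t : Fin m → L)
    (f : MvPolynomial (ι ⊕ Fin m) ℂ) :
    aeval (Sum.elim (fun i => algebraMap K L (w i)) t) f =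
      aeval t (aeval (Sum.elim (fun i => C (w i)) (fun j => X j) :
        ι ⊕ Fin m → MvPolynomial (Fin m) K) f) := by
  induction f using MvPolynomial.induction_on with
  | C a =>
    rw [algHom_C, algHom_C]
    have h2 : algebraMap ℂ (MvPolynomial (Fin m) K) a = C (algebraMap ℂ K a) := rfl
    rw [h2, algHom_C]
    exact IsScalarTower.algebraMap_apply ℂ K L a
  | add p q hp hq => rw [map_add, map_add, map_add, hp, hq]
  | mul_X p s hp =>
    rw [map_mul, map_mul, map_mul, hp, aeval_X, aeval_X]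
    congr 1
    cases s with
    | inl i => rw [Sum.elim_inl, Sum.elim_inl, algHom_C]
    | inr j => rw [Sum.elim_inr, Sum.elim_inr, aeval_X]

private theorem algebraMap_eq_aeval {K : Type} [Field K] (g : MvPolynomial (Fin m) K) :
    algebraMap (MvPolynomial (Fin m) K) (Rt m K) g = aeval (tt m K) g := by
  induction g using MvPolynomial.induction_on with
  | C a =>
    rw [algHom_C]
    exact (IsScalarTower.algebraMap_apply K (MvPolynomial (Fin m) K) (Rt m K) a).symm
  | add p q hp hq => rw [map_add, map_add, hp, hq]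
  | mul_X p s hp =>
    rw [map_mul, map_mul, hp, aeval_X]
    rfl

omit [Fintype ι] in
/-- specialisation of the point, with the generic point of the torus going to any point -/
private theorem kr_elim_le {K K' L : Type} [Field K] [Field K'] [Algebra ℂ K] [Algebra ℂ K']
    [Field L] [Algebra ℂ L] [Algebra K' L] [IsScalarTower ℂ K' L] {w : ι → K} {w' : ι → K'}
    (t : Fin m → L) (h : kr ℂ w ≤ kr ℂ w') :
    kr ℂ (Sum.elim (fun i => algebraMap K (Rt m K) (w i)) (tt m K)) ≤
      kr ℂ (Sum.elim (fun i => algebraMap K' L (w' i)) t) := by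
  intro f hf
  rw [mem_kr, aeval_elim] at hf
  rw [mem_kr, aeval_elim]
  rw [← algebraMap_eq_aeval] at hf
  have h1 := (map_eq_zero_iff (algebraMap (MvPolynomial (Fin m) K) (Rt m K))
    (IsFractionRing.injective (MvPolynomial (Fin m) K) (Rt m K))).1 hf
  have h2 : aeval (Sum.elim (fun i => C (w' i)) (fun j => X j) :
      ι ⊕ Fin m → MvPolynomial (Fin m) K') f = 0 := by
    rw [← map_Phi] at h1 ⊢
    ext d
    have h3 := congrArg (coeff d) h1
    rw [coeff_map, coeff_zero] at h3
    rw [coeff_map, coeff_zero]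
    exact mem_kr.1 (h (mem_kr.2 h3))
  rw [h2, map_zero]

/-- the exponents of the point of the hull -/
private noncomputable def bet (i : ι) : ι ⊕ Fin m → ℤ := by
  classical exact Sum.elim (Pi.single i 1) (b i)

private theorem pm_bet {L : Type} [Field L] (w : ι → L) (t : Fin m → L) (i : ι) :
    pm (bet b) (Sum.elim w t) i = w i * mon t (b i) := by
  classical
  unfold pm mon bet
  rw [Fintype.prod_sum_type]
  simp only [Sum.elim_inl, Sum.elim_inr]
  congr 1
  rw [Finset.prod_eq_single i]
  · rw [Pi.single_eq_same, zpow_one]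
  · intro j _ hj
    rw [Pi.single_eq_of_ne hj, zpow_zero]
  · exact fun h => absurd (Finset.mem_univ i) h

private theorem hw_eq_pm {K : Type} [Field K] (w : ι → K) :
    hw b w = pm (bet b) (Sum.elim (fun i => algebraMap K (Rt m K) (w i)) (tt m K)) := by
  funext i
  rw [pm_bet]
  rfl

/-- PROOF. The point `hw b w` is the monomial image, with exponents `Sum.elim (single i) (b i)`, of the
point `(w, t) : ι ⊕ Fin m → Rt m K`. If `kr w ≤ kr w'` then `kr (w, t) ≤ kr (w', t')` for any `t'` in
an extension of the field of `w'`: for `f` in the kernel of `(w, t)` write `f` as a polynomial in the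
last variables with coefficients in `MvPolynomial ι ℂ` (`MvPolynomial.sumAlgEquiv` or
`MvPolynomial.sumToIter`, with the two groups of variables exchanged); its coefficients vanish at `w`,
hence at `w'`, so `f` vanishes at `(w', t')`. Then apply `CITLines.kr_pm_le` (or `kr_tm_le` with
`c = 1`). -/
theorem kr_hw_le {K K' : Type} [Field K] [Field K'] [Algebra ℂ K] [Algebra ℂ K'] {w : ι → K}
    {w' : ι → K'} (hw0 : ∀ i, w i ≠ 0) (hw' : ∀ i, w' i ≠ 0) (h : kr ℂ w ≤ kr ℂ w') :
    kr ℂ (hw b w) ≤ kr ℂ (hw b w') := by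
  rw [hw_eq_pm, hw_eq_pm]
  refine kr_pm_le ?_ (kr_elim_le (tt m K') h) (bet b)
  intro i
  cases i with
  | inl i =>
    rw [Sum.elim_inl]
    exact fun h0 => hw' i ((map_eq_zero (algebraMap K' (Rt m K'))).1 h0)
  | inr j => exact tt_ne_zero K' j

/-- As `kr_hw_le`, with `t' = 1`. -/
theorem kr_hw_le_self {K : Type} [Field K] [Algebra ℂ K] {w : ι → K} (hw0 : ∀ i, w i ≠ 0) :
    kr ℂ (hw b w) ≤ kr ℂ w := by
  have e : w = pm (bet b) (Sum.elim (fun i => algebraMap K K (w i)) (fun _ : Fin m => 1)) := by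
    funext i
    rw [pm_bet]
    unfold mon
    simp
  have h1 : kr ℂ (hw b w) ≤ kr ℂ (pm (bet b)
      (Sum.elim (fun i => algebraMap K K (w i)) (fun _ : Fin m => (1 : K)))) := by
    rw [hw_eq_pm]
    refine kr_pm_le ?_ (kr_elim_le (fun _ => (1 : K)) le_rfl) (bet b)
    intro i
    cases i with
    | inl i => exact hw0 i
    | inr j => exact one_ne_zero
  rwa [← e] at h1

theorem TP_Hl {q : Ideal (MvPolynomial ι ℂ)} (hq : TP q) : TP (Hl b q) := by
  have := hq.prime
  rw [Hl_eq]
  exact TP.kr (hw_ne_zero b hq.gen_ne_zero)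

theorem Hl_le {q : Ideal (MvPolynomial ι ℂ)} (hq : TP q) : Hl b q ≤ q := by
  have := hq.prime
  rw [Hl_eq]
  refine (kr_hw_le_self b hq.gen_ne_zero).trans ?_
  rw [kr_gen]

theorem Hl_mono {q q' : Ideal (MvPolynomial ι ℂ)} (hq : TP q) (hq' : TP q') (h : q ≤ q') :
    Hl b q ≤ Hl b q' := by
  have := hq.prime
  have := hq'.prime
  rw [Hl_eq, Hl_eq]
  refine kr_hw_le b hq.gen_ne_zero hq'.gen_ne_zero ?_
  rw [kr_gen, kr_gen]
  exact h

/-- `tm c φ (hw b w) s = algebraMap (tm c φ w s)` by `mon_hw`; then `Im_kr`, and the kernel of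
evaluation does not change in a field extension. -/
theorem Im_Hl (c : S → ℂ) (φ : S → ι → ℤ) (hφ : ∀ s j, ∑ i, φ s i * b i j = 0)
    {q : Ideal (MvPolynomial ι ℂ)} (hq : TP q) : Im c φ (Hl b q) = Im c φ q := by
  have := hq.prime
  rw [Hl_eq, Im_kr c φ (hw_ne_zero b hq.gen_ne_zero), Im_eq]
  have e : tm c φ (hw b (gen q)) = fun s => algebraMap (Kf q) (Rt m (Kf q))
      (tm c φ (gen q) s) := by
    funext s
    unfold tm
    rw [mon_hw b hq.gen_ne_zero]
    have h0 : (fun j => ∑ i, φ s i * b i j) = 0 := funext fun j => hφ s j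
    rw [h0, mon_zero, mul_one, map_mul]
    congr 1
  rw [e]
  ext f
  rw [mem_kr, mem_kr]
  have h1 : aeval (fun s => algebraMap (Kf q) (Rt m (Kf q)) (tm c φ (gen q) s)) f =
      algebraMap (Kf q) (Rt m (Kf q)) (aeval (tm c φ (gen q)) f) :=
    aeval_algebraMap_apply (Rt m (Kf q)) (tm c φ (gen q)) f
  rw [h1, map_eq_zero]

/-- The rows of `φ` are orthogonal to the columns of `b`. -/
theorem Perp.ortho {b : ι → Fin m → ℤ} {φ : S → ι → ℤ}
    (hb : Perp b (LinearMap.range (psiQ φ))) (s : S) (j : Fin m) : ∑ i, φ s i * b i j = 0 := by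
  classical
  have h1 : cst (φ s) ∈ LinearMap.range (psiQ φ) := by
    refine ⟨cst (Pi.single s 1), ?_⟩
    rw [psiQ_cst, psiZ_apply, Finset.sum_eq_single s]
    · rw [Pi.single_eq_same, one_smul]
    · intro j _ hj
      rw [Pi.single_eq_of_ne hj, zero_smul]
    · exact fun h => absurd (Finset.mem_univ s) h
  have h2 := (hb.mem _).1 h1 j
  simp only [cst_apply] at h2
  exact_mod_cast h2

end Pool.Agent.Tri3
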