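import Pool.Agent.Tri3.Dims

set_option autoImplicit false

/-! Package W17: dimensions of the image in the situation of three trinomials. -/

namespace Pool.Agent.Tri3

open MvPolynomial Module Pool.Agent.CITLines

variable {ι : Type} [Fintype ι] {c : Fin (3 + 3) → ℂ} {φ : Fin (3 + 3) → ι → ℤ}
  {p : Ideal (MvPolynomial ι ℂ)} {m : ℕ} {b0 : ι → Fin m → ℤ}

/-- The hull of `p` is `p` (`h.hmin`, `Hl_le`, `TP_Hl`, `Im_Hl`). -/
theorem Sit.Hl_eq_self (h : Sit c φ p) (hb : Perp b0 (LinearMap.range (psiQ φ))) :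
    Hl b0 p = p := by
  refine h.hmin _ (TP_Hl b0 h.hp) ?_ (Hl_le b0 h.hp)
  rw [Im_Hl b0 c φ hb.ortho h.hp]
  exact h.hL

theorem Sit.dm_Im (h : Sit c φ p) (hb : Perp b0 (LinearMap.range (psiQ φ))) :
    dm (Im c φ p) + m + 3 = Fintype.card ι := by
  have h1 := dm_Hl h.hc hb h.hp
  rw [h.Hl_eq_self hb] at h1
  have h2 := h.hdim
  omega

theorem Sit.rhoP_Im (h : Sit c φ p) (hb : Perp b0 (LinearMap.range (psiQ φ))) :
    rhoP (Im c φ p) + Fintype.card ι = rhoP p + 6 + m := by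
  have h1 := rhoP_Hl h.hc hb h.hp
  rw [h.Hl_eq_self hb, Fintype.card_fin] at h1
  exact h1

/-- If the codimension of the kernel is five, `rhoP p = 0` and `rhoP y = 2`, `dm y = 2`, the image of
`p` is not in the surface `y`: otherwise `y = Im c φ p` (dimension `2`, `dm_strictAnti`), but
`rhoP (Im c φ p) = 1`. -/
theorem Sit.not_le (h : Sit c φ p) (hp0 : rhoP p = 0) (hb : Perp b0 (LinearMap.range (psiQ φ)))
    (hm : m + 5 = Fintype.card ι) {y : Ideal (MvPolynomial (Fin (3 + 3)) ℂ)} (hy : TP y)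
    (hd : dm y = 2) (hr : rhoP y = 2) : ¬ y ≤ Im c φ p := by
  intro hle
  have h1 := h.dm_Im hb
  have h2 := h.rhoP_Im hb
  have hyp := hy.prime
  have hIp := (TP_Im (φ := φ) (fun s => (h.hc s).ne_zero) h.hp).prime
  by_cases he : y = Im c φ p
  · rw [← he] at h2
    omega
  · have h3 := dm_strictAnti (lt_of_le_of_ne hle he)
    omega

/-- A nonzero integral vector in the kernel; its monomial is constant on the image. -/
theorem Sit.exists_ker (h : Sit c φ p) (hb : Perp b0 (LinearMap.range (psiQ φ)))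
    (hm : m + 5 = Fintype.card ι) : ∃ v : Fin (3 + 3) → ℤ, v ≠ 0 ∧ psiZ φ v = 0 ∧
      binom ℂ v (mon c v) ∈ Im c φ p := by
  have h1 := finrank_range_add_ker φ
  rw [Fintype.card_fin] at h1
  have h2 := hb.card
  have h3 : finrank ℚ (LinearMap.ker (psiQ φ)) ≠ 0 := by omega
  have h4 : LinearMap.ker (psiQ φ) ≠ ⊥ := by
    intro h0
    rw [h0, finrank_bot] at h3
    exact h3 rfl
  obtain ⟨v, hv, hv0⟩ := Submodule.exists_mem_ne_zero_of_ne_bot h4
  obtain ⟨k, hk, b, hb'⟩ := exists_clear v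
  have hcb : cst b = (k : ℚ) • v := by
    funext i
    rw [cst_apply, hb', Pi.smul_apply, smul_eq_mul]
  have hk' : (k : ℚ) ≠ 0 := by exact_mod_cast hk
  have hz : psiZ φ b = 0 := by
    rw [← cst_eq_zero, ← psiQ_cst, hcb, map_smul, LinearMap.mem_ker.mp hv, smul_zero]
  have hp := h.hp.prime
  refine ⟨b, ?_, hz, ?_⟩
  · intro h0
    rw [cst_eq_zero.mpr h0] at hcb
    exact (smul_ne_zero hk' hv0) hcb.symm
  · rw [binom_mem_Im (fun s => (h.hc s).ne_zero) h.hp, mon_tm c φ h.hp.gen_ne_zero, hz, mon_zero,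
      mul_one]

end Pool.Agent.Tri3
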