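import Pool.Agent.Tri3.ImP
import Pool.Agent.CITLines.Coord

set_option autoImplicit false

/-! Package W5: upper bound for the dimension in terms of that of the image. -/

namespace Pool.Agent.Tri3

open MvPolynomial Module Pool.Agent.CITLines

variable {ι S : Type} [Fintype ι] [Fintype S] {c : S → ℂ} {φ : S → ι → ℤ}

section Helpers

variable {K : Type} [Field K] [Algebra ℂ K]

private theorem alg_zpow {A : Set K} {x : K} (h : IsAlgebraic (Algebra.adjoin ℂ A) x) (m : ℤ) :
    IsAlgebraic (Algebra.adjoin ℂ A) (x ^ m) := by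
  cases m with
  | ofNat n =>
    rw [Int.ofNat_eq_natCast, zpow_natCast]
    exact h.pow n
  | negSucc n =>
    rw [zpow_negSucc]
    exact (h.pow _).inv

private theorem alg_of_zpow {A : Set K} {x : K} {m : ℤ} (hm : m ≠ 0)
    (h : IsAlgebraic (Algebra.adjoin ℂ A) (x ^ m)) : IsAlgebraic (Algebra.adjoin ℂ A) x := by
  rcases lt_or_gt_of_ne hm with h8 | h8
  · have h9 : IsAlgebraic (Algebra.adjoin ℂ A) (x ^ (-m).toNat) := by
      rw [← zpow_natCast, Int.toNat_of_nonneg (by omega), zpow_neg]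
      exact h.inv
    exact h9.of_pow (by omega)
  · have h9 : IsAlgebraic (Algebra.adjoin ℂ A) (x ^ m.toNat) := by
      rw [← zpow_natCast, Int.toNat_of_nonneg (by omega)]
      exact h
    exact h9.of_pow (by omega)

private theorem alg_complex (A : Set K) (z : ℂ) :
    IsAlgebraic (Algebra.adjoin ℂ A) (algebraMap ℂ K z) :=
  isAlgebraic_algebraMap
    (⟨algebraMap ℂ K z, Subalgebra.algebraMap_mem _ z⟩ : Algebra.adjoin ℂ A)

/-- Rational exponents of monomials algebraic over `A`. -/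
private def algSub {w : ι → K} (hw : ∀ i, w i ≠ 0) (A : Set K) : Submodule ℚ (ι → ℚ) where
  carrier := {v | ∃ N : ℤ, N ≠ 0 ∧ ∃ a : ι → ℤ, (∀ i, (a i : ℚ) = N * v i) ∧
    IsAlgebraic (Algebra.adjoin ℂ A) (mon w a)}
  zero_mem' := by
    refine ⟨1, one_ne_zero, 0, fun i => by simp, ?_⟩
    rw [mon_zero]
    exact isAlgebraic_one
  add_mem' := by
    rintro x y ⟨k, hk, a, hka, ha⟩ ⟨l, hl, b, hlb, hb⟩
    refine ⟨k * l, mul_ne_zero hk hl, l • a + k • b, fun i => ?_, ?_⟩
    · have h1 := hka i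
      have h2 := hlb i
      simp only [Pi.add_apply, Pi.smul_apply, smul_eq_mul, Int.cast_add, Int.cast_mul, h1, h2]
      ring
    · rw [mon_add' hw, mon_smul, mon_smul]
      exact (alg_zpow ha l).mul (alg_zpow hb k)
  smul_mem' := by
    rintro q x ⟨k, hk, a, hka, ha⟩
    refine ⟨k * q.den, mul_ne_zero hk (by exact_mod_cast q.den_nz), q.num • a, fun i => ?_, ?_⟩
    · have h1 := hka i
      simp only [Pi.smul_apply, smul_eq_mul, Int.cast_mul, h1, Int.cast_natCast]
      have h2 : (q.num : ℚ) = q.den * q := by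
        rw [mul_comm]
        exact (Rat.mul_den_eq_num q).symm
      rw [h2]
      ring
    · rw [mon_smul]
      exact alg_zpow ha _

private theorem mem_algSub {w : ι → K} {hw : ∀ i, w i ≠ 0} {A : Set K} {v : ι → ℚ} :
    v ∈ algSub hw A ↔ ∃ N : ℤ, N ≠ 0 ∧ ∃ a : ι → ℤ, (∀ i, (a i : ℚ) = N * v i) ∧
      IsAlgebraic (Algebra.adjoin ℂ A) (mon w a) := Iff.rfl

private theorem cst_mem_algSub {w : ι → K} {hw : ∀ i, w i ≠ 0} {A : Set K} {a : ι → ℤ} :
    cst a ∈ algSub hw A ↔ IsAlgebraic (Algebra.adjoin ℂ A) (mon w a) := by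
  constructor
  · rintro ⟨N, hN, b, hb, h⟩
    have h1 : b = N • a := by
      funext i
      have h2 := hb i
      rw [cst_apply] at h2
      rw [Pi.smul_apply, smul_eq_mul]
      exact_mod_cast h2
    rw [h1, mon_smul] at h
    exact alg_of_zpow hN h
  · intro h
    exact ⟨1, one_ne_zero, a, fun i => by simp [cst_apply], h⟩

private theorem QS_le_algSub {w : ι → K} (hw : ∀ i, w i ≠ 0) (A : Set K) :
    QS (relZ w) ≤ algSub hw A := by
  refine Submodule.span_le.mpr ?_
  rintro _ ⟨a, ha, rfl⟩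
  have ha' : a ∈ relZ w := ha
  obtain ⟨ζ, _, h1⟩ := (mem_relZ.mp ha').exists_complex
  rw [SetLike.mem_coe, cst_mem_algSub, ← h1]
  exact alg_complex A ζ

private theorem range_le_algSub (hc : ∀ s, RU (c s)) {w : ι → K} (hw : ∀ i, w i ≠ 0)
    (A : Set K) (hA : Set.range (tm c φ w) ⊆ A) :
    LinearMap.range (psiQ φ) ≤ algSub hw A := by
  classical
  rintro _ ⟨v, rfl⟩
  rw [psiQ_apply]
  refine Submodule.sum_mem _ fun s _ => Submodule.smul_mem _ _ ?_
  rw [cst_mem_algSub]
  have h1 : IsAlgebraic (Algebra.adjoin ℂ A) (tm c φ w s) :=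
    isAlgebraic_of_mem A (hA ⟨s, rfl⟩)
  have h2 : mon w (φ s) = algebraMap ℂ K (c s)⁻¹ * tm c φ w s := by
    unfold tm
    rw [← mul_assoc, ← map_mul, inv_mul_cancel₀ (hc s).ne_zero, map_one, one_mul]
  rw [h2]
  exact (alg_complex A _).mul h1

private theorem extend_mem_algSub {w : ι → K} (hw : ∀ i, w i ≠ 0) (A : Set K) {k : ℕ}
    (e : Fin k → ι) (he : Function.Injective e) (hA : Set.range (fun j => w (e j)) ⊆ A)
    (v : Fin k → ℚ) : Function.extend e v 0 ∈ algSub hw A := by
  classical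
  rw [extend_eq_sum e he]
  refine Submodule.sum_mem _ fun j _ => Submodule.smul_mem _ _ ?_
  have h1 : (Pi.single (e j) 1 : ι → ℚ) = cst (Pi.single (e j) 1) := by
    funext i
    rw [cst_apply]
    by_cases h : i = e j
    · subst h
      simp
    · simp [Pi.single_eq_of_ne h]
  rw [h1, cst_mem_algSub]
  have h2 : mon w (Pi.single (e j) 1) = w (e j) := by
    unfold mon
    rw [Finset.prod_eq_single (e j)]
    · rw [Pi.single_eq_same, zpow_one]
    · intro i _ hi
      rw [Pi.single_eq_of_ne hi, zpow_zero]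
    · intro h
      exact absurd (Finset.mem_univ _) h
  rw [h2]
  exact isAlgebraic_of_mem A (hA ⟨j, rfl⟩)

private theorem alg_of_mem_top {w : ι → K} (hw : ∀ i, w i ≠ 0) (A : Set K)
    (h : algSub hw A = ⊤) (i : ι) : IsAlgebraic (Algebra.adjoin ℂ A) (w i) := by
  classical
  have h0 : cst (Pi.single i 1 : ι → ℤ) ∈ algSub hw A := by
    rw [h]
    exact Submodule.mem_top
  rw [cst_mem_algSub] at h0
  have h2 : mon w (Pi.single i 1) = w i := by
    unfold mon
    rw [Finset.prod_eq_single i]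
    · rw [Pi.single_eq_same, zpow_one]
    · intro j _ hj
      rw [Pi.single_eq_of_ne hj, zpow_zero]
    · intro h
      exact absurd (Finset.mem_univ _) h
  rwa [h2] at h0

end Helpers

/-- PROOF. `U := range (psiQ φ) ⊔ QP q`, `w := gen q`, `exists_coords U` gives `k`, `e : Fin k → ι`,
`k + finrank U = card ι`, every `v` is congruent to some `extend e c 0` modulo `U`.
Let `A := range (tm c φ w) ∪ range (w ∘ e)`. Claim: every `w i` is algebraic over `adjoin ℂ A`; then
`dm q = rk (range w) ≤ rk A ≤ rk (range (tm c φ w)) + k` (`dm_eq_rk`, `rk_le_of_algebraic`,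
`rk_union`, `rk_le_encard`, `dm_Im`). Claim: as in `CITLines.rk_coords_eq`: the set
`{v | ∃ N ≠ 0 : ℤ, ∃ a : ι → ℤ, (∀ i, (a i : ℚ) = N * v i) ∧ IsAlgebraic (adjoin ℂ A) (mon w a)}` is a
`ℚ`-subspace, contains `psiQ φ (Pi.single s 1) = cst (φ s)` (as `tm c φ w s = c s * mon w (φ s)`),
contains `QP q` (roots of unity are algebraic), and the vectors `extend e c 0` (products of the
`w (e j)`). So it is everything, and `w i ^ N` algebraic gives `w i` algebraic. -/
theorem dm_le_Im (hc : ∀ s, RU (c s)) {q : Ideal (MvPolynomial ι ℂ)} (hq : TP q) :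
    dm q + finrank ℚ ↥(LinearMap.range (psiQ φ) ⊔ QP q) ≤
      dm (Im c φ q) + Fintype.card ι := by
  have := hq.prime
  obtain ⟨k, e, he, hk, _, h⟩ := exists_coords (LinearMap.range (psiQ φ) ⊔ QP q)
  have hw : ∀ i, gen q i ≠ 0 := hq.gen_ne_zero
  have hA1 : Set.range (tm c φ (gen q)) ⊆
      Set.range (tm c φ (gen q)) ∪ Set.range (fun j => gen q (e j)) := Set.subset_union_left
  have hA2 : Set.range (fun j => gen q (e j)) ⊆
      Set.range (tm c φ (gen q)) ∪ Set.range (fun j => gen q (e j)) := Set.subset_union_right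
  have htop : algSub hw
      (Set.range (tm c φ (gen q)) ∪ Set.range (fun j => gen q (e j))) = ⊤ := by
    rw [eq_top_iff]
    rintro v -
    obtain ⟨d, hd⟩ := h v
    have h1 : LinearMap.range (psiQ φ) ⊔ QP q ≤ algSub hw
        (Set.range (tm c φ (gen q)) ∪ Set.range (fun j => gen q (e j))) := by
      refine sup_le (range_le_algSub hc hw _ hA1) ?_
      rw [hq.QP_eq]
      exact QS_le_algSub hw _
    have h2 := Submodule.add_mem _ (h1 hd) (extend_mem_algSub hw _ e he hA2 d)
    rwa [sub_add_cancel] at h2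
  have h3 : rk ℂ (Set.range (gen q)) ≤
      rk ℂ (Set.range (tm c φ (gen q)) ∪ Set.range (fun j => gen q (e j))) := by
    refine rk_le_of_algebraic ?_
    rintro _ ⟨i, rfl⟩
    exact alg_of_mem_top hw _ htop i
  have h4 : rk ℂ (Set.range (fun j => gen q (e j))) ≤ k := by
    refine (rk_le_encard _).trans ?_
    rw [← Set.image_univ]
    refine (Set.encard_image_le _ _).trans ?_
    rw [Set.encard_univ]
    simp
  have h5 : (dm q : ℕ∞) ≤ (dm (Im c φ q) : ℕ∞) + k := by
    rw [dm_eq_rk q, dm_Im c φ q]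
    exact (h3.trans (rk_union _ _)).trans (by gcongr)
  have h6 : dm q ≤ dm (Im c φ q) + k := by exact_mod_cast h5
  omega

end Pool.Agent.Tri3
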